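import Mathlib

section

namespace Pool.Agent.MP_5bc3cb_al

/-- Abstract interface: an HNN extension of an abelian group `H` along subgroups `A`, `B` of
index `d` (`a * t = t * b`), with exponent sum `n`, planar cocycle `p` and the half-space `Hs`
of the Bass-Serre tree behind the edge from `H` to `t H`. -/
structure Geo (G : Type) [Group G] where
  H : Subgroup G
  A : Subgroup G
  B : Subgroup G
  t : G
  n : G → ℤ
  p : G → ℂ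
  lam : ℂ
  Hs : Set G
  d : ℕ
  rA : Fin d → G
  rB : Fin d → G
  c0 : G
  A_le : A ≤ H
  B_le : B ≤ H
  comm : ∀ x ∈ H, ∀ y ∈ H, x * y = y * x
  A_t : ∀ a ∈ A, t⁻¹ * a * t ∈ B
  B_t : ∀ b ∈ B, t * b * t⁻¹ ∈ A
  rA_mem : ∀ i, rA i ∈ H
  rA_cover : ∀ h ∈ H, ∃ i, (rA i)⁻¹ * h ∈ A
  rB_mem : ∀ i, rB i ∈ H
  rB_cover : ∀ h ∈ H, ∃ i, (rB i)⁻¹ * h ∈ B
  rB_inj : ∀ i j, (rB i)⁻¹ * rB j ∈ B → i = j
  c0_mem : c0 ∈ H
  c0_not : c0 ∉ A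
  n_mul : ∀ x y, n (x * y) = n x + n y
  n_H : ∀ h ∈ H, n h = 0
  n_t : n t = 1
  p_mul : ∀ x y, p (x * y) = p x + lam ^ (n x) * p y
  lam_norm : ‖lam‖ = 1
  lam_ne : ∀ j : ℕ, 0 < j → lam ^ j ≠ 1
  p_inj : ∀ h ∈ H, p h = 0 → h = 1
  p_sum : ∀ ε : ℝ, 0 < ε → Summable (fun h : H => Real.exp (-ε * ‖p h‖))
  Hs_H : ∀ x ∈ Hs, ∀ h ∈ H, x * h ∈ Hs
  Hs_t : ∀ x ∈ Hs, x * t ∈ Hs
  one_not : (1 : G) ∉ Hs
  At_mem : ∀ a ∈ A, a * t ∈ Hs
  cross : ∀ x, x ∉ Hs → x * t ∈ Hs → x ∈ A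
  ind : ∀ Q : G → Prop, Q 1 → (∀ x, ∀ h ∈ H, Q x → Q (x * h)) → (∀ x, Q x → Q (x * t)) →
    (∀ x, Q x → Q (x * t⁻¹)) → ∀ g, Q g

end Pool.Agent.MP_5bc3cb_al

end

section

namespace Pool.Agent.MP_5bc3cb_al
open Pointwise

namespace Geo
variable {G : Type} [Group G] (Γ : Geo G)

theorem rind {Q : G → Prop} (one : Q 1)
    (mulH : ∀ x, ∀ h ∈ Γ.H, Q x → Q (x * h)) (mult : ∀ x, Q x → Q (x * Γ.t))
    (mulInv : ∀ x, Q x → Q (x * Γ.t⁻¹)) (g : G) : Q g := Γ.ind Q one mulH mult mulInv g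

theorem n_one : Γ.n 1 = 0 := Γ.n_H 1 Γ.H.one_mem

theorem n_inv (x : G) : Γ.n x⁻¹ = -Γ.n x := by
  have := Γ.n_mul x x⁻¹
  rw [mul_inv_cancel, Γ.n_one] at this
  omega

theorem p_one : Γ.p 1 = 0 := by
  have := Γ.p_mul 1 1
  rw [mul_one, Γ.n_one, zpow_zero, one_mul] at this
  simpa using this

theorem lam_ne_zero : Γ.lam ≠ 0 := by
  intro h; have := Γ.lam_norm; rw [h] at this; simp at this

theorem norm_zpow_lam (j : ℤ) : ‖Γ.lam ^ j‖ = 1 := by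
  rw [norm_zpow, Γ.lam_norm, one_zpow]

theorem Hs_mul_H_iff {x h : G} (hh : h ∈ Γ.H) : x * h ∈ Γ.Hs ↔ x ∈ Γ.Hs :=
  ⟨fun hx => by simpa using Γ.Hs_H _ hx _ (Γ.H.inv_mem hh), fun hx => Γ.Hs_H _ hx _ hh⟩

theorem H_not_Hs {h : G} (hh : h ∈ Γ.H) : h ∉ Γ.Hs := fun hx =>
  Γ.one_not ((Γ.Hs_mul_H_iff hh).1 (by simpa using hx))

theorem t_mem : Γ.t ∈ Γ.Hs := by simpa using Γ.At_mem 1 Γ.A.one_mem

theorem of_mul_inv_t {x : G} (hx : x * Γ.t⁻¹ ∈ Γ.Hs) : x ∈ Γ.Hs := by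
  simpa using Γ.Hs_t _ hx

theorem Hs_A_iff {a : G} (ha : a ∈ Γ.A) (x : G) : a * x ∈ Γ.Hs ↔ x ∈ Γ.Hs := by
  induction x using Γ.rind with
  | one => simp only [mul_one]; exact ⟨fun h => (Γ.H_not_Hs (Γ.A_le ha) h).elim,
      fun h => (Γ.one_not h).elim⟩
  | mulH x h hh ih => rw [← mul_assoc, Γ.Hs_mul_H_iff hh, Γ.Hs_mul_H_iff hh, ih]
  | mult x ih =>
    rw [← mul_assoc]
    by_cases hx : x ∈ Γ.Hs
    · exact ⟨fun _ => Γ.Hs_t _ hx, fun _ => Γ.Hs_t _ (ih.2 hx)⟩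
    · refine ⟨fun h => ?_, fun h => Γ.At_mem _ (Γ.A.mul_mem ha (Γ.cross _ hx h))⟩
      exact Γ.At_mem _ ((Γ.A.mul_mem_cancel_left ha).1 (Γ.cross _ (fun h' => hx (ih.1 h')) h))
  | mulInv x ih =>
    constructor
    · intro h
      by_contra h'
      have h1 : x * Γ.t⁻¹ ∈ Γ.A := Γ.cross _ h' (by
        simpa using ih.1 (Γ.of_mul_inv_t (by rwa [mul_assoc])))
      exact Γ.H_not_Hs (Γ.A_le (Γ.A.mul_mem ha h1)) h
    · intro h
      by_contra h'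
      have h1 : a * (x * Γ.t⁻¹) ∈ Γ.A := Γ.cross _ h' (by
        simpa [mul_assoc] using ih.2 (Γ.of_mul_inv_t h))
      exact Γ.H_not_Hs (Γ.A_le ((Γ.A.mul_mem_cancel_left ha).1 h1)) h

theorem sep {y x : G} (hy : y ∈ Γ.H) (h1 : x ∈ Γ.Hs) (h2 : y⁻¹ * x ∈ Γ.Hs) : y ∈ Γ.A := by
  by_contra hA
  revert h1 h2
  induction x using Γ.rind with
  | one => exact fun h _ => Γ.one_not h
  | mulH x h hh ih =>
    rw [← mul_assoc, Γ.Hs_mul_H_iff hh, Γ.Hs_mul_H_iff hh]; exact ih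
  | mult x ih =>
    intro h1 h2
    rw [← mul_assoc] at h2
    have key : x ∈ Γ.H → False := fun hx => by
      have e1 := Γ.cross _ (Γ.H_not_Hs hx) h1
      have e2 := Γ.cross _ (Γ.H_not_Hs (Γ.H.mul_mem (Γ.H.inv_mem hy) hx)) h2
      exact hA (Γ.A.inv_mem_iff.1 ((Γ.A.mul_mem_cancel_right e1).1 e2))
    by_cases hx : x ∈ Γ.Hs
    · have e2 := Γ.cross _ (ih hx) h2
      exact key ((Γ.H.mul_mem_cancel_left (Γ.H.inv_mem hy)).1 (Γ.A_le e2))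
    · exact key (Γ.A_le (Γ.cross _ hx h1))
  | mulInv x ih =>
    intro h1 h2
    exact ih (Γ.of_mul_inv_t h1) (Γ.of_mul_inv_t (by rwa [mul_assoc]))

theorem tH_mem {h : G} (hh : h ∈ Γ.H) : Γ.t * h ∈ Γ.Hs := Γ.Hs_H _ Γ.t_mem _ hh

theorem nested {h x : G} (hh : h ∈ Γ.H) (hx : x ∈ Γ.Hs) : Γ.t * h * x ∈ Γ.Hs := by
  revert hx
  induction x using Γ.rind with
  | one => exact fun h => (Γ.one_not h).elim
  | mulH x h' hh' ih => rw [← mul_assoc, Γ.Hs_mul_H_iff hh', Γ.Hs_mul_H_iff hh']; exact ih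
  | mult x ih =>
    intro h1
    rw [← mul_assoc]
    by_cases hx : x ∈ Γ.Hs
    · exact Γ.Hs_t _ (ih hx)
    · exact Γ.Hs_t _ (Γ.Hs_H _ (Γ.tH_mem hh) _ (Γ.A_le (Γ.cross _ hx h1)))
  | mulInv x ih =>
    intro h1
    by_contra h2
    have e := Γ.cross _ h2 (by simpa [mul_assoc] using ih (Γ.of_mul_inv_t h1))
    have : x * Γ.t⁻¹ = h⁻¹ * Γ.t⁻¹ * (Γ.t * h * (x * Γ.t⁻¹)) := by group
    rw [this, Γ.Hs_mul_H_iff (Γ.A_le e)] at h1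
    exact Γ.H_not_Hs (Γ.H.inv_mem hh) (Γ.of_mul_inv_t h1)

/-- positive words `(t H)^k` -/
def Pos : ℕ → Set G
  | 0 => {1}
  | k + 1 => {z | ∃ x ∈ Pos k, ∃ h ∈ Γ.H, z = x * Γ.t * h}

/-- the cone `H (t H)^k` -/
def Cone : ℕ → Set G
  | 0 => Γ.H
  | k + 1 => {z | ∃ x ∈ Cone k, ∃ h ∈ Γ.H, z = x * Γ.t * h}

theorem mem_Pos_zero {z : G} : z ∈ Γ.Pos 0 ↔ z = 1 := Iff.rfl

theorem Pos_succ {k : ℕ} {x h : G} (hx : x ∈ Γ.Pos k) (hh : h ∈ Γ.H) :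
    x * Γ.t * h ∈ Γ.Pos (k + 1) := ⟨x, hx, h, hh, rfl⟩

theorem Cone_succ {k : ℕ} {x h : G} (hx : x ∈ Γ.Cone k) (hh : h ∈ Γ.H) :
    x * Γ.t * h ∈ Γ.Cone (k + 1) := ⟨x, hx, h, hh, rfl⟩

theorem Pos_mul_Hs {k : ℕ} {z x : G} (hz : z ∈ Γ.Pos k) (hx : x ∈ Γ.Hs) : z * x ∈ Γ.Hs := by
  induction k generalizing z x with
  | zero => rw [Γ.mem_Pos_zero.1 hz, one_mul]; exact hx
  | succ k ih =>
    obtain ⟨y, hy, h, hh, rfl⟩ := hz
    rw [mul_assoc y, mul_assoc y]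
    exact ih hy (Γ.nested hh hx)

theorem Pos_succ_Hs {k : ℕ} {z : G} (hz : z ∈ Γ.Pos (k + 1)) : z ∈ Γ.Hs := by
  induction k generalizing z with
  | zero =>
    obtain ⟨y, hy, h, hh, rfl⟩ := hz
    rw [Γ.mem_Pos_zero.1 hy, one_mul]; exact Γ.tH_mem hh
  | succ k ih =>
    obtain ⟨y, hy, h, hh, rfl⟩ := hz
    exact Γ.Hs_H _ (Γ.Hs_t _ (ih hy)) _ hh

theorem Pos_mul_Pos {j k : ℕ} {x y : G} (hx : x ∈ Γ.Pos j) (hy : y ∈ Γ.Pos k) :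
    x * y ∈ Γ.Pos (j + k) := by
  induction k generalizing y with
  | zero => rw [Γ.mem_Pos_zero.1 hy, mul_one]; exact hx
  | succ k ih =>
    obtain ⟨z, hz, h, hh, rfl⟩ := hy
    rw [← mul_assoc, ← mul_assoc]
    exact Γ.Pos_succ (ih hz) hh

theorem Cone_mul_Pos {j k : ℕ} {x y : G} (hx : x ∈ Γ.Cone j) (hy : y ∈ Γ.Pos k) :
    x * y ∈ Γ.Cone (j + k) := by
  induction k generalizing y with
  | zero => rw [Γ.mem_Pos_zero.1 hy, mul_one]; exact hx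
  | succ k ih =>
    obtain ⟨z, hz, h, hh, rfl⟩ := hy
    rw [← mul_assoc, ← mul_assoc]
    exact Γ.Cone_succ (ih hz) hh

theorem Cone_split {j k : ℕ} {g : G} (hg : g ∈ Γ.Cone (j + k)) :
    ∃ γ ∈ Γ.Cone j, γ⁻¹ * g ∈ Γ.Pos k := by
  induction k generalizing g with
  | zero => exact ⟨g, hg, by simp [Γ.mem_Pos_zero]⟩
  | succ k ih =>
    obtain ⟨z, hz, h, hh, rfl⟩ := hg
    obtain ⟨γ, hγ, h1⟩ := ih hz
    refine ⟨γ, hγ, ?_⟩
    rw [← mul_assoc, ← mul_assoc]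
    exact Γ.Pos_succ h1 hh

theorem Pos_split {j k : ℕ} {g : G} (hg : g ∈ Γ.Pos (j + k)) :
    ∃ γ ∈ Γ.Pos j, γ⁻¹ * g ∈ Γ.Pos k := by
  induction k generalizing g with
  | zero => exact ⟨g, hg, by simp [Γ.mem_Pos_zero]⟩
  | succ k ih =>
    obtain ⟨z, hz, h, hh, rfl⟩ := hg
    obtain ⟨γ, hγ, h1⟩ := ih hz
    refine ⟨γ, hγ, ?_⟩
    rw [← mul_assoc, ← mul_assoc]
    exact Γ.Pos_succ h1 hh

theorem n_Pos {k : ℕ} {z : G} (hz : z ∈ Γ.Pos k) : Γ.n z = k := by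
  induction k generalizing z with
  | zero => rw [Γ.mem_Pos_zero.1 hz, Γ.n_one]; rfl
  | succ k ih =>
    obtain ⟨y, hy, h, hh, rfl⟩ := hz
    rw [Γ.n_mul, Γ.n_mul, ih hy, Γ.n_t, Γ.n_H h hh]; push_cast; ring

theorem n_Cone {k : ℕ} {z : G} (hz : z ∈ Γ.Cone k) : Γ.n z = k := by
  induction k generalizing z with
  | zero => exact Γ.n_H z hz
  | succ k ih =>
    obtain ⟨y, hy, h, hh, rfl⟩ := hz
    rw [Γ.n_mul, Γ.n_mul, ih hy, Γ.n_t, Γ.n_H h hh]; push_cast; ring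

theorem Cone_mul_H {k : ℕ} {z h : G} (hz : z ∈ Γ.Cone k) (hh : h ∈ Γ.H) : z * h ∈ Γ.Cone k := by
  cases k with
  | zero => exact Γ.H.mul_mem hz hh
  | succ k =>
    obtain ⟨y, hy, h', hh', rfl⟩ := hz
    rw [mul_assoc]; exact Γ.Cone_succ hy (Γ.H.mul_mem hh' hh)

theorem Pos_mul_H {k : ℕ} {z h : G} (hz : z ∈ Γ.Pos (k + 1)) (hh : h ∈ Γ.H) :
    z * h ∈ Γ.Pos (k + 1) := by
  obtain ⟨y, hy, h', hh', rfl⟩ := hz
  rw [mul_assoc]; exact Γ.Pos_succ hy (Γ.H.mul_mem hh' hh)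

theorem A_mul_Pos {k : ℕ} {z a : G} (ha : a ∈ Γ.A) (hz : z ∈ Γ.Pos (k + 1)) :
    a * z ∈ Γ.Pos (k + 1) := by
  induction k generalizing z with
  | zero =>
    obtain ⟨y, hy, h, hh, rfl⟩ := hz
    rw [Γ.mem_Pos_zero.1 hy]
    refine ⟨1, rfl, Γ.t⁻¹ * a * Γ.t * h, Γ.H.mul_mem (Γ.B_le (Γ.A_t a ha)) hh, by group⟩
  | succ k ih =>
    obtain ⟨y, hy, h, hh, rfl⟩ := hz
    rw [← mul_assoc, ← mul_assoc]; exact Γ.Pos_succ (ih hy) hh

theorem Cone_inv_not {k : ℕ} {γ y : G} (hγ : γ ∈ Γ.Cone k) (hy : y ∉ Γ.Hs) :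
    y * γ⁻¹ ∉ Γ.Hs := by
  induction k generalizing γ y with
  | zero => rw [Γ.Hs_mul_H_iff (Γ.H.inv_mem hγ)]; exact hy
  | succ k ih =>
    obtain ⟨x, hx, h, hh, rfl⟩ := hγ
    have : y * (x * Γ.t * h)⁻¹ = y * h⁻¹ * Γ.t⁻¹ * x⁻¹ := by group
    rw [this]
    refine ih hx fun h1 => hy ?_
    exact (Γ.Hs_mul_H_iff (Γ.H.inv_mem hh)).1 (Γ.of_mul_inv_t h1)

theorem Cone_uniq {k : ℕ} {γ γ' y : G} (hγ : γ ∈ Γ.Cone k) (hγ' : γ' ∈ Γ.Cone k)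
    (h1 : γ⁻¹ * y ∈ Γ.Hs) (h2 : γ'⁻¹ * y ∈ Γ.Hs) : γ⁻¹ * γ' ∈ Γ.A := by
  induction k generalizing γ γ' with
  | zero =>
    exact Γ.sep (Γ.H.mul_mem (Γ.H.inv_mem hγ) hγ') h1 (by simpa [mul_assoc] using h2)
  | succ k ih =>
    obtain ⟨x, hx, h, hh, rfl⟩ := hγ
    obtain ⟨x', hx', h', hh', rfl⟩ := hγ'
    have e := ih hx hx' (by simpa [mul_assoc] using Γ.nested hh h1)
      (by simpa [mul_assoc] using Γ.nested hh' h2)
    refine Γ.sep ?_ h1 (by simpa [mul_assoc] using h2)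
    have : (x * Γ.t * h)⁻¹ * (x' * Γ.t * h') = h⁻¹ * (Γ.t⁻¹ * (x⁻¹ * x') * Γ.t) * h' := by group
    rw [this]
    exact Γ.H.mul_mem (Γ.H.mul_mem (Γ.H.inv_mem hh) (Γ.B_le (Γ.A_t _ e))) hh'

/-- the whole cone -/
def CA : Set G := {g | ∃ R, g ∈ Γ.Cone R}

/-- `γ` represents the edge at depth `d` below `g` -/
def Anc (d : ℕ) (γ g : G) : Prop := γ ∈ Γ.CA ∧ γ⁻¹ * g ∈ Γ.Pos d

/-- elements of the cone of level at least `d` -/
def Dom (d : ℕ) : Set G := {g | ∃ γ, Γ.Anc d γ g}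

/-- descendants of the edge at depth `d` below `g` -/
def Desc (d : ℕ) (g : G) : Set G := {y | ∃ γ, Γ.Anc d γ g ∧ γ⁻¹ * y ∈ Γ.Hs}

variable {Γ}

theorem CA_mul_H {g h : G} (hg : g ∈ Γ.CA) (hh : h ∈ Γ.H) : g * h ∈ Γ.CA := by
  obtain ⟨R, hR⟩ := hg; exact ⟨R, Γ.Cone_mul_H hR hh⟩

theorem CA_mul_Pos {g z : G} {k : ℕ} (hg : g ∈ Γ.CA) (hz : z ∈ Γ.Pos k) : g * z ∈ Γ.CA := by
  obtain ⟨R, hR⟩ := hg; exact ⟨_, Γ.Cone_mul_Pos hR hz⟩

theorem CA_shift {g h : G} (hg : g ∈ Γ.CA) (hh : h ∈ Γ.H) : g * Γ.t * h ∈ Γ.CA := by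
  obtain ⟨R, hR⟩ := hg; exact ⟨_, Γ.Cone_succ hR hh⟩

theorem Anc.mem_CA {d : ℕ} {γ g : G} (h : Γ.Anc d γ g) : g ∈ Γ.CA := by
  simpa using CA_mul_Pos h.1 h.2

theorem Dom_sub_CA {d : ℕ} {g : G} (h : g ∈ Γ.Dom d) : g ∈ Γ.CA := by
  obtain ⟨γ, h⟩ := h; exact h.mem_CA

theorem Anc.uniq {d : ℕ} {γ γ' g : G} (h : Γ.Anc d γ g) (h' : Γ.Anc d γ' g) :
    γ⁻¹ * γ' ∈ Γ.A := by
  cases d with
  | zero =>
    have e1 : γ⁻¹ * g = 1 := h.2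
    have e2 : γ'⁻¹ * g = 1 := h'.2
    rw [inv_mul_eq_one] at e1 e2
    rw [e1, e2]; simp
  | succ d =>
    obtain ⟨⟨j, hj⟩, h2⟩ := h
    obtain ⟨⟨j', hj'⟩, h2'⟩ := h'
    have e1 := Γ.n_Pos h2
    have e2 := Γ.n_Pos h2'
    rw [Γ.n_mul, Γ.n_inv, Γ.n_Cone hj] at e1
    rw [Γ.n_mul, Γ.n_inv, Γ.n_Cone hj'] at e2
    have : j = j' := by omega
    subst this
    exact Γ.Cone_uniq hj hj' (Γ.Pos_succ_Hs h2) (Γ.Pos_succ_Hs h2')

theorem Anc.mul_A {d : ℕ} {γ g a : G} (h : Γ.Anc (d + 1) γ g) (ha : a ∈ Γ.A) :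
    Γ.Anc (d + 1) (γ * a) g :=
  ⟨CA_mul_H h.1 (Γ.A_le ha), by
    simpa [mul_assoc] using Γ.A_mul_Pos (Γ.A.inv_mem ha) h.2⟩

theorem Anc.mem_Desc {d : ℕ} {γ g : G} (h : Γ.Anc d γ g) {y : G} :
    y ∈ Γ.Desc d g ↔ γ⁻¹ * y ∈ Γ.Hs := by
  refine ⟨fun ⟨γ', h', hy⟩ => ?_, fun hy => ⟨γ, h, hy⟩⟩
  have := (Γ.Hs_A_iff (h.uniq h') _).2 hy
  simpa [mul_assoc] using this

theorem Anc.split {d j : ℕ} {γ g : G} (h : Γ.Anc (j + d) γ g) :
    ∃ z ∈ Γ.Pos j, Γ.Anc d (γ * z) g := by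
  obtain ⟨z, hz, h2⟩ := Γ.Pos_split h.2
  exact ⟨z, hz, CA_mul_Pos h.1 hz, by simpa [mul_assoc] using h2⟩

theorem Anc.join {d j : ℕ} {γ g z : G} (hγ : γ ∈ Γ.CA) (hz : z ∈ Γ.Pos j)
    (h : Γ.Anc d (γ * z) g) : Γ.Anc (j + d) γ g :=
  ⟨hγ, by simpa [mul_assoc] using Γ.Pos_mul_Pos hz h.2⟩

theorem Dom_mono {d d' : ℕ} (hd : d ≤ d') {g : G} (h : g ∈ Γ.Dom d') : g ∈ Γ.Dom d := by
  obtain ⟨j, rfl⟩ := Nat.exists_eq_add_of_le' hd
  obtain ⟨γ, h⟩ := h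
  obtain ⟨z, -, h2⟩ := h.split
  exact ⟨_, h2⟩

theorem Desc_mono {d d' : ℕ} (hd : d ≤ d') {g : G} (h : g ∈ Γ.Dom d') {y : G}
    (hy : y ∈ Γ.Desc d g) : y ∈ Γ.Desc d' g := by
  obtain ⟨j, rfl⟩ := Nat.exists_eq_add_of_le' hd
  obtain ⟨γ, h⟩ := h
  obtain ⟨z, hz, h2⟩ := h.split
  rw [h.mem_Desc]
  simpa [mul_assoc] using Γ.Pos_mul_Hs hz (h2.mem_Desc.1 hy)

theorem self_mem_Desc {d : ℕ} {g : G} (h : g ∈ Γ.Dom (d + 1)) : g ∈ Γ.Desc (d + 1) g := by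
  obtain ⟨γ, h⟩ := h
  exact ⟨γ, h, Γ.Pos_succ_Hs h.2⟩

theorem one_not_Desc (d : ℕ) (g : G) : (1 : G) ∉ Γ.Desc d g := by
  rintro ⟨γ, ⟨⟨R, hR⟩, -⟩, h⟩
  exact Γ.Cone_inv_not hR Γ.one_not (by simpa using h)

theorem Anc.shift {d : ℕ} {γ g h : G} (hg : Γ.Anc d γ g) (hh : h ∈ Γ.H) :
    Γ.Anc (d + 1) γ (g * Γ.t * h) :=
  ⟨hg.1, by rw [← mul_assoc, ← mul_assoc]; exact Γ.Pos_succ hg.2 hh⟩

theorem Dom_shift {d : ℕ} {g h : G} (hg : g ∈ Γ.Dom d) (hh : h ∈ Γ.H) :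
    g * Γ.t * h ∈ Γ.Dom (d + 1) := by
  obtain ⟨γ, hγ⟩ := hg; exact ⟨γ, hγ.shift hh⟩

theorem Desc_shift {d : ℕ} {g h : G} (hg : g ∈ Γ.Dom d) (hh : h ∈ Γ.H) {y : G} :
    y ∈ Γ.Desc (d + 1) (g * Γ.t * h) ↔ y ∈ Γ.Desc d g := by
  obtain ⟨γ, hγ⟩ := hg
  rw [(hγ.shift hh).mem_Desc, hγ.mem_Desc]

theorem Anc.mul_H {d : ℕ} {γ g h : G} (hg : Γ.Anc (d + 1) γ g) (hh : h ∈ Γ.H) :
    Γ.Anc (d + 1) γ (g * h) :=
  ⟨hg.1, by rw [← mul_assoc]; exact Γ.Pos_mul_H hg.2 hh⟩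

theorem Dom_mul_H {d : ℕ} {g h : G} (hg : g ∈ Γ.Dom (d + 1)) (hh : h ∈ Γ.H) :
    g * h ∈ Γ.Dom (d + 1) := by
  obtain ⟨γ, hγ⟩ := hg; exact ⟨γ, hγ.mul_H hh⟩

theorem Desc_mul_H {d : ℕ} {g h : G} (hg : g ∈ Γ.Dom (d + 1)) (hh : h ∈ Γ.H) {y : G} :
    y ∈ Γ.Desc (d + 1) (g * h) ↔ y ∈ Γ.Desc (d + 1) g := by
  obtain ⟨γ, hγ⟩ := hg
  rw [(hγ.mul_H hh).mem_Desc, hγ.mem_Desc]

theorem Anc_zero {g : G} (hg : g ∈ Γ.CA) : Γ.Anc 0 g g := ⟨hg, by simp [Γ.mem_Pos_zero]⟩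

theorem mem_Dom_of_Cone {R d : ℕ} {g : G} (hg : g ∈ Γ.Cone R) (hd : d ≤ R) : g ∈ Γ.Dom d := by
  obtain ⟨j, rfl⟩ := Nat.exists_eq_add_of_le' hd
  obtain ⟨γ, h1, h2⟩ := Γ.Cone_split hg
  exact ⟨γ, ⟨j, h1⟩, h2⟩

theorem shift_inj {g g' : G} (hg : g ∈ Γ.CA) (hg' : g' ∈ Γ.CA) {i j : Fin Γ.d}
    (h : g * Γ.t * Γ.rB i = g' * Γ.t * Γ.rB j) : i = j := by
  have h1 := (Anc_zero hg).shift (Γ.rB_mem i)
  have h2 := (Anc_zero hg').shift (Γ.rB_mem j)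
  rw [← h] at h2
  have e := Γ.A_t _ (h1.uniq h2)
  apply Γ.rB_inj
  have : Γ.t⁻¹ * (g⁻¹ * g') * Γ.t = Γ.rB i * (Γ.rB j)⁻¹ := by
    have : g' = g * Γ.t * Γ.rB i * (Γ.rB j)⁻¹ * Γ.t⁻¹ := by rw [h]; group
    rw [this]; group
  rw [this, Γ.comm _ (Γ.rB_mem i) _ (Γ.H.inv_mem (Γ.rB_mem j))] at e
  simpa using Γ.B.inv_mem e

end Geo
end Pool.Agent.MP_5bc3cb_al

end

section

namespace Pool.Agent.MP_5bc3cb_al
open Filter Topology

/-- indicator function -/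
noncomputable def chi {G : Type} (E : Set G) (g : G) : ℝ := E.indicator 1 g

theorem chi_of_mem {G : Type} {E : Set G} {g : G} (h : g ∈ E) : chi E g = 1 := by simp [chi, h]
theorem chi_of_not {G : Type} {E : Set G} {g : G} (h : g ∉ E) : chi E g = 0 := by simp [chi, h]
theorem chi_nonneg {G : Type} (E : Set G) (g : G) : 0 ≤ chi E g := by
  by_cases h : g ∈ E <;> simp [chi, h]
theorem chi_le_one {G : Type} (E : Set G) (g : G) : chi E g ≤ 1 := by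
  by_cases h : g ∈ E <;> simp [chi, h]

/-- quasi-invariant mean on the cone -/
structure Mean {G : Type} [Group G] (Γ : Geo G) where
  m : Set G → ℝ
  pos : ∀ {ι : Type} (s : Finset ι) (c : ι → ℝ) (E : ι → Set G),
    (∀ g, 0 ≤ ∑ i ∈ s, c i * chi (E i) g) → 0 ≤ ∑ i ∈ s, c i * m (E i)
  m_univ : m Set.univ = 1
  supp : m Γ.CAᶜ = 0
  qi : ∀ (E E' : Set G) (f : G), E ⊆ Γ.CA → E' ⊆ Γ.CA → (∀ g ∈ E, g * f ∈ E') →
    m E ≤ (Γ.d : ℝ) ^ (Γ.n f) * m E'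

theorem summable_list_pow (d : ℕ) (y : ℝ) (hy : 0 ≤ y) (h : d * y < 1) :
    Summable fun l : List (Fin d) => y ^ l.length := by
  rw [← List.equivSigmaTuple.symm.summable_iff, summable_sigma_of_nonneg fun _ => by
    simp only [Function.comp]; positivity]
  refine ⟨fun n => (hasSum_fintype _).summable, ?_⟩
  refine (summable_geometric_of_lt_one (by positivity) h).congr fun n => ?_
  simp [List.equivSigmaTuple, mul_pow]

namespace Geo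
variable {G : Type} [Group G] (Γ : Geo G)

theorem d_pos : 0 < Γ.d := by
  obtain ⟨i, -⟩ := Γ.rA_cover 1 Γ.H.one_mem
  exact Fin.pos i

theorem norm_p_mul_le (x y : G) : ‖Γ.p (x * y)‖ ≤ ‖Γ.p x‖ + ‖Γ.p y‖ := by
  rw [Γ.p_mul]
  refine (norm_add_le _ _).trans ?_
  rw [norm_mul, Γ.norm_zpow_lam, one_mul]

theorem norm_p_inv (x : G) : ‖Γ.p x⁻¹‖ = ‖Γ.p x‖ := by
  have := Γ.p_mul x x⁻¹
  rw [mul_inv_cancel, Γ.p_one] at this
  rw [eq_neg_of_add_eq_zero_left this.symm, norm_neg, norm_mul, Γ.norm_zpow_lam, one_mul]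

/-- normal form prefix -/
def nf (l : List (Fin Γ.d)) : G := (l.map fun i => Γ.rA i * Γ.t).prod

theorem exists_nf {R : ℕ} {g : G} (hg : g ∈ Γ.Cone R) :
    ∃ l : List (Fin Γ.d), ∃ h ∈ Γ.H, l.length = R ∧ g = Γ.nf l * h := by
  induction R generalizing g with
  | zero => exact ⟨[], g, hg, rfl, by simp [nf]⟩
  | succ R ih =>
    obtain ⟨x, hx, h', hh', rfl⟩ := hg
    obtain ⟨l, h, hh, hl, rfl⟩ := ih hx
    obtain ⟨i, hi⟩ := Γ.rA_cover h hh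
    refine ⟨l ++ [i], _, Γ.H.mul_mem (Γ.B_le (Γ.A_t _ hi)) hh', by simp [hl], ?_⟩
    simp [nf, mul_assoc]

/-- constant -/
noncomputable def C0 : ℝ := ∑ i, ‖Γ.p (Γ.rA i * Γ.t)‖

theorem C0_nonneg : 0 ≤ Γ.C0 := Finset.sum_nonneg fun _ _ => norm_nonneg _

theorem norm_p_nf (l : List (Fin Γ.d)) : ‖Γ.p (Γ.nf l)‖ ≤ Γ.C0 * l.length := by
  induction l with
  | nil => simp [nf, Γ.p_one]
  | cons i l ih =>
    have h1 : ‖Γ.p (Γ.rA i * Γ.t)‖ ≤ Γ.C0 :=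
      Finset.single_le_sum (f := fun i => ‖Γ.p (Γ.rA i * Γ.t)‖) (fun _ _ => norm_nonneg _)
        (Finset.mem_univ i)
    have h2 := Γ.norm_p_mul_le (Γ.rA i * Γ.t) (Γ.nf l)
    simp only [nf, List.map_cons, List.prod_cons, List.length_cons] at ih h2 ⊢
    push_cast; linarith

/-- weight -/
noncomputable def wt0 (ε : ℝ) (g : G) : ℝ :=
  (Γ.d : ℝ) ^ (-Γ.n g) * Real.exp (-ε * ((Γ.C0 + 1) * Γ.n g + ‖Γ.p g‖))

theorem wt0_pos (ε : ℝ) (g : G) : 0 < Γ.wt0 ε g := by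
  have := Γ.d_pos
  unfold wt0; positivity

theorem wt0_le (ε : ℝ) (hε : 0 ≤ ε) (g f : G) : Γ.wt0 ε g ≤
    (Γ.d : ℝ) ^ (Γ.n f) * Real.exp (ε * ((Γ.C0 + 1) * Γ.n f + ‖Γ.p f‖)) * Γ.wt0 ε (g * f) := by
  have hd : (0 : ℝ) < Γ.d := by exact_mod_cast Γ.d_pos
  unfold wt0
  rw [mul_mul_mul_comm, ← zpow_add₀ hd.ne', ← Real.exp_add, Γ.n_mul]
  have : Γ.n f + -(Γ.n g + Γ.n f) = -Γ.n g := by ring
  rw [this]
  refine mul_le_mul_of_nonneg_left (Real.exp_le_exp.2 ?_) (by positivity)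
  have := Γ.norm_p_mul_le g f
  push_cast
  nlinarith

theorem summable_wt (ε : ℝ) (hε : 0 < ε) : Summable (Γ.CA.indicator (Γ.wt0 ε)) := by
  have hd : (0 : ℝ) < Γ.d := by exact_mod_cast Γ.d_pos
  rw [← summable_subtype_iff_indicator]
  have h1 := summable_list_pow Γ.d ((Γ.d : ℝ)⁻¹ * Real.exp (-ε)) (by positivity) (by
    rw [← mul_assoc, mul_inv_cancel₀ hd.ne', one_mul]
    exact Real.exp_lt_one_iff.2 (by linarith))
  have h2 := h1.mul_of_nonneg (Γ.p_sum ε hε) (fun _ => by positivity) (fun _ => by positivity)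
  have hex : ∀ g : Γ.CA, ∃ x : List (Fin Γ.d) × Γ.H, Γ.n g = x.1.length ∧
      (g : G) = Γ.nf x.1 * x.2 := by
    rintro ⟨g, R, hR⟩
    obtain ⟨l, h, hh, hl, e⟩ := Γ.exists_nf hR
    exact ⟨(l, ⟨h, hh⟩), by simp [Γ.n_Cone hR, hl], e⟩
  choose sec hn he using hex
  have hinj : Function.Injective sec := fun g g' h => Subtype.ext (by rw [he, he, h])
  refine Summable.of_nonneg_of_le (fun g => (Γ.wt0_pos _ _).le) (fun g => ?_)
    (h2.comp_injective hinj)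
  simp only [Function.comp, wt0]
  rw [hn, mul_pow, ← Real.exp_nat_mul, mul_assoc, ← Real.exp_add, zpow_neg, zpow_natCast, inv_pow]
  refine mul_le_mul_of_nonneg_left (Real.exp_le_exp.2 ?_) (by positivity)
  have h3 := Γ.norm_p_mul_le (Γ.nf (sec g).1)⁻¹ g
  rw [Γ.norm_p_inv] at h3
  have h4 := Γ.norm_p_nf (sec g).1
  have h5 : (Γ.nf (sec g).1)⁻¹ * g = (sec g).2 := by rw [inv_mul_eq_iff_eq_mul]; exact he g
  rw [h5] at h3
  push_cast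
  nlinarith

theorem exists_mean : Nonempty (Mean Γ) := by
  let ε : ℕ → ℝ := fun k => 1 / ((k : ℝ) + 1)
  have hε : ∀ k, 0 < ε k := fun k => by positivity
  let W : ℕ → G → ℝ := fun k => Γ.CA.indicator (Γ.wt0 (ε k))
  have hW0 : ∀ k g, 0 ≤ W k g := fun k g =>
    Set.indicator_nonneg (fun g _ => (Γ.wt0_pos _ _).le) g
  have hWs : ∀ k, Summable (W k) := fun k => Γ.summable_wt _ (hε k)
  have hs : ∀ k E, Summable fun g => W k g * chi E g := fun k E =>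
    Summable.of_nonneg_of_le (fun g => mul_nonneg (hW0 k g) (chi_nonneg _ _))
      (fun g => mul_le_of_le_one_right (hW0 k g) (chi_le_one _ _)) (hWs k)
  have hZ : ∀ k, 0 < ∑' g, W k g := fun k => (hWs k).tsum_pos (hW0 k) 1 (by
    have : (1 : G) ∈ Γ.CA := ⟨0, Γ.H.one_mem⟩
    simp only [W, Set.indicator_of_mem this]; exact Γ.wt0_pos _ _)
  let av : ℕ → Set G → ℝ := fun k E => (∑' g, W k g * chi E g) / ∑' g, W k g
  let 𝒰 : Ultrafilter ℕ := Ultrafilter.of atTop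
  have hlim : ∀ E, ∃ x, Tendsto (fun k => av k E) 𝒰 (𝓝 x) := fun E => by
    obtain ⟨x, -, hx⟩ := (isCompact_Icc (a := (0 : ℝ)) (b := 1)).ultrafilter_le_nhds
      (𝒰.map fun k => av k E) (by
        rw [Filter.le_principal_iff, Ultrafilter.coe_map, Filter.mem_map]
        refine Filter.univ_mem' fun k => ⟨div_nonneg (tsum_nonneg fun g =>
          mul_nonneg (hW0 k g) (chi_nonneg _ _)) (hZ k).le, (div_le_one (hZ k)).2 ?_⟩
        exact (hs k E).tsum_le_tsum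
          (fun g => mul_le_of_le_one_right (hW0 k g) (chi_le_one _ _)) (hWs k))
    exact ⟨x, hx⟩
  choose m hm using hlim
  refine ⟨⟨m, fun s c E h => ?_, ?_, ?_, fun E E' f hE hE' h => ?_⟩⟩
  · refine ge_of_tendsto' (tendsto_finsetSum s fun i _ => (hm (E i)).const_mul (c i)) fun k => ?_
    simp only [av, ← mul_div_assoc, ← Finset.sum_div, ← tsum_mul_left]
    refine div_nonneg ?_ (hZ k).le
    rw [← Summable.tsum_finsetSum fun i _ => (hs k (E i)).mul_left (c i)]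
    refine tsum_nonneg fun g => ?_
    have := mul_nonneg (hW0 k g) (h g)
    rw [Finset.mul_sum] at this
    refine this.trans_eq (Finset.sum_congr rfl fun i _ => by ring)
  · refine tendsto_nhds_unique (hm _) (tendsto_const_nhds.congr fun k => ?_)
    simp [av, chi, (hZ k).ne']
  · refine tendsto_nhds_unique (hm _) (tendsto_const_nhds.congr fun k => ?_)
    have : ∀ g, W k g * chi Γ.CAᶜ g = 0 := fun g => by
      by_cases hg : g ∈ Γ.CA <;> simp [W, chi, hg]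
    simp [av, this]
  · set c := (Γ.C0 + 1) * Γ.n f + ‖Γ.p f‖
    have h1 : Tendsto (fun k => (Γ.d : ℝ) ^ (Γ.n f) * Real.exp (ε k * c) * av k E') 𝒰
        (𝓝 ((Γ.d : ℝ) ^ (Γ.n f) * Real.exp (0 * c) * m E')) := by
      refine Tendsto.mul (Tendsto.const_mul _ ?_) (hm E')
      exact (Real.continuous_exp.tendsto _).comp
        ((tendsto_one_div_add_atTop_nhds_zero_nat.mono_left (Ultrafilter.of_le _)).mul_const c)
    rw [zero_mul, Real.exp_zero, mul_one] at h1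
    refine le_of_tendsto_of_tendsto' (hm E) h1 fun k => ?_
    simp only [av, ← mul_div_assoc]
    refine div_le_div_of_nonneg_right ?_ (hZ k).le
    rw [← (Equiv.mulRight f).tsum_eq fun g => W k g * chi E' g, ← tsum_mul_left]
    refine (hs k E).tsum_le_tsum (fun g => ?_)
      (((Equiv.mulRight f).summable_iff.2 (hs k E')).mul_left _)
    by_cases hg : g ∈ E
    · simp only [Equiv.coe_mulRight, chi_of_mem hg, chi_of_mem (h g hg), mul_one, W,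
        Set.indicator_of_mem (hE hg), Set.indicator_of_mem (hE' (h g hg))]
      exact Γ.wt0_le _ (hε k).le g f
    · rw [chi_of_not hg, mul_zero]
      have := hW0 k (g * f)
      have := chi_nonneg E' (g * f)
      simp only [Equiv.coe_mulRight]
      positivity

end Geo
end Pool.Agent.MP_5bc3cb_al

end

section

namespace Pool.Agent.MP_5bc3cb_al
open Filter

namespace Mean
variable {G : Type} [Group G] {Γ : Geo G} (M : Mean Γ)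

theorem le2 {ι κ : Type} (s : Finset ι) (s' : Finset κ) (c : ι → ℝ) (E : ι → Set G)
    (c' : κ → ℝ) (E' : κ → Set G)
    (h : ∀ g, ∑ i ∈ s, c i * chi (E i) g ≤ ∑ i ∈ s', c' i * chi (E' i) g) :
    ∑ i ∈ s, c i * M.m (E i) ≤ ∑ i ∈ s', c' i * M.m (E' i) := by
  have := M.pos (s.disjSum s') (Sum.elim (fun i => -c i) c') (Sum.elim E E') fun g => by
    simpa [Finset.sum_disjSum] using h g
  simpa [Finset.sum_disjSum] using this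

theorem nonneg (E : Set G) : 0 ≤ M.m E := by
  simpa using M.pos {()} (fun _ => 1) (fun _ => E) fun g => by simpa using chi_nonneg E g

theorem cover_le {ι : Type} (s : Finset ι) (E : Set G) (E' : ι → Set G)
    (h : ∀ g ∈ E, ∃ i ∈ s, g ∈ E' i) : M.m E ≤ ∑ i ∈ s, M.m (E' i) := by
  simpa using M.le2 {()} s (fun _ => 1) (fun _ => E) (fun _ => 1) E' fun g => by
    simp only [Finset.sum_singleton, one_mul]
    by_cases hg : g ∈ E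
    · obtain ⟨i, hi, hgi⟩ := h g hg
      rw [chi_of_mem hg, ← chi_of_mem hgi]
      exact Finset.single_le_sum (f := fun i => chi (E' i) g) (fun _ _ => chi_nonneg _ _) hi
    · rw [chi_of_not hg]; exact Finset.sum_nonneg fun _ _ => chi_nonneg _ _

theorem mono {E E' : Set G} (h : E ⊆ E') : M.m E ≤ M.m E' := by
  simpa using M.cover_le {()} E (fun _ => E') fun g hg => ⟨(), by simp, h hg⟩

theorem m_empty : M.m ∅ = 0 :=
  le_antisymm (by simpa using M.cover_le (∅ : Finset Unit) ∅ (fun _ => ∅) (by simp)) (M.nonneg _)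

theorem le_one (E : Set G) : M.m E ≤ 1 := M.m_univ ▸ M.mono (Set.subset_univ E)

theorem union_le {E E1 E2 : Set G} (h : ∀ g ∈ E, g ∈ E1 ∨ g ∈ E2) :
    M.m E ≤ M.m E1 + M.m E2 := by
  simpa using M.cover_le Finset.univ E (fun b : Bool => if b then E1 else E2) fun g hg => by
    simpa [or_comm] using h g hg

/-- almost everywhere -/
def ae : Filter G where
  sets := {E | M.m Eᶜ = 0}
  univ_sets := by simp [M.m_empty]
  sets_of_superset hE h := le_antisymm ((M.mono (Set.compl_subset_compl.2 h)).trans hE.le)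
    (M.nonneg _)
  inter_sets {E1 E2} h1 h2 := le_antisymm ((M.union_le (E1 := E1ᶜ) (E2 := E2ᶜ) fun g hg => by
    simpa [imp_iff_not_or] using hg).trans (by rw [h1, h2]; simp)) (M.nonneg _)

theorem ae_iff {P : G → Prop} : (∀ᶠ g in M.ae, P g) ↔ M.m {g | ¬ P g} = 0 := Iff.rfl

theorem ae_not_mem {E : Set G} : (∀ᶠ g in M.ae, g ∉ E) ↔ M.m E = 0 := by
  rw [ae_iff]; simp

theorem ae_CA : ∀ᶠ g in M.ae, g ∈ Γ.CA := M.supp

theorem le_ae {ι κ : Type} (s : Finset ι) (s' : Finset κ) (c : ι → ℝ) (E : ι → Set G)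
    (c' : κ → ℝ) (E' : κ → Set G)
    (h : ∀ᶠ g in M.ae, ∑ i ∈ s, c i * chi (E i) g ≤ ∑ i ∈ s', c' i * chi (E' i) g) :
    ∑ i ∈ s, c i * M.m (E i) ≤ ∑ i ∈ s', c' i * M.m (E' i) := by
  set N := {g | ¬ ∑ i ∈ s, c i * chi (E i) g ≤ ∑ i ∈ s', c' i * chi (E' i) g} with hN
  have hN0 : M.m N = 0 := h
  have hb : ∀ (x : ℝ) (E : Set G) g, |x * chi E g| ≤ |x| := fun x E g => by
    rw [abs_mul, abs_of_nonneg (chi_nonneg _ _)]
    exact mul_le_of_le_one_right (abs_nonneg _) (chi_le_one _ _)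
  have := M.le2 s (s'.disjSum {()}) c E
    (Sum.elim c' fun _ => ∑ i ∈ s, |c i| + ∑ i ∈ s', |c' i|) (Sum.elim E' fun _ => N) fun g => by
      simp only [Finset.sum_disjSum, Sum.elim_inl, Sum.elim_inr, Finset.sum_singleton]
      by_cases hg : g ∈ N
      · rw [chi_of_mem hg, mul_one]
        have h1 : ∑ i ∈ s, c i * chi (E i) g ≤ ∑ i ∈ s, |c i| :=
          Finset.sum_le_sum fun i _ => (le_abs_self _).trans (hb _ _ _)
        have h2 : ∑ i ∈ s', -|c' i| ≤ ∑ i ∈ s', c' i * chi (E' i) g :=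
          Finset.sum_le_sum fun i _ => (abs_le.1 (hb _ _ _)).1
        rw [Finset.sum_neg_distrib] at h2
        linarith
      · rw [chi_of_not hg, mul_zero, add_zero]
        exact not_not.1 hg
  simpa [Finset.sum_disjSum, hN0] using this

theorem eq_ae {ι κ : Type} (s : Finset ι) (s' : Finset κ) (c : ι → ℝ) (E : ι → Set G)
    (c' : κ → ℝ) (E' : κ → Set G)
    (h : ∀ᶠ g in M.ae, ∑ i ∈ s, c i * chi (E i) g = ∑ i ∈ s', c' i * chi (E' i) g) :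
    ∑ i ∈ s, c i * M.m (E i) = ∑ i ∈ s', c' i * M.m (E' i) :=
  le_antisymm (M.le_ae _ _ _ _ _ _ (h.mono fun _ h => h.le))
    (M.le_ae _ _ _ _ _ _ (h.mono fun _ h => h.ge))

theorem mono_ae {E E' : Set G} (h : ∀ᶠ g in M.ae, g ∈ E → g ∈ E') : M.m E ≤ M.m E' := by
  have h0 : M.m {g | ¬ (g ∈ E → g ∈ E')} = 0 := h
  have := M.union_le (E := E) (E1 := E') (E2 := {g | ¬ (g ∈ E → g ∈ E')}) fun g hg => by
    by_cases h : g ∈ E' <;> simp [h, hg]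
  rwa [h0, add_zero] at this

theorem count_le {ι : Type} (s : Finset ι) (E : Set G) (E' : ι → Set G) (k : ℝ)
    (h : ∀ g ∈ E, k ≤ ∑ i ∈ s, chi (E' i) g) : k * M.m E ≤ ∑ i ∈ s, M.m (E' i) := by
  simpa using M.le2 {()} s (fun _ => k) (fun _ => E) (fun _ => 1) E' fun g => by
    simp only [Finset.sum_singleton, one_mul]
    by_cases hg : g ∈ E
    · rw [chi_of_mem hg, mul_one]; exact h g hg
    · rw [chi_of_not hg, mul_zero]; exact Finset.sum_nonneg fun _ _ => chi_nonneg _ _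

theorem disj_le {ι : Type} (s : Finset ι) (E : ι → Set G) (E' : Set G)
    (hsub : ∀ i ∈ s, E i ⊆ E') (hd : ∀ i ∈ s, ∀ j ∈ s, ∀ g, g ∈ E i → g ∈ E j → i = j) :
    ∑ i ∈ s, M.m (E i) ≤ M.m E' := by
  simpa using M.le2 s {()} (fun _ => 1) E (fun _ => 1) (fun _ => E') fun g => by
    simp only [Finset.sum_singleton, one_mul]
    by_cases hg : ∃ i ∈ s, g ∈ E i
    · obtain ⟨i, hi, hgi⟩ := hg
      rw [Finset.sum_eq_single_of_mem i hi fun j hj hne =>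
        chi_of_not fun h => hne (hd j hj i hi g h hgi), chi_of_mem hgi, chi_of_mem (hsub i hi hgi)]
    · push Not at hg
      rw [Finset.sum_eq_zero fun i hi => chi_of_not (hg i hi)]
      exact chi_nonneg _ _

theorem wander (J : ℕ) (X : ℕ → Set G) (x : ℝ) (h : ∀ j < J, x ≤ M.m (X j))
    (hd : ∀ i j, i < j → j < J → ∀ g, g ∈ X i → g ∈ X j → False) : J * x ≤ 1 := by
  have h1 := M.disj_le (Finset.range J) X Set.univ (fun _ _ => Set.subset_univ _)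
    fun i hi j hj g h1 h2 => by
      by_contra hne
      rcases lt_or_gt_of_ne hne with hlt | hlt
      · exact hd i j hlt (Finset.mem_range.1 hj) g h1 h2
      · exact hd j i hlt (Finset.mem_range.1 hi) g h2 h1
  have h2 : ∑ _j ∈ Finset.range J, x ≤ ∑ j ∈ Finset.range J, M.m (X j) :=
    Finset.sum_le_sum fun j hj => h j (Finset.mem_range.1 hj)
  rw [M.m_univ] at h1
  simpa using h2.trans h1

theorem H_le {E E' : Set G} {h : G} (hh : h ∈ Γ.H) (hE : ∀ g ∈ E, g ∈ Γ.CA → g * h ∈ E') :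
    M.m E ≤ M.m E' := by
  have h1 := M.qi (E ∩ Γ.CA) (E' ∩ Γ.CA) h Set.inter_subset_right Set.inter_subset_right
    fun g hg => ⟨hE g hg.1 hg.2, Geo.CA_mul_H hg.2 hh⟩
  rw [Γ.n_H h hh, zpow_zero, one_mul] at h1
  exact (M.mono_ae (E' := E ∩ Γ.CA) (M.ae_CA.mono fun g hg h => ⟨h, hg⟩)).trans
    (h1.trans (M.mono Set.inter_subset_left))

theorem H_eq (E : Set G) {h : G} (hh : h ∈ Γ.H) : M.m {g | g * h ∈ E} = M.m E :=
  le_antisymm (M.H_le hh fun _ hg _ => hg)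
    (M.H_le (Γ.H.inv_mem hh) fun g hg _ => by simpa using hg)

theorem ae_mul_H {P : G → Prop} (hP : ∀ᶠ g in M.ae, P g) {h : G} (hh : h ∈ Γ.H) :
    ∀ᶠ g in M.ae, P (g * h) := (M.H_eq {g | ¬ P g} hh).trans hP

theorem shift_le {E E' : Set G} (hE : E ⊆ Γ.CA)
    (h : ∀ g ∈ E, ∀ i, g * Γ.t * Γ.rB i ∈ E') : M.m E ≤ M.m E' := by
  have hd : (0 : ℝ) < Γ.d := by exact_mod_cast Γ.d_pos
  let X : Fin Γ.d → Set G := fun i => (fun g => g * Γ.t * Γ.rB i) '' E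
  have h1 := M.disj_le Finset.univ X E' (by rintro i - _ ⟨g, hg, rfl⟩; exact h g hg i)
    (by rintro i - j - _ ⟨g, hg, rfl⟩ ⟨g', hg', e⟩; exact (Geo.shift_inj (hE hg') (hE hg) e).symm)
  have h2 : ∀ i, M.m E ≤ Γ.d * M.m (X i) := fun i => by
    have := M.qi E (X i) (Γ.t * Γ.rB i) hE
      (by rintro _ ⟨g, hg, rfl⟩; exact Geo.CA_shift (hE hg) (Γ.rB_mem i))
      fun g hg => ⟨g, hg, mul_assoc _ _ _⟩
    rwa [Γ.n_mul, Γ.n_t, Γ.n_H _ (Γ.rB_mem i), add_zero, zpow_one] at this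
  have h3 := Finset.sum_le_sum fun i (_ : i ∈ Finset.univ) => h2 i
  rw [← Finset.mul_sum] at h3
  simp only [Finset.sum_const, Finset.card_univ, Fintype.card_fin, nsmul_eq_mul] at h3
  exact (le_of_mul_le_mul_left h3 hd).trans h1

theorem le_of_forall_nat {x : ℝ} (h : ∀ J : ℕ, J * x ≤ 1) : x ≤ 0 := by
  by_contra hx
  push Not at hx
  obtain ⟨J, hJ⟩ := exists_nat_gt (1 / x)
  rw [div_lt_iff₀ hx] at hJ
  exact (h J).not_gt hJ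

theorem m_Cone (R : ℕ) : M.m (Γ.Cone R) = 0 := by
  refine le_antisymm (le_of_forall_nat fun J => ?_) (M.nonneg _)
  refine M.wander J (fun j => Γ.Cone (R + j)) _ (fun j _ => ?_) fun i j hij _ g h1 h2 => ?_
  · induction j with
    | zero => exact le_rfl
    | succ j ih =>
      exact (ih (by omega)).trans (M.shift_le (fun g hg => ⟨_, hg⟩)
        fun g hg i => Γ.Cone_succ hg (Γ.rB_mem i))
  · have := (Γ.n_Cone h1).symm.trans (Γ.n_Cone h2)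
    omega

theorem ae_Dom (d : ℕ) : ∀ᶠ g in M.ae, g ∈ Γ.Dom d := by
  have h1 : ∀ᶠ g in M.ae, ∀ R ∈ Finset.range d, g ∉ Γ.Cone R :=
    (Filter.eventually_all_finset _).2 fun R _ => M.ae_not_mem.2 (M.m_Cone R)
  filter_upwards [h1, M.ae_CA] with g h1 ⟨R, hR⟩
  refine Geo.mem_Dom_of_Cone hR ?_
  by_contra hlt
  exact h1 R (Finset.mem_range.2 (by omega)) hR

omit [Group G] in
theorem sum_chi {β : Type} (F : Finset β) (X : G → β) (ψ : β → ℝ) (E : Set G) {g : G}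
    (hg : X g ∈ F) : ∑ x ∈ F, ψ x * chi {g | g ∈ E ∧ X g = x} g = ψ (X g) * chi E g := by
  rw [Finset.sum_eq_single_of_mem _ hg fun x _ hx => by
    rw [chi_of_not (fun h => hx h.2.symm), mul_zero]]
  by_cases h : g ∈ E
  · rw [chi_of_mem h, chi_of_mem (E := {g' | g' ∈ E ∧ X g' = X g}) ⟨h, rfl⟩]
  · rw [chi_of_not h, chi_of_not (E := {g' | g' ∈ E ∧ X g' = X g}) fun h' => h h'.1]

theorem partition {β : Type} (F : Finset β) (X : G → β) (hX : ∀ᶠ g in M.ae, X g ∈ F)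
    (E : Set G) : M.m E = ∑ x ∈ F, M.m {g | g ∈ E ∧ X g = x} := by
  simpa using M.eq_ae {()} F (fun _ => 1) (fun _ => E) (fun _ => 1)
    (fun x => {g | g ∈ E ∧ X g = x}) (hX.mono fun g hg => by
      rw [sum_chi F X (fun _ => 1) E hg]; simp)

end Mean
end Pool.Agent.MP_5bc3cb_al

end

section

namespace Pool.Agent.MP_5bc3cb_al
open Filter

/-- abstract cut-and-paste system -/
structure CutSys {G : Type} [Group G] (Γ : Geo G) (S β Y : Type) where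
  D : ℕ → Set G
  Q : ℕ → G → S
  σ : ℕ → G → β
  Z : ℕ → G → Y
  e : β → G
  D_sub : ∀ l, D l ⊆ Γ.CA
  cp : ∀ l1 l2 g1 g2, g1 ∈ D l1 → g2 ∈ D l2 → Q l1 g1 = Q l2 g2 →
    g1 * ((e (σ l1 g1))⁻¹ * e (σ l2 g2)) ∈ D l2 ∧
    Q l2 (g1 * ((e (σ l1 g1))⁻¹ * e (σ l2 g2))) = Q l2 g2 ∧
    σ l2 (g1 * ((e (σ l1 g1))⁻¹ * e (σ l2 g2))) = σ l2 g2 ∧
    Z l2 (g1 * ((e (σ l1 g1))⁻¹ * e (σ l2 g2))) = Z l1 g1

namespace CutSys
variable {G : Type} [Group G] {Γ : Geo G} {S β Y : Type} (C : CutSys Γ S β Y) (M : Mean Γ)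

/-- cell -/
def Cell (l : ℕ) (q : S) (x : β) (B : Set Y) : Set G :=
  {g | (g ∈ C.D l ∧ C.Q l g = q ∧ C.Z l g ∈ B) ∧ C.σ l g = x}

theorem cell_le {l1 l2 : ℕ} {q : S} {x1 x2 : β} (h2 : (C.Cell l2 q x2 Set.univ).Nonempty)
    (B : Set Y) : M.m (C.Cell l1 q x1 B) ≤
      (Γ.d : ℝ) ^ Γ.n ((C.e x1)⁻¹ * C.e x2) * M.m (C.Cell l2 q x2 B) := by
  obtain ⟨g2, ⟨hd2, hq2, -⟩, rfl⟩ := h2
  refine M.qi _ _ _ (fun g hg => C.D_sub _ hg.1.1) (fun g hg => C.D_sub _ hg.1.1) ?_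
  rintro g1 ⟨⟨hd1, hq1, hz⟩, rfl⟩
  obtain ⟨e1, e2, e3, e4⟩ := C.cp l1 l2 g1 g2 hd1 hd2 (hq1.trans hq2.symm)
  exact ⟨⟨e1, e2.trans hq2, e4 ▸ hz⟩, e3⟩

theorem cell_eq {l1 l2 : ℕ} {q : S} {x1 x2 : β} (h1 : (C.Cell l1 q x1 Set.univ).Nonempty)
    (h2 : (C.Cell l2 q x2 Set.univ).Nonempty) (B : Set Y) : M.m (C.Cell l1 q x1 B) =
      (Γ.d : ℝ) ^ Γ.n ((C.e x1)⁻¹ * C.e x2) * M.m (C.Cell l2 q x2 B) := by
  have hd : (0 : ℝ) < Γ.d := by exact_mod_cast Γ.d_pos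
  refine le_antisymm (C.cell_le M h2 B) ?_
  have := mul_le_mul_of_nonneg_left (C.cell_le M (l1 := l2) (x1 := x2) h1 B)
    (zpow_pos hd (Γ.n ((C.e x1)⁻¹ * C.e x2))).le
  rwa [← mul_assoc, ← zpow_add₀ hd.ne', ← Γ.n_mul, mul_assoc (C.e x1)⁻¹, mul_inv_cancel_left,
    inv_mul_cancel, Γ.n_one, zpow_zero, one_mul] at this

theorem cell_zero {l : ℕ} {q : S} {x : β} (h : ¬ (C.Cell l q x Set.univ).Nonempty) (B : Set Y) :
    M.m (C.Cell l q x B) = 0 := by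
  have : C.Cell l q x B = ∅ := Set.eq_empty_of_forall_notMem fun g hg =>
    h ⟨g, ⟨hg.1.1, hg.1.2.1, trivial⟩, hg.2⟩
  rw [this, M.m_empty]

theorem cell_prod (l1 l2 : ℕ) (q : S) (x1 x2 : β) (B : Set Y) :
    M.m (C.Cell l1 q x1 B) * M.m (C.Cell l2 q x2 Set.univ) =
      M.m (C.Cell l1 q x1 Set.univ) * M.m (C.Cell l2 q x2 B) := by
  by_cases h1 : (C.Cell l1 q x1 Set.univ).Nonempty
  · by_cases h2 : (C.Cell l2 q x2 Set.univ).Nonempty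
    · rw [C.cell_eq M h1 h2 B, C.cell_eq M h1 h2 Set.univ]; ring
    · simp [C.cell_zero M h2]
  · simp [C.cell_zero M h1]

theorem homog (hD : ∀ l, ∀ᶠ g in M.ae, g ∈ C.D l)
    (hσ : ∀ l, ∃ F : Finset β, ∀ᶠ g in M.ae, C.σ l g ∈ F) (l1 l2 : ℕ) (q : S) (B : Set Y) :
    M.m {g | C.Q l1 g = q ∧ C.Z l1 g ∈ B} * M.m {g | C.Q l2 g = q} =
      M.m {g | C.Q l1 g = q} * M.m {g | C.Q l2 g = q ∧ C.Z l2 g ∈ B} := by
  choose F hF using hσ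
  have h1 : ∀ l B, M.m {g | C.Q l g = q ∧ C.Z l g ∈ B} = ∑ x ∈ F l, M.m (C.Cell l q x B) := by
    intro l B
    rw [show ∑ x ∈ F l, M.m (C.Cell l q x B) = _ from
      (M.partition (F l) (C.σ l) (hF l) {g | g ∈ C.D l ∧ C.Q l g = q ∧ C.Z l g ∈ B}).symm]
    exact le_antisymm (M.mono_ae ((hD l).mono fun g hg h => ⟨hg, h⟩)) (M.mono fun g hg => hg.2)
  have h2 : ∀ l, M.m {g | C.Q l g = q} = ∑ x ∈ F l, M.m (C.Cell l q x Set.univ) := by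
    intro l; rw [← h1]; simp
  rw [h1, h1, h2, h2, Finset.sum_mul_sum, Finset.sum_mul_sum]
  exact Finset.sum_congr rfl fun x1 _ => Finset.sum_congr rfl fun x2 _ => C.cell_prod M _ _ _ _ _ _

theorem bdd (l : ℕ) (hD : ∀ᶠ g in M.ae, g ∈ C.D l) (FS : Finset S)
    (hS : ∀ g ∈ C.D l, C.Q l g ∈ FS)
    (hn : ∀ g ∈ C.D l, ∀ g' ∈ C.D l, C.Q l g = C.Q l g' →
      Γ.n (C.e (C.σ l g)) = Γ.n (C.e (C.σ l g')))
    (ht : ∀ δ : ℝ, 0 < δ → ∃ F : Finset β, M.m {g | C.σ l g ∉ F} ≤ δ) :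
    ∃ F : Finset β, ∀ᶠ g in M.ae, C.σ l g ∈ F := by
  classical
  have key : ∀ q, {x | M.m (C.Cell l q x Set.univ) ≠ 0}.Finite := by
    intro q
    by_contra hinf
    obtain ⟨x0, hx0⟩ := Set.Infinite.nonempty hinf
    have hne : ∀ x, M.m (C.Cell l q x Set.univ) ≠ 0 → (C.Cell l q x Set.univ).Nonempty :=
      fun x hx => by by_contra h; exact hx (C.cell_zero M h _)
    refine hx0 (le_antisymm (Mean.le_of_forall_nat fun J => ?_) (M.nonneg _))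
    obtain ⟨s, hs, hJ⟩ := Set.Infinite.exists_subset_card_eq hinf J
    have h1 := M.disj_le s (fun x => C.Cell l q x Set.univ) Set.univ
      (fun _ _ => Set.subset_univ _) fun i _ j _ g h1 h2 => h1.2.symm.trans h2.2
    rw [M.m_univ, Finset.sum_congr rfl (g := fun _ => M.m (C.Cell l q x0 Set.univ))] at h1
    · simpa [hJ] using h1
    · intro x hx
      have hx' := hne x (hs hx)
      rw [C.cell_eq M hx' (hne x0 hx0)]
      obtain ⟨g, ⟨e1, e2, -⟩, rfl⟩ := hx'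
      obtain ⟨g', ⟨e1', e2', -⟩, rfl⟩ := hne x0 hx0
      rw [Γ.n_mul, Γ.n_inv, hn g e1 g' e1' (e2.trans e2'.symm)]; simp
  refine ⟨FS.biUnion fun q => (key q).toFinset, ?_⟩
  rw [M.ae_iff]
  refine le_antisymm (le_of_forall_pos_le_add fun δ hδ => ?_) (M.nonneg _)
  obtain ⟨F, hF⟩ := ht δ hδ
  set F0 := FS.biUnion fun q => (key q).toFinset
  have h0 : M.m {g | g ∈ C.D l ∧ C.σ l g ∈ F ∧ C.σ l g ∉ F0} ≤ 0 := by
    refine (M.cover_le (FS ×ˢ (F \ F0)) _ (fun c => C.Cell l c.1 c.2 Set.univ) ?_).trans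
      (Finset.sum_eq_zero fun c hc => ?_).le
    · rintro g ⟨e1, e2, e3⟩
      exact ⟨(C.Q l g, C.σ l g), Finset.mem_product.2 ⟨hS g e1, Finset.mem_sdiff.2 ⟨e2, e3⟩⟩,
        ⟨e1, rfl, trivial⟩, rfl⟩
    · by_contra h
      rw [Finset.mem_product, Finset.mem_sdiff] at hc
      exact hc.2.2 (Finset.mem_biUnion.2 ⟨c.1, hc.1, (key _).mem_toFinset.2 h⟩)
  have h1 := M.mono_ae (E := {g | C.σ l g ∉ F0}) (E' := {g | g ∈ C.D l ∧ C.σ l g ∉ F0})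
    (hD.mono fun g hg h => ⟨hg, h⟩)
  have h2 := M.union_le (E := {g | g ∈ C.D l ∧ C.σ l g ∉ F0})
    (E1 := {g | g ∈ C.D l ∧ C.σ l g ∈ F ∧ C.σ l g ∉ F0}) (E2 := {g | C.σ l g ∉ F})
    fun g hg => by
      by_cases h : C.σ l g ∈ F
      · exact Or.inl ⟨hg.1, h, hg.2⟩
      · exact Or.inr h
  linarith

end CutSys
end Pool.Agent.MP_5bc3cb_al

end
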