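import Pool.Agent.MP_5bc3cb_al.Defs
import Pool.Agent.Mg.F5bc3cb.G4fa345
import Mathlib

section

namespace Pool.Agent.MP_5bc3cb_al

/-- evaluation of a word -/
def ev {G α : Type} [Group G] (π : α → G) (u : List α) : G := (u.map π).prod

section
variable {G α : Type} [Group G] (π : α → G)

@[simp] theorem ev_nil : ev π [] = 1 := rfl
@[simp] theorem ev_cons (a : α) (u : List α) : ev π (a :: u) = π a * ev π u := by simp [ev]
@[simp] theorem ev_append (u v : List α) : ev π (u ++ v) = ev π u * ev π v := by simp [ev]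

/-- ball of radius `K` -/
def ball (K : ℕ) : Set G := ev π '' {z | z.length ≤ K}

theorem ball_finite [Finite α] (K : ℕ) : (ball π K).Finite :=
  (List.finite_length_le α K).image _

end

/-- left quotient -/
def quot {α : Type} (L : Set (List α)) (u : List α) : Set (List α) := {σ | u ++ σ ∈ L}

theorem quot_append {α : Type} (L : Set (List α)) (u v : List α) :
    quot L (u ++ v) = quot (quot L u) v := by
  ext σ; simp [quot]

/-- automatic structure with uniqueness -/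
structure UA (G : Type) [Group G] where
  α : Type
  fin : Finite α
  π : α → G
  L : Set (List α)
  w : G → List α
  w_mem : ∀ g, w g ∈ L
  ev_w : ∀ g, ev π (w g) = g
  uniq : ∀ u ∈ L, w (ev π u) = u
  finQ : (Set.range (quot L)).Finite
  ft : ∃ S : Set G, S.Finite ∧ ∀ g a t,
    (ev π ((w g).take t))⁻¹ * ev π ((w (g * π a)).take t) ∈ S

theorem finite_range_of_factor {X Y S : Type} [Nonempty X] (f : X → Y) (st : X → S)
    (hs : (Set.range st).Finite) (h : ∀ x x', st x = st x' → f x = f x') :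
    (Set.range f).Finite := by
  refine (hs.image fun s => f (Function.invFun st s)).subset ?_
  rintro _ ⟨x, rfl⟩
  exact ⟨st x, ⟨x, rfl⟩, h _ _ (Function.invFun_eq ⟨x, rfl⟩)⟩

theorem lex_append_iff {α : Type} (r : α → α → Prop) (a b c e : List α)
    (h : a.length = b.length) :
    List.Lex r (a ++ c) (b ++ e) ↔ List.Lex r a b ∨ (a = b ∧ List.Lex r c e) := by
  induction a generalizing b with
  | nil =>
    cases b with
    | nil => simp
    | cons y b => simp at h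
  | cons x a ih =>
    cases b with
    | nil => simp at h
    | cons y b =>
      simp only [List.length_cons, add_left_inj] at h
      simp only [List.cons_append, List.cons_lex_cons_iff, ih b h, List.cons.injEq]
      tauto

theorem shortlex_append_iff {α : Type} (r : α → α → Prop) (a b c e : List α)
    (h : a.length = b.length) :
    List.Shortlex r (a ++ c) (b ++ e) ↔ c.length < e.length ∨
      (c.length = e.length ∧ (List.Lex r a b ∨ (a = b ∧ List.Lex r c e))) := by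
  rw [List.shortlex_def, lex_append_iff r a b c e h]
  simp [h]

theorem exists_UA {G : Type} [Group G] (hG : IsAutomatic G) : Nonempty (UA G) := by
  classical
  obtain ⟨α, hfin, π, L, K, -, hreg, hsurj, hft⟩ := hG
  let r : α → α → Prop := WellOrderingRel
  have hwf : WellFounded (List.Shortlex r) := List.Shortlex.wf WellOrderingRel.isWellOrder.wf
  let L0 : Set (List α) := L
  have hft' : ∀ u ∈ L0, ∀ v ∈ L0, ∀ z : List α, z.length ≤ 1 → ev π u * ev π z = ev π v →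
      ∀ t, (ev π (u.take t))⁻¹ * ev π (v.take t) ∈ ball π K := by
    intro u hu v hv z hz he t
    obtain ⟨y, hy, hy'⟩ := hft u hu v hv ⟨z, hz, he⟩ t
    exact ⟨y, hy, (eq_inv_mul_of_mul_eq hy')⟩
  let L' : Set (List α) := {u | u ∈ L0 ∧ ∀ v ∈ L0, ev π v = ev π u → ¬ List.Shortlex r v u}
  have hex : ∀ g, ∃ u ∈ L', ev π u = g := by
    intro g
    obtain ⟨u0, hu0, he0⟩ := hsurj g
    obtain ⟨u, ⟨hu, he⟩, hmin⟩ := hwf.has_min {u | u ∈ L0 ∧ ev π u = g} ⟨u0, hu0, he0⟩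
    exact ⟨u, ⟨hu, fun v hv hev => hmin v ⟨hv, hev.trans he⟩⟩, he⟩
  have huniq : ∀ u ∈ L', ∀ v ∈ L', ev π u = ev π v → u = v := by
    intro u hu v hv he
    exact Std.Trichotomous.trichotomous (r := List.Shortlex r) u v
      (hv.2 u hu.1 he) (hu.2 v hv.1 he.symm)
  choose w hw hew using hex
  have hQ : (Set.range (quot L0)).Finite := hreg.finite_range_leftQuotient
  let Φ : List α → Set (G × Set (List α) × Prop × Prop) := fun u =>
    {x | x.1 ∈ ball π K ∧ ∃ v : List α, v.length = u.length ∧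
      x = ((ev π u)⁻¹ * ev π v, quot L0 v, List.Lex r v u, v = u)}
  let Ψ : List α → Set G := fun u =>
    {x | x ∈ ball π K ∧ ∃ v ∈ L0, v.length < u.length ∧ ev π v = ev π u * x}
  let st : List α → Set (List α) × Set (G × Set (List α) × Prop × Prop) × Set G :=
    fun u => (quot L0 u, Φ u, Ψ u)
  have hst : (Set.range st).Finite := by
    have h1 : ((ball π K) ×ˢ (Set.range (quot L0)) ×ˢ (Set.univ : Set (Prop × Prop))).Finite :=
      (ball_finite π K).prod (hQ.prod Set.finite_univ)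
    refine (hQ.prod (h1.finite_subsets.prod (ball_finite π K).finite_subsets)).subset ?_
    rintro _ ⟨u, rfl⟩
    refine ⟨⟨u, rfl⟩, ?_, fun x hx => hx.1⟩
    rintro x ⟨hx, v, -, rfl⟩
    exact ⟨hx, ⟨v, rfl⟩, trivial⟩
  have hkey : ∀ u u', st u = st u' → ∀ σ, u ++ σ ∈ L' → u' ++ σ ∈ L' := by
    intro u u' h σ hσ
    have h1 : quot L0 u = quot L0 u' := congrArg Prod.fst h
    have h2 : Φ u = Φ u' := congrArg (fun x => x.2.1) h
    have h3 : Ψ u = Ψ u' := congrArg (fun x => x.2.2) h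
    have hm : u' ++ σ ∈ L0 := by
      have : σ ∈ quot L0 u := hσ.1
      rw [h1] at this; exact this
    refine ⟨hm, fun v hv hev hlt => ?_⟩
    have hb := hft' _ hm v hv [] (by simp) (by simp [hev]) u'.length
    rw [List.take_left'  rfl] at hb
    rcases lt_or_ge v.length u'.length with hl | hl
    · rw [List.take_of_length_le hl.le, hev, ev_append, inv_mul_cancel_left] at hb
      have : ev π σ ∈ Ψ u' := ⟨hb, v, hv, hl, by rw [hev, ev_append]⟩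
      rw [← h3] at this
      obtain ⟨-, v0, hv0, hl0, he0⟩ := this
      exact hσ.2 v0 hv0 (by rw [he0, ev_append])
        (List.Shortlex.of_length_lt (by rw [List.length_append]; omega))
    · have hlen : (v.take u'.length).length = u'.length := by simp [hl]
      have : ((ev π u')⁻¹ * ev π (v.take u'.length), quot L0 (v.take u'.length),
          List.Lex r (v.take u'.length) u', v.take u'.length = u') ∈ Φ u' := ⟨hb, _, hlen, rfl⟩
      rw [← h2] at this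
      obtain ⟨-, x, hx, he⟩ := this
      simp only [Prod.mk.injEq, eq_iff_iff] at he
      obtain ⟨e1, e2, e3, e4⟩ := he
      have hv2 : v.drop u'.length ∈ quot L0 x := by
        rw [← e2]; simpa [quot] using hv
      refine hσ.2 (x ++ v.drop u'.length) hv2 ?_ ?_
      · have : ev π v = ev π (v.take u'.length) * ev π (v.drop u'.length) := by
          rw [← ev_append, List.take_append_drop]
        rw [hev, ev_append] at this
        rw [ev_append, ev_append, eq_mul_of_inv_mul_eq e1.symm, mul_assoc, mul_assoc, ← this]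
        simp
      · rw [← List.take_append_drop u'.length v, shortlex_append_iff r _ _ _ _ hlen] at hlt
        rw [shortlex_append_iff r _ _ _ _ hx, ← e3, ← e4]
        exact hlt
  refine ⟨⟨α, hfin, π, L', w, hw, hew, fun u hu => huniq _ (hw _) _ hu (hew _), ?_,
    ball π K, ball_finite π K, fun g a t => ?_⟩⟩
  · refine finite_range_of_factor _ st hst fun u u' h => ?_
    ext σ
    exact ⟨hkey u u' h σ, hkey u' u h.symm σ⟩
  · exact hft' _ (hw g).1 _ (hw _).1 [a] (by simp) (by simp [hew]) t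

end Pool.Agent.MP_5bc3cb_al

end

section

namespace Pool.Agent.MP_5bc3cb_al
open Pointwise

namespace UA
variable {G : Type} [Group G] (U : UA G)

instance : Finite U.α := U.fin

/-- forward path -/
def F (g : G) (i : ℕ) : G := ev U.π ((U.w g).take i)

/-- backward path -/
def B (g : G) (s : ℕ) : G := U.F g ((U.w g).length - s)

theorem F_of_le {g : G} {i : ℕ} (h : (U.w g).length ≤ i) : U.F g i = g := by
  rw [F, List.take_of_length_le h, U.ev_w]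

@[simp] theorem B_zero (g : G) : U.B g 0 = g := U.F_of_le (by simp)

theorem B_of_le {g : G} {s : ℕ} (h : (U.w g).length ≤ s) : U.B g s = 1 := by
  simp [B, F, Nat.sub_eq_zero_of_le h]

theorem w_eq_of_mem {u : List U.α} {g : G} (hu : u ∈ U.L) (he : ev U.π u = g) : U.w g = u := by
  rw [← he, U.uniq u hu]

theorem inj {u v : List U.α} (hu : u ∈ U.L) (hv : v ∈ U.L) (h : ev U.π u = ev U.π v) :
    u = v := by
  rw [← U.uniq u hu, h, U.uniq v hv]

theorem F_seg (g : G) {i j C : ℕ} (hij : i ≤ j) (hC : j ≤ i + C) :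
    (U.F g i)⁻¹ * U.F g j ∈ ball U.π C := by
  obtain ⟨k, rfl⟩ := Nat.exists_eq_add_of_le hij
  refine ⟨((U.w g).drop i).take k, ?_, ?_⟩
  · simp only [Set.mem_ofPred_eq, List.length_take]; omega
  · simp [F, List.take_add]

theorem F_seg' (g : G) {i j C : ℕ} (hij : i ≤ j + C) (hC : j ≤ i + C) :
    (U.F g i)⁻¹ * U.F g j ∈ ball U.π C ∪ (ball U.π C)⁻¹ := by
  rcases le_total i j with h | h
  · exact Or.inl (U.F_seg g h hC)
  · right; simpa using U.F_seg g h hij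

theorem B_seg (g : G) {i j C : ℕ} (hij : i ≤ j + C) (hC : j ≤ i + C) :
    (U.B g i)⁻¹ * U.B g j ∈ ball U.π C ∪ (ball U.π C)⁻¹ :=
  U.F_seg' g (by omega) (by omega)

theorem len_bound {S : Set G} (hS : S.Finite) : ∃ C, ∀ g x m,
    (∀ i, m ≤ i → x⁻¹ * U.F g i ∈ S) → (U.w g).length ≤ m + C := by
  classical
  refine ⟨(hS.prod U.finQ).toFinset.card, fun g x m h => ?_⟩
  by_contra hlt
  push Not at hlt
  obtain ⟨i, hi, j, hj, hne, he⟩ := Finset.exists_ne_map_eq_of_card_lt_of_maps_to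
    (s := Finset.Icc m (m + (hS.prod U.finQ).toFinset.card)) (t := (hS.prod U.finQ).toFinset)
    (by simp only [Nat.card_Icc]; omega) (f := fun i => (x⁻¹ * U.F g i, quot U.L ((U.w g).take i)))
    (fun i hi => by
      simp only [Finset.coe_Icc, Set.mem_Icc] at hi
      simp only [Set.Finite.coe_toFinset, Set.mem_prod]
      exact ⟨h i hi.1, _, rfl⟩)
  wlog hij : i < j generalizing i j
  · exact this j hj i hi hne.symm he.symm (by omega)
  simp only [Finset.mem_Icc] at hi hj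
  simp only [Prod.mk.injEq, mul_right_inj] at he
  have h1 : (U.w g).drop j ∈ quot U.L ((U.w g).take j) := by simpa [quot] using U.w_mem g
  rw [← he.2] at h1
  have h2 := U.w_eq_of_mem (g := g) h1 (by
    rw [ev_append]
    change U.F g i * _ = g
    rw [he.1, F, ← ev_append, List.take_append_drop, U.ev_w])
  have := congrArg List.length h2
  simp only [List.length_append, List.length_take, List.length_drop] at this
  omega

theorem bft_letter : ∃ S : Set G, S.Finite ∧ ∀ g a s, (U.B g s)⁻¹ * U.B (g * U.π a) s ∈ S := by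
  obtain ⟨S, hS, h⟩ := U.ft
  obtain ⟨C, hC⟩ := U.len_bound (hS.union hS.inv)
  refine ⟨(ball U.π C ∪ (ball U.π C)⁻¹) * S,
    ((ball_finite _ C).union (ball_finite _ C).inv).mul hS, fun g a s => ?_⟩
  have h1 : (U.w (g * U.π a)).length ≤ (U.w g).length + C := hC _ g _ fun i hi => by
    left
    have := h g a i
    rw [List.take_of_length_le hi, U.ev_w] at this
    exact this
  have h2 : (U.w g).length ≤ (U.w (g * U.π a)).length + C := hC _ (g * U.π a) _ fun i hi => by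
    right
    have := h g a i
    rw [List.take_of_length_le hi, U.ev_w] at this
    simpa [F] using this
  refine ⟨_, U.F_seg' g (i := (U.w g).length - s) (j := (U.w (g * U.π a)).length - s)
    (by omega) (by omega), _, h g a ((U.w (g * U.π a)).length - s), ?_⟩
  simp [B, F, mul_assoc]

theorem bft (f : G) : ∃ S : Set G, S.Finite ∧ ∀ g s, (U.B g s)⁻¹ * U.B (g * f) s ∈ S := by
  obtain ⟨S, hS, h⟩ := U.bft_letter
  rw [← U.ev_w f]
  induction U.w f with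
  | nil => exact ⟨{1}, Set.finite_singleton _, fun g s => by simp⟩
  | cons a u ih =>
    obtain ⟨S', hS', h'⟩ := ih
    refine ⟨S * S', hS.mul hS', fun g s => ⟨_, h g a s, _, h' (g * U.π a) s, ?_⟩⟩
    simp [mul_assoc]

theorem B_step (g : G) (s : ℕ) : (U.B g (s + 1))⁻¹ * U.B g s ∈ ball U.π 1 :=
  U.F_seg g (by omega) (by omega)

end UA
end Pool.Agent.MP_5bc3cb_al

end

section

namespace Pool.Agent.MP_5bc3cb_al
open Pointwise

namespace Geo
variable {G : Type} [Group G] (Γ : Geo G)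

/-- bounded in the tree -/
def TB (W : Set G) : Prop := ∃ F : Set G, F.Finite ∧ ∀ x ∈ W, ∃ f ∈ F, f⁻¹ * x ∈ Γ.H

variable {Γ}

theorem TB.mono {W W' : Set G} (h : Γ.TB W') (hW : W ⊆ W') : Γ.TB W := by
  obtain ⟨F, hF, h⟩ := h; exact ⟨F, hF, fun x hx => h x (hW hx)⟩

theorem TB.union {W W' : Set G} (h : Γ.TB W) (h' : Γ.TB W') : Γ.TB (W ∪ W') := by
  obtain ⟨F, hF, h⟩ := h
  obtain ⟨F', hF', h'⟩ := h'
  refine ⟨F ∪ F', hF.union hF', ?_⟩
  rintro x (hx | hx)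
  · obtain ⟨f, hf, e⟩ := h x hx; exact ⟨f, Or.inl hf, e⟩
  · obtain ⟨f, hf, e⟩ := h' x hx; exact ⟨f, Or.inr hf, e⟩

theorem TB_finite {W : Set G} (h : W.Finite) : Γ.TB W :=
  ⟨W, h, fun x hx => ⟨x, hx, by simp⟩⟩

theorem TB_H : Γ.TB Γ.H := ⟨{1}, Set.finite_singleton _, fun x hx => ⟨1, rfl, by simpa using hx⟩⟩

theorem TB.biUnion {ι : Type} {s : Set ι} (hs : s.Finite) {W : ι → Set G}
    (h : ∀ i ∈ s, Γ.TB (W i)) : Γ.TB (⋃ i ∈ s, W i) := by
  choose F hF h using h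
  refine ⟨⋃ i, ⋃ hi : i ∈ s, F i hi, hs.biUnion' hF, fun x hx => ?_⟩
  simp only [Set.mem_iUnion] at hx ⊢
  obtain ⟨i, hi, hx⟩ := hx
  obtain ⟨f, hf, e⟩ := h i hi x hx
  exact ⟨f, ⟨i, hi, hf⟩, e⟩

theorem TB.mul_t {W : Set G} (h : Γ.TB W) : Γ.TB ((· * Γ.t) '' W) := by
  obtain ⟨F, hF, h⟩ := h
  refine ⟨Set.image2 (fun f i => f * Γ.rA i * Γ.t) F Set.univ, hF.image2 _ Set.finite_univ, ?_⟩
  rintro _ ⟨x, hx, rfl⟩
  obtain ⟨f, hf, e⟩ := h x hx
  obtain ⟨i, hi⟩ := Γ.rA_cover _ e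
  refine ⟨_, ⟨f, hf, i, trivial, rfl⟩, ?_⟩
  simpa [mul_assoc] using Γ.B_le (Γ.A_t _ hi)

theorem TB.mul_inv_t {W : Set G} (h : Γ.TB W) : Γ.TB ((· * Γ.t⁻¹) '' W) := by
  obtain ⟨F, hF, h⟩ := h
  refine ⟨Set.image2 (fun f i => f * Γ.rB i * Γ.t⁻¹) F Set.univ, hF.image2 _ Set.finite_univ, ?_⟩
  rintro _ ⟨x, hx, rfl⟩
  obtain ⟨f, hf, e⟩ := h x hx
  obtain ⟨i, hi⟩ := Γ.rB_cover _ e
  refine ⟨_, ⟨f, hf, i, trivial, rfl⟩, ?_⟩
  simpa [mul_assoc] using Γ.A_le (Γ.B_t _ hi)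

theorem TB.mul_H {W : Set G} (h : Γ.TB W) : Γ.TB (W * (Γ.H : Set G)) := by
  obtain ⟨F, hF, h⟩ := h
  refine ⟨F, hF, ?_⟩
  rintro _ ⟨x, hx, y, hy, rfl⟩
  obtain ⟨f, hf, e⟩ := h x hx
  exact ⟨f, hf, by simpa [mul_assoc] using Γ.H.mul_mem e hy⟩

theorem TB.mul_elt {W : Set G} (h : Γ.TB W) (f : G) : Γ.TB ((· * f) '' W) := by
  induction f using Γ.rind with
  | one => simpa using h
  | mulH x y hy ih =>
    refine ih.mul_H.mono ?_
    rintro _ ⟨z, hz, rfl⟩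
    exact ⟨_, ⟨z, hz, rfl⟩, y, hy, by simp [mul_assoc]⟩
  | mult x ih => simpa only [Set.image_image, mul_assoc] using ih.mul_t
  | mulInv x ih => simpa only [Set.image_image, mul_assoc] using ih.mul_inv_t

theorem TB.mul {W W' : Set G} (h : Γ.TB W) (h' : Γ.TB W') : Γ.TB (W * W') := by
  obtain ⟨F', hF', h'⟩ := h'
  refine (TB.biUnion hF' fun f _ => h.mul_elt f).mul_H.mono ?_
  rintro _ ⟨x, hx, y, hy, rfl⟩
  obtain ⟨f, hf, e⟩ := h' y hy
  refine ⟨x * f, ?_, _, e, by simp [mul_assoc]⟩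
  simp only [Set.mem_iUnion]
  exact ⟨f, hf, x, hx, rfl⟩

theorem TB.inv {W : Set G} (h : Γ.TB W) : Γ.TB W⁻¹ := by
  obtain ⟨F, hF, h⟩ := h
  refine (TB_H.mul (TB_finite hF.inv)).mono fun x hx => ?_
  obtain ⟨f, hf, e⟩ := h _ hx
  exact ⟨_, Γ.H.inv_mem e, f⁻¹, by simpa using hf, by simp⟩

theorem TB_Pos (d : ℕ) : Γ.TB (Γ.Pos d) := by
  induction d with
  | zero => exact TB_finite (Set.finite_singleton _)
  | succ d ih =>
    refine ih.mul_t.mul_H.mono ?_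
    rintro _ ⟨x, hx, h, hh, rfl⟩
    exact ⟨_, ⟨x, hx, rfl⟩, h, hh, rfl⟩

variable (Γ) in
theorem cross_elt (s : G) : ∃ F : Set G, F.Finite ∧
    ∀ x, ¬ (x * s ∈ Γ.Hs ↔ x ∈ Γ.Hs) → ∃ f ∈ F, x * f ∈ Γ.A := by
  induction s using Γ.rind with
  | one => exact ⟨∅, Set.finite_empty, fun x hx => by simp at hx⟩
  | mulH s h hh ih =>
    obtain ⟨F, hF, ih⟩ := ih
    exact ⟨F, hF, fun x hx => ih x (by rwa [← mul_assoc, Γ.Hs_mul_H_iff hh] at hx)⟩
  | mult s ih =>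
    obtain ⟨F, hF, ih⟩ := ih
    refine ⟨insert s F, hF.insert s, fun x hx => ?_⟩
    by_cases h : x * s ∈ Γ.Hs ↔ x ∈ Γ.Hs
    · rw [← h, ← mul_assoc] at hx
      refine ⟨s, Set.mem_insert _ _, Γ.cross _ ?_ ?_⟩
      · exact fun h1 => hx ⟨fun _ => h1, fun _ => Γ.Hs_t _ h1⟩
      · by_contra h1
        exact hx ⟨fun h2 => (h1 h2).elim, fun h2 => Γ.Hs_t _ h2⟩
    · obtain ⟨f, hf, e⟩ := ih x h
      exact ⟨f, Set.mem_insert_of_mem _ hf, e⟩
  | mulInv s ih =>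
    obtain ⟨F, hF, ih⟩ := ih
    refine ⟨insert (s * Γ.t⁻¹) F, hF.insert _, fun x hx => ?_⟩
    by_cases h : x * s ∈ Γ.Hs ↔ x ∈ Γ.Hs
    · rw [← h, ← mul_assoc] at hx
      refine ⟨_, Set.mem_insert _ _, Γ.cross _ ?_ ?_⟩
      · rw [← mul_assoc]
        exact fun h1 => hx ⟨fun _ => Γ.of_mul_inv_t h1, fun _ => h1⟩
      · by_contra h1
        rw [← mul_assoc, inv_mul_cancel_right] at h1
        exact hx ⟨fun h2 => Γ.of_mul_inv_t h2, fun h2 => (h1 h2).elim⟩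
    · obtain ⟨f, hf, e⟩ := ih x h
      exact ⟨f, Set.mem_insert_of_mem _ hf, e⟩

variable (Γ) in
theorem cross_set {S : Set G} (hS : S.Finite) : ∃ F : Set G, F.Finite ∧
    ∀ s ∈ S, ∀ x, ¬ (x * s ∈ Γ.Hs ↔ x ∈ Γ.Hs) → ∃ f ∈ F, x * f ∈ Γ.A := by
  choose F hF h using Γ.cross_elt
  refine ⟨⋃ s ∈ S, F s, hS.biUnion fun s _ => hF s, fun s hs x hx => ?_⟩
  obtain ⟨f, hf, e⟩ := h s x hx
  exact ⟨f, Set.mem_biUnion hs hf, e⟩

variable (Γ) in
theorem cross_TB {S : Set G} (hS : S.Finite) (d : ℕ) : ∃ W, Γ.TB W ∧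
    ∀ g ∈ Γ.Dom d, ∀ y, ∀ κ ∈ S, g⁻¹ * y ∉ W → (y * κ ∈ Γ.Desc d g ↔ y ∈ Γ.Desc d g) := by
  obtain ⟨F, hF, h⟩ := Γ.cross_set hS
  refine ⟨(Γ.Pos d)⁻¹ * (Γ.H : Set G) * F⁻¹, ((TB_Pos d).inv.mul TB_H).mul (TB_finite hF.inv), ?_⟩
  rintro g ⟨γ, hγ⟩ y κ hκ hW
  by_contra hc
  rw [hγ.mem_Desc, hγ.mem_Desc, ← mul_assoc] at hc
  obtain ⟨f, hf, e⟩ := h κ hκ _ hc
  refine hW ⟨_, ⟨(γ⁻¹ * g)⁻¹, by simpa using hγ.2, _, Γ.A_le e, rfl⟩, f⁻¹, by simpa using hf, ?_⟩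
  simp [mul_assoc]

variable (Γ) in
theorem margin_elt (κ : G) : ∃ K, ∀ x ∈ Γ.Pos K, ∀ y ∈ Γ.Hs, x * y * κ ∈ Γ.Hs := by
  induction κ using Γ.rind with
  | one => exact ⟨0, fun x hx y hy => by simpa using Γ.Pos_mul_Hs hx hy⟩
  | mulH s h hh ih =>
    obtain ⟨K, ih⟩ := ih
    exact ⟨K, fun x hx y hy => by rw [← mul_assoc]; exact Γ.Hs_H _ (ih x hx y hy) _ hh⟩
  | mult s ih =>
    obtain ⟨K, ih⟩ := ih
    exact ⟨K, fun x hx y hy => by rw [← mul_assoc]; exact Γ.Hs_t _ (ih x hx y hy)⟩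
  | mulInv s ih =>
    obtain ⟨K, ih⟩ := ih
    refine ⟨1 + K, fun x hx y hy => ?_⟩
    obtain ⟨z, hz, h2⟩ := Γ.Pos_split hx
    have e : x * y * (s * Γ.t⁻¹) = z * (z⁻¹ * x * y * s * Γ.t⁻¹) := by group
    rw [e]
    by_cases h : z⁻¹ * x * y * s * Γ.t⁻¹ ∈ Γ.Hs
    · exact Γ.Pos_mul_Hs hz h
    · exact Γ.Hs_H _ (Γ.Pos_succ_Hs (k := 0) hz) _
        (Γ.A_le (Γ.cross _ h (by simpa using ih _ h2 y hy)))

variable (Γ) in
theorem margin {S : Set G} (hS : S.Finite) : ∃ K, ∀ l, ∀ g ∈ Γ.Dom (K + l), ∀ y ∈ Γ.Desc l g,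
    ∀ κ ∈ S, y * κ ∈ Γ.Desc (K + l) g := by
  choose K hK using Γ.margin_elt
  obtain ⟨M, hM⟩ := (hS.image K).bddAbove
  refine ⟨M, fun l g hg y hy κ hκ => ?_⟩
  have hle : K κ ≤ M := hM ⟨κ, hκ, rfl⟩
  refine Desc_mono (d := K κ + l) (by omega) hg ?_
  obtain ⟨γ, hγ⟩ := Dom_mono (d := K κ + l) (by omega) hg
  obtain ⟨z, hz, h2⟩ := hγ.split
  rw [hγ.mem_Desc]
  simpa [mul_assoc] using hK κ z hz _ (h2.mem_Desc.1 hy)

end Geo
end Pool.Agent.MP_5bc3cb_al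

end

section

namespace Pool.Agent.MP_5bc3cb_al
open Filter Pointwise

variable {G : Type} [Group G] {Γ : Geo G} (M : Mean Γ) (U : UA G)

theorem bft_shift (Γ : Geo G) : ∃ S : Set G, S.Finite ∧ ∀ g i s,
    (U.B g s)⁻¹ * U.B (g * Γ.t * Γ.rB i) s ∈ S := by
  choose S hS h using U.bft
  refine ⟨⋃ i, S (Γ.t * Γ.rB i), Set.finite_iUnion fun i => hS _, fun g i s => ?_⟩
  rw [mul_assoc g]
  exact Set.mem_iUnion.2 ⟨i, h _ g s⟩

/-- the backward path at time `s` branches off at depth `r + 1` and is far -/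
def Zs (Γ : Geo G) (s r : ℕ) (W : Set G) : Set G :=
  {g | g ∈ Γ.Dom (r + 1) ∧ U.B g s ∈ Γ.Desc (r + 1) g ∧ U.B g s ∉ Γ.Desc r g ∧
    g⁻¹ * U.B g s ∉ W}

theorem stepB1 (r : ℕ) {W' : Set G} (hW' : Γ.TB W') : ∃ W, Γ.TB W ∧ ∀ s,
    M.m (Zs U Γ s r W) ≤ M.m (Zs U Γ s (r + 1) W') := by
  obtain ⟨S, hS, h⟩ := bft_shift U Γ
  obtain ⟨W1, hW1, h1⟩ := Γ.cross_TB hS r
  obtain ⟨W2, hW2, h2⟩ := Γ.cross_TB hS (r + 1)
  refine ⟨W1 ∪ W2 ∪ (Set.range fun i => Γ.t * Γ.rB i) * W' * S⁻¹,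
    (hW1.union hW2).union (((Geo.TB_finite (Set.finite_range _)).mul hW').mul
      (Geo.TB_finite hS.inv)), fun s => ?_⟩
  refine M.shift_le (fun g hg => Geo.Dom_sub_CA hg.1) ?_
  rintro g ⟨hd, e1, e2, e3⟩ i
  simp only [Set.mem_union, not_or] at e3
  have hd' := Geo.Dom_mono (Nat.le_succ r) hd
  have k1 := h1 g hd' _ _ (h g i s) e3.1.1
  have k2 := h2 g hd _ _ (h g i s) e3.1.2
  rw [mul_inv_cancel_left] at k1 k2
  refine ⟨Geo.Dom_shift hd (Γ.rB_mem i), (Geo.Desc_shift hd (Γ.rB_mem i)).2 (k2.2 e1),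
    fun h' => e2 (k1.1 ((Geo.Desc_shift hd' (Γ.rB_mem i)).1 h')), fun h' => e3.2 ?_⟩
  exact ⟨_, ⟨_, ⟨i, rfl⟩, _, h', rfl⟩, _, Set.inv_mem_inv.2 (h g i s), by simp [mul_assoc]⟩

theorem stepB2 (j r : ℕ) : ∃ W, Γ.TB W ∧ ∀ s,
    M.m (Zs U Γ s r W) ≤ M.m (Zs U Γ s (r + j) ∅) := by
  induction j generalizing r with
  | zero => exact ⟨∅, Geo.TB_finite Set.finite_empty, fun s => le_rfl⟩
  | succ j ih =>
    obtain ⟨W', hW', h'⟩ := ih (r + 1)
    obtain ⟨W, hW, h⟩ := stepB1 M U r hW'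
    refine ⟨W, hW, fun s => (h s).trans ?_⟩
    rw [show r + (j + 1) = r + 1 + j by ring]
    exact h' s

theorem exists_nat_small {η : ℝ} (hη : 0 < η) : ∃ J : ℕ, ∀ x : ℝ, J * x ≤ 1 → x ≤ η := by
  obtain ⟨J, hJ⟩ := exists_nat_gt (1 / η)
  rw [div_lt_iff₀ hη] at hJ
  refine ⟨J, fun x hx => ?_⟩
  by_contra h
  push Not at h
  have : (J : ℝ) * η ≤ J * x := mul_le_mul_of_nonneg_left h.le (Nat.cast_nonneg J)
  linarith

theorem stepB3 (r : ℕ) {η : ℝ} (hη : 0 < η) : ∃ W, Γ.TB W ∧ ∀ s, M.m (Zs U Γ s r W) ≤ η := by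
  obtain ⟨J, hJ⟩ := exists_nat_small hη
  choose W hW h using fun j => stepB2 M U j r
  refine ⟨⋃ j ∈ Set.Iio J, W j, Geo.TB.biUnion (Set.finite_Iio J) fun j _ => hW j, fun s => ?_⟩
  refine hJ _ (M.wander J (fun j => Zs U Γ s (r + j) ∅) _ (fun j hj => ?_) ?_)
  · refine (M.mono ?_).trans (h j s)
    rintro g ⟨e1, e2, e3, e4⟩
    exact ⟨e1, e2, e3, fun h' => e4 (Set.mem_biUnion (Set.mem_Iio.2 hj) h')⟩
  · rintro i j hij - g ⟨-, e1, -⟩ ⟨e2, -, e3, -⟩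
    exact e3 (Geo.Desc_mono (by omega) (Geo.Dom_mono (Nat.le_succ _) e2) e1)

/-- the backward path at time `s` is below depth `L` and far -/
def Far (Γ : Geo G) (s L : ℕ) (W : Set G) : Set G :=
  {g | g ∈ Γ.Dom L ∧ U.B g s ∈ Γ.Desc L g ∧ g⁻¹ * U.B g s ∉ W}

theorem stepB0 {η : ℝ} (hη : 0 < η) : ∃ W, Γ.TB W ∧ ∀ s, M.m (Far U Γ s 0 W) ≤ η := by
  obtain ⟨W', hW', h'⟩ := stepB3 M U 0 hη
  obtain ⟨S, hS, h⟩ := U.bft Γ.c0
  obtain ⟨W1, hW1, h1⟩ := Γ.cross_TB hS 0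
  refine ⟨W1 ∪ {Γ.c0} * W' * S⁻¹, hW1.union (((Geo.TB_finite (Set.finite_singleton _)).mul
    hW').mul (Geo.TB_finite hS.inv)), fun s => ?_⟩
  refine le_trans ?_ (h' s)
  refine (M.mono_ae (E' := Far U Γ s 0 (W1 ∪ {Γ.c0} * W' * S⁻¹) ∩ Γ.Dom 1)
    ((M.ae_Dom 1).mono fun g hg h => ⟨h, hg⟩)).trans (M.H_le Γ.c0_mem ?_)
  rintro g ⟨⟨hd, e1, e3⟩, hd1⟩ hg
  simp only [Set.mem_union, not_or] at e3
  have k1 := (h1 g hd _ _ (h g s) e3.1).2 e1
  rw [mul_inv_cancel_left] at k1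
  refine ⟨Geo.Dom_mul_H hd1 Γ.c0_mem, (Geo.Desc_mul_H hd1 Γ.c0_mem).2
    (Geo.Desc_mono (Nat.zero_le 1) hd1 k1), fun h2 => ?_, fun h2 => e3.2 ?_⟩
  · rw [(Geo.Anc_zero hg).mem_Desc] at k1
    rw [(Geo.Anc_zero (Geo.CA_mul_H hg Γ.c0_mem)).mem_Desc] at h2
    exact Γ.c0_not (Γ.sep Γ.c0_mem k1 (by simpa [mul_assoc] using h2))
  · exact ⟨_, ⟨_, rfl, _, h2, rfl⟩, _, Set.inv_mem_inv.2 (h g s), by simp [mul_assoc]⟩

theorem far_small (L : ℕ) {η : ℝ} (hη : 0 < η) :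
    ∃ W, Γ.TB W ∧ ∀ s, M.m (Far U Γ s L W) ≤ η := by
  induction L generalizing η with
  | zero => exact stepB0 M U hη
  | succ L ih =>
    obtain ⟨W1, hW1, h1⟩ := ih (half_pos hη)
    obtain ⟨W2, hW2, h2⟩ := stepB3 M U L (half_pos hη)
    refine ⟨W1 ∪ W2, hW1.union hW2, fun s => ?_⟩
    refine (M.union_le (E1 := Far U Γ s L W1) (E2 := Zs U Γ s L W2) ?_).trans
      (by linarith [h1 s, h2 s])
    rintro g ⟨e1, e2, e3⟩
    simp only [Set.mem_union, not_or] at e3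
    by_cases h : U.B g s ∈ Γ.Desc L g
    · exact Or.inl ⟨Geo.Dom_mono (Nat.le_succ L) e1, h, e3.1⟩
    · exact Or.inr ⟨e1, e2, h, e3.2⟩

/-- planar displacement between two backward times is near `z` -/
def Ys (Γ : Geo G) (s1 s2 : ℕ) (z : ℂ) (c : ℝ) : Set G :=
  {g | g ∈ Γ.CA ∧ ‖Γ.p (g⁻¹ * U.B g s1) - Γ.p (g⁻¹ * U.B g s2) - z‖ ≤ c}

theorem stepA1 : ∃ c0 : ℝ, 0 ≤ c0 ∧ ∀ s1 s2 z c,
    M.m (Ys U Γ s1 s2 z c) ≤ M.m (Ys U Γ s1 s2 (Γ.lam⁻¹ * z) (c + c0)) := by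
  obtain ⟨S, hS, h⟩ := bft_shift U Γ
  obtain ⟨C, hC⟩ := (hS.image fun x => ‖Γ.p x‖).bddAbove
  have hC' : ∀ x ∈ S, ‖Γ.p x‖ ≤ max C 0 := fun x hx => (hC ⟨x, hx, rfl⟩).trans (le_max_left _ _)
  refine ⟨2 * max C 0, by positivity, fun s1 s2 z c => M.shift_le (fun g hg => hg.1) ?_⟩
  rintro g ⟨hg, e⟩ i
  refine ⟨Geo.CA_shift hg (Γ.rB_mem i), ?_⟩
  have key : ∀ s, Γ.p ((g * Γ.t * Γ.rB i)⁻¹ * U.B (g * Γ.t * Γ.rB i) s) =
      Γ.p (Γ.t * Γ.rB i)⁻¹ + Γ.lam⁻¹ * (Γ.p (g⁻¹ * U.B g s) + Γ.lam ^ Γ.n (g⁻¹ * U.B g s) *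
        Γ.p ((U.B g s)⁻¹ * U.B (g * Γ.t * Γ.rB i) s)) := fun s => by
    have : (g * Γ.t * Γ.rB i)⁻¹ * U.B (g * Γ.t * Γ.rB i) s = (Γ.t * Γ.rB i)⁻¹ *
        ((g⁻¹ * U.B g s) * ((U.B g s)⁻¹ * U.B (g * Γ.t * Γ.rB i) s)) := by group
    rw [this, Γ.p_mul, Γ.p_mul (g⁻¹ * U.B g s), Γ.n_inv, Γ.n_mul, Γ.n_t, Γ.n_H _ (Γ.rB_mem i)]
    simp
  rw [key, key]
  set a1 := Γ.lam ^ Γ.n (g⁻¹ * U.B g s1) * Γ.p ((U.B g s1)⁻¹ * U.B (g * Γ.t * Γ.rB i) s1)
  set a2 := Γ.lam ^ Γ.n (g⁻¹ * U.B g s2) * Γ.p ((U.B g s2)⁻¹ * U.B (g * Γ.t * Γ.rB i) s2)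
  have h1 : ‖a1‖ ≤ max C 0 := by
    simp only [a1, norm_mul, Γ.norm_zpow_lam, one_mul]; exact hC' _ (h g i s1)
  have h2 : ‖a2‖ ≤ max C 0 := by
    simp only [a2, norm_mul, Γ.norm_zpow_lam, one_mul]; exact hC' _ (h g i s2)
  have : Γ.p (Γ.t * Γ.rB i)⁻¹ + Γ.lam⁻¹ * (Γ.p (g⁻¹ * U.B g s1) + a1) -
      (Γ.p (Γ.t * Γ.rB i)⁻¹ + Γ.lam⁻¹ * (Γ.p (g⁻¹ * U.B g s2) + a2)) - Γ.lam⁻¹ * z =
      Γ.lam⁻¹ * ((Γ.p (g⁻¹ * U.B g s1) - Γ.p (g⁻¹ * U.B g s2) - z) + (a1 - a2)) := by ring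
  rw [this, norm_mul, norm_inv, Γ.lam_norm, inv_one, one_mul]
  refine (norm_add_le _ _).trans ?_
  linarith [norm_sub_le a1 a2]

theorem exists_gap (Γ : Geo G) (J : ℕ) :
    ∃ δ : ℝ, 0 < δ ∧ ∀ k, 0 < k → k < J → δ ≤ ‖1 - Γ.lam⁻¹ ^ k‖ := by
  induction J with
  | zero => exact ⟨1, one_pos, fun k _ h => absurd h (Nat.not_lt_zero k)⟩
  | succ J ih =>
    obtain ⟨δ, hδ, h⟩ := ih
    rcases Nat.eq_zero_or_pos J with rfl | hJ
    · exact ⟨1, one_pos, fun k h1 h2 => by omega⟩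
    have : 0 < ‖1 - Γ.lam⁻¹ ^ J‖ := norm_pos_iff.2 (sub_ne_zero.2 fun h' => by
      rw [inv_pow, eq_comm, inv_eq_one] at h'
      exact Γ.lam_ne J hJ h')
    refine ⟨min δ _, lt_min hδ this, fun k h1 h2 => ?_⟩
    rcases Nat.lt_succ_iff_lt_or_eq.1 h2 with h3 | rfl
    · exact (min_le_left _ _).trans (h k h1 h3)
    · exact min_le_right _ _

theorem stepA {η : ℝ} (hη : 0 < η) : ∃ ρ : ℝ, ∀ z, ρ ≤ ‖z‖ → ∀ s1 s2,
    M.m (Ys U Γ s1 s2 z 0) ≤ η := by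
  obtain ⟨J, hJ⟩ := exists_nat_small hη
  obtain ⟨c0, hc0, h⟩ := stepA1 M U
  obtain ⟨δ, hδ, hgap⟩ := exists_gap Γ J
  refine ⟨(2 * (J * c0) + 1) / δ, fun z hz s1 s2 => ?_⟩
  rw [div_le_iff₀ hδ] at hz
  refine hJ _ (M.wander J (fun j => Ys U Γ s1 s2 (Γ.lam⁻¹ ^ j * z) (J * c0)) _
    (fun j hj => ?_) ?_)
  · have : ∀ j : ℕ, M.m (Ys U Γ s1 s2 z 0) ≤ M.m (Ys U Γ s1 s2 (Γ.lam⁻¹ ^ j * z) (j * c0)) := by
      intro j
      induction j with
      | zero => simp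
      | succ j ih =>
        refine ih.trans ((h _ _ _ _).trans_eq ?_)
        rw [pow_succ', mul_assoc]; push_cast; rw [add_mul, one_mul]
    refine (this j).trans (M.mono fun g hg => ⟨hg.1, hg.2.trans ?_⟩)
    exact mul_le_mul_of_nonneg_right (by exact_mod_cast hj.le) hc0
  · rintro i j hij hj g ⟨-, e1⟩ ⟨-, e2⟩
    obtain ⟨k, rfl⟩ := Nat.exists_eq_add_of_le hij.le
    have h1 := hgap k (by omega) (by omega)
    set x := Γ.p (g⁻¹ * U.B g s1) - Γ.p (g⁻¹ * U.B g s2)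
    have h2 : (x - Γ.lam⁻¹ ^ (i + k) * z) - (x - Γ.lam⁻¹ ^ i * z) =
        Γ.lam⁻¹ ^ i * ((1 - Γ.lam⁻¹ ^ k) * z) := by ring
    have h3 := norm_sub_le (x - Γ.lam⁻¹ ^ (i + k) * z) (x - Γ.lam⁻¹ ^ i * z)
    rw [h2, norm_mul, norm_mul, norm_pow, norm_inv, Γ.lam_norm, inv_one, one_pow, one_mul] at h3
    have h4 := mul_le_mul_of_nonneg_right h1 (norm_nonneg z)
    linarith

end Pool.Agent.MP_5bc3cb_al

end

section

namespace Pool.Agent.MP_5bc3cb_al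
open Filter Pointwise

variable {G : Type} [Group G] {Γ : Geo G} (M : Mean Γ) (U : UA G)

/-- powers of a word -/
def rep {α : Type} (τ : List α) : ℕ → List α
  | 0 => []
  | k + 1 => τ ++ rep τ k

/-- a loop at the state `q` representing an element of `H` -/
def Loop (Γ : Geo G) (q : Set (List U.α)) (τ : List U.α) : Prop :=
  quot q τ = q ∧ ev U.π τ ∈ Γ.H

/-- live state -/
def Live (q : Set (List U.α)) : Prop := ∃ u σ, q = quot U.L u ∧ σ ∈ q

variable {U}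

theorem Loop.append {q : Set (List U.α)} {τ τ' : List U.α} (h : Loop U Γ q τ)
    (h' : Loop U Γ q τ') : Loop U Γ q (τ ++ τ') :=
  ⟨by rw [quot_append, h.1, h'.1], by rw [ev_append]; exact Γ.H.mul_mem h.2 h'.2⟩

theorem Loop.rep {q : Set (List U.α)} {τ : List U.α} (h : Loop U Γ q τ) (k : ℕ) :
    Loop U Γ q (rep τ k) := by
  induction k with
  | zero => exact ⟨by ext σ; simp [quot, MP_5bc3cb_al.rep], by simp [MP_5bc3cb_al.rep]⟩
  | succ k ih => exact h.append ih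

theorem Loop.eq_of_ev {q : Set (List U.α)} (hq : Live U q) {τ τ' : List U.α} (h : Loop U Γ q τ)
    (h' : Loop U Γ q τ') (he : ev U.π τ = ev U.π τ') : τ = τ' := by
  obtain ⟨u, σ, rfl, hσ⟩ := hq
  have h1 : u ++ (τ ++ σ) ∈ U.L := by rw [← h.1] at hσ; exact hσ
  have h2 : u ++ (τ' ++ σ) ∈ U.L := by rw [← h'.1] at hσ; exact hσ
  simpa using U.inj h1 h2 (by simp [he])

theorem p_rep {τ : List U.α} (h : ev U.π τ ∈ Γ.H) (k : ℕ) :
    Γ.p (ev U.π (rep τ k)) = k * Γ.p (ev U.π τ) := by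
  induction k with
  | zero => simp [rep, Γ.p_one]
  | succ k ih => rw [rep, ev_append, Γ.p_mul, Γ.n_H _ h, ih]; push_cast; simp; ring

variable (U) in
theorem exists_window (Γ : Geo G) (ρ : ℝ) (q : Set (List U.α)) : ∃ υ : List U.α, Live U q →
    ∀ τ, Loop U Γ q τ → τ ≠ [] → υ.length ≤ τ.length →
      υ <+: τ ∧ ρ ≤ ‖Γ.p (ev U.π υ)‖ := by
  by_cases hex : Live U q ∧ ∃ τ0, Loop U Γ q τ0 ∧ τ0 ≠ []
  · obtain ⟨hq, τ0, h0, hne⟩ := hex
    have hp : 0 < ‖Γ.p (ev U.π τ0)‖ := norm_pos_iff.2 fun h =>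
      hne (Loop.eq_of_ev hq h0 (h0.rep 0) (Γ.p_inj _ h0.2 h))
    obtain ⟨k, hk⟩ := exists_nat_gt (ρ / ‖Γ.p (ev U.π τ0)‖)
    rw [div_lt_iff₀ hp] at hk
    refine ⟨rep τ0 k, fun _ τ hτ _ hl => ⟨?_, ?_⟩⟩
    · have e := Loop.eq_of_ev hq (hτ.append (h0.rep k)) ((h0.rep k).append hτ) (by
        rw [ev_append, ev_append]; exact Γ.comm _ hτ.2 _ (h0.rep k).2)
      exact List.prefix_of_prefix_length_le (List.prefix_append _ τ)
        (e ▸ List.prefix_append τ _) hl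
    · rw [p_rep h0.2, norm_mul, Complex.norm_natCast]; exact hk.le
  · exact ⟨[], fun hq τ hτ hne _ => absurd ⟨hq, τ, hτ, hne⟩ hex⟩

variable (U)

theorem tight (L : ℕ) {δ : ℝ} (hδ : 0 < δ) : ∃ T : ℕ,
    M.m {g | g ∈ Γ.Dom L ∧ ∀ s ≤ T, U.B g s ∈ Γ.Desc L g} ≤ δ := by
  classical
  obtain ⟨W, ⟨F, hF, hW⟩, hfar⟩ := far_small M U L (η := δ / 4) (by positivity)
  let C := hF.toFinset ×ˢ U.finQ.toFinset
  obtain ⟨ρ, hρ⟩ := stepA M U (η := δ / 4 / (C.card + 1)) (by positivity)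
  choose υ hυ using exists_window U Γ ρ
  let Wn := (U.finQ.toFinset.sup fun q => (υ q).length) + 1
  let Y : ℕ → G × Set (List U.α) → Set G := fun s c => {g | ρ ≤ ‖Γ.p (ev U.π (υ c.2))‖ ∧
    g ∈ Ys U Γ (s - (υ c.2).length) s (Γ.lam ^ Γ.n c.1 * Γ.p (ev U.π (υ c.2))) 0}
  have hY : ∀ s c, M.m (Y s c) ≤ δ / 4 / (C.card + 1) := fun s c => by
    by_cases h : ρ ≤ ‖Γ.p (ev U.π (υ c.2))‖
    · refine (M.mono fun g hg => hg.2).trans (hρ _ ?_ _ _)
      rwa [norm_mul, Γ.norm_zpow_lam, one_mul]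
    · refine (M.mono (E' := ∅) fun g hg => h hg.1).trans ?_
      rw [M.m_empty]; positivity
  let Bad : ℕ → Set G := fun s => {g | g ∈ Far U Γ s L W ∨ ∃ c ∈ C, g ∈ Y s c}
  have hBad : ∀ s, M.m (Bad s) ≤ δ / 2 := fun s => by
    have h1 := M.union_le (E := Bad s) (E1 := Far U Γ s L W) (E2 := {g | ∃ c ∈ C, g ∈ Y s c})
      fun g hg => hg
    have h2 := M.cover_le C {g | ∃ c ∈ C, g ∈ Y s c} (Y s) fun g hg => hg
    have h3 := Finset.sum_le_sum fun c (_ : c ∈ C) => hY s c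
    simp only [Finset.sum_const, nsmul_eq_mul] at h3
    have h4 : (C.card : ℝ) * (δ / 4 / (C.card + 1)) ≤ δ / 4 := by
      rw [mul_div_assoc', div_le_iff₀ (by positivity)]; nlinarith
    linarith [hfar s]
  refine ⟨2 * (C.card * Wn), ?_⟩
  set N := C.card * Wn with hN
  have key := M.count_le (Finset.range (2 * N + 1))
    {g | g ∈ Γ.Dom L ∧ ∀ s ≤ 2 * N, U.B g s ∈ Γ.Desc L g} Bad (N + 1) ?_
  · have h3 := Finset.sum_le_sum fun s (_ : s ∈ Finset.range (2 * N + 1)) => hBad s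
    simp only [Finset.sum_const, nsmul_eq_mul, Finset.card_range] at h3
    push_cast at h3
    have hN0 : (0 : ℝ) ≤ N := Nat.cast_nonneg N
    by_contra hc
    push Not at hc
    nlinarith
  rintro g ⟨hg, hB⟩
  have hf : ∀ s, ∃ f, g⁻¹ * U.B g s ∈ W → f ∈ F ∧ f⁻¹ * (g⁻¹ * U.B g s) ∈ Γ.H := fun s => by
    by_cases h : g⁻¹ * U.B g s ∈ W
    · obtain ⟨f, h1, h2⟩ := hW _ h
      exact ⟨f, fun _ => ⟨h1, h2⟩⟩
    · exact ⟨1, fun h' => absurd h' h⟩
  choose f hf using hf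
  have hnear : ∀ s ≤ 2 * N, g ∉ Bad s → g⁻¹ * U.B g s ∈ W := fun s hs h => by
    by_contra h'
    exact h (Or.inl ⟨hg, hB s hs, h'⟩)
  let cls : ℕ → G × Set (List U.α) := fun s =>
    (f s, quot U.L ((U.w g).take ((U.w g).length - s)))
  have hcls : ∀ s ≤ 2 * N, g ∉ Bad s → cls s ∈ C := fun s hs h => by
    simp only [C, cls, Finset.mem_product, Set.Finite.mem_toFinset]
    exact ⟨(hf s (hnear s hs h)).1, _, rfl⟩
  have hgood : ∀ s s', s + Wn ≤ s' → s' ≤ 2 * N → g ∉ Bad s → g ∉ Bad s' → cls s = cls s' →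
      False := by
    intro s s' hss hs' hb hb' he
    have hlen : s' < (U.w g).length := by
      by_contra h
      have := hB s' hs'
      rw [U.B_of_le (not_lt.1 h)] at this
      exact Geo.one_not_Desc _ _ this
    simp only [cls, Prod.mk.injEq] at he
    set i := (U.w g).length - s' with hi
    set q := quot U.L ((U.w g).take i) with hq
    set τ := ((U.w g).drop i).take (s' - s) with hτ
    have htake : (U.w g).take ((U.w g).length - s) = (U.w g).take i ++ τ := by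
      rw [hτ, ← List.take_add]; congr 1; omega
    have hτlen : τ.length = s' - s := by
      simp only [hτ, List.length_take, List.length_drop]; omega
    have hBs : U.B g s = U.B g s' * ev U.π τ := by
      simp only [UA.B, UA.F]; rw [htake, ev_append]
    have h1 := (hf s (hnear s (by omega) hb)).2
    have h2 := (hf s' (hnear s' hs' hb')).2
    have hloop : Loop U Γ q τ := by
      refine ⟨by rw [hq, ← quot_append, ← htake, he.2], ?_⟩
      rw [hBs, he.1, ← mul_assoc, ← mul_assoc, mul_assoc _ g⁻¹] at h1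
      exact (Γ.H.mul_mem_cancel_left h2).1 h1
    have hlive : Live U q := ⟨_, (U.w g).drop i, rfl, by simpa [hq, quot] using U.w_mem g⟩
    have hle : (υ q).length < Wn := Nat.lt_succ_of_le (Finset.le_sup
      (f := fun q => (υ q).length) (U.finQ.mem_toFinset.2 ⟨_, rfl⟩))
    obtain ⟨⟨r, hr⟩, hρ'⟩ := hυ q hlive τ hloop
      (by intro h; rw [h] at hτlen; simp at hτlen; omega) (by omega)
    have hBυ : U.B g (s' - (υ q).length) = U.B g s' * ev U.π (υ q) := by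
      simp only [UA.B, UA.F]
      rw [← ev_append, show (U.w g).length - (s' - (υ q).length) = i + (υ q).length by omega,
        List.take_add]
      congr 2
      have : ((U.w g).drop i).take (υ q).length = τ.take (υ q).length := by
        rw [hτ, List.take_take, min_eq_left (by omega)]
      rw [this, ← hr, List.take_left']
      rfl
    refine hb' (Or.inr ⟨cls s', hcls s' hs' hb', hρ', Geo.Dom_sub_CA hg, ?_⟩)
    have hn : Γ.n (g⁻¹ * U.B g s') = Γ.n (f s') := by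
      have := Γ.n_H _ h2
      rw [Γ.n_mul, Γ.n_inv] at this; omega
    change ‖Γ.p (g⁻¹ * U.B g (s' - (υ q).length)) - Γ.p (g⁻¹ * U.B g s') -
      Γ.lam ^ Γ.n (f s') * Γ.p (ev U.π (υ q))‖ ≤ 0
    rw [hBυ, ← mul_assoc, Γ.p_mul, hn]; simp
  have hcard : ((Finset.range (2 * N + 1)).filter fun s => g ∉ Bad s).card ≤
      (C ×ˢ Finset.range Wn).card := by
    refine Finset.card_le_card_of_injOn (fun s => (cls s, s % Wn)) (fun s hs => ?_) ?_
    · simp only [Finset.coe_filter, Finset.mem_range, Set.mem_ofPred_eq] at hs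
      simp only [Finset.coe_product, Set.mem_prod, Finset.mem_coe, Finset.mem_range]
      exact ⟨hcls s (by omega) hs.2, Nat.mod_lt _ (Nat.succ_pos _)⟩
    · intro s hs s' hs' he
      simp only [Finset.coe_filter, Finset.mem_range, Set.mem_ofPred_eq] at hs hs'
      simp only [Prod.mk.injEq] at he
      by_contra hne
      rcases lt_or_gt_of_ne hne with hlt | hlt
      · have := Nat.le_of_dvd (by omega) ((Nat.modEq_iff_dvd' hlt.le).1 he.2)
        exact hgood s s' (by omega) (by omega) hs.2 hs'.2 he.1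
      · have := Nat.le_of_dvd (by omega) ((Nat.modEq_iff_dvd' hlt.le).1 he.2.symm)
        exact hgood s' s (by omega) (by omega) hs'.2 hs.2 he.1.symm
  rw [Finset.card_product, Finset.card_range, ← hN] at hcard
  have h1 := Finset.card_filter_add_card_filter_not (s := Finset.range (2 * N + 1))
    (fun s => g ∈ Bad s)
  rw [Finset.card_range] at h1
  have h2 : ∑ s ∈ Finset.range (2 * N + 1), chi (Bad s) g =
      ((Finset.range (2 * N + 1)).filter fun s => g ∈ Bad s).card := by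
    rw [Finset.card_filter]; push_cast
    refine Finset.sum_congr rfl fun s _ => ?_
    split_ifs with h
    · exact chi_of_mem h
    · exact chi_of_not h
  rw [h2]
  exact_mod_cast (by omega)

end Pool.Agent.MP_5bc3cb_al

end

section

namespace Pool.Agent.MP_5bc3cb_al
open Filter Pointwise

variable {G : Type} [Group G] (Γ : Geo G) (U : UA G)

theorem exists_exit (l : ℕ) (g : G) : ∃ s, U.B g s ∉ Γ.Desc l g :=
  ⟨(U.w g).length, by rw [U.B_of_le le_rfl]; exact Geo.one_not_Desc _ _⟩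

open Classical in
/-- backward exit time -/
noncomputable def Tm (l : ℕ) (g : G) : ℕ := Nat.find (exists_exit Γ U l g)

/-- part of the normal form before the cut -/
noncomputable def pre (l : ℕ) (g : G) : List U.α := (U.w g).take ((U.w g).length - Tm Γ U l g)

/-- part of the normal form after the cut -/
noncomputable def sfx (l : ℕ) (g : G) : List U.α := (U.w g).drop ((U.w g).length - Tm Γ U l g)

/-- relative position of the edge -/
def edge (l : ℕ) (g : G) : Set G := {x | Γ.Anc l (ev U.π (pre Γ U l g) * x) g}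

/-- state at the cut -/
noncomputable def St (l : ℕ) (g : G) : Set (List U.α) × Set G :=
  (quot U.L (pre Γ U l g), edge Γ U l g)

variable {Γ U}

theorem Tm_spec (l : ℕ) (g : G) : U.B g (Tm Γ U l g) ∉ Γ.Desc l g := by
  classical exact Nat.find_spec (exists_exit Γ U l g)

theorem Tm_min {l : ℕ} {g : G} {s : ℕ} (h : s < Tm Γ U l g) : U.B g s ∈ Γ.Desc l g := by
  classical exact not_not.1 (Nat.find_min (exists_exit Γ U l g) h)

theorem Tm_le {l : ℕ} {g : G} {s : ℕ} (h : U.B g s ∉ Γ.Desc l g) : Tm Γ U l g ≤ s := by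
  classical exact Nat.find_min' (exists_exit Γ U l g) h

theorem Tm_le_len (l : ℕ) (g : G) : Tm Γ U l g ≤ (U.w g).length :=
  Tm_le (by rw [U.B_of_le le_rfl]; exact Geo.one_not_Desc _ _)

theorem pre_suf (l : ℕ) (g : G) : pre Γ U l g ++ sfx Γ U l g = U.w g := List.take_append_drop _ _

theorem ev_pre (l : ℕ) (g : G) : ev U.π (pre Γ U l g) = U.B g (Tm Γ U l g) := rfl

theorem ev_pre_suf (l : ℕ) (g : G) : ev U.π (pre Γ U l g) * ev U.π (sfx Γ U l g) = g := by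
  rw [← ev_append, pre_suf, U.ev_w]

theorem suf_length (l : ℕ) (g : G) : (sfx Γ U l g).length = Tm Γ U l g := by
  have := Tm_le_len (Γ := Γ) (U := U) l g
  simp only [sfx, List.length_drop]; omega

theorem pre_length (l : ℕ) (g : G) :
    (pre Γ U l g).length = (U.w g).length - Tm Γ U l g := by
  simp [pre]

theorem B_of_split {g : G} {u σ : List U.α} (h : U.w g = u ++ σ) :
    U.B g σ.length = ev U.π u := by
  simp [UA.B, UA.F, h]

theorem suf_inside {l : ℕ} {g : G} {σ1 σ2 : List U.α} (h : sfx Γ U l g = σ1 ++ σ2)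
    (hne : σ1 ≠ []) : ev U.π (pre Γ U l g) * ev U.π σ1 ∈ Γ.Desc l g := by
  rw [← ev_append, ← B_of_split (σ := σ2) (by rw [List.append_assoc, ← h, pre_suf])]
  refine Tm_min ?_
  have := List.length_pos_iff.2 hne
  rw [← suf_length, h, List.length_append]; omega

theorem cut_char {l : ℕ} {g : G} {u σ : List U.α} (h : U.w g = u ++ σ)
    (h1 : ev U.π u ∉ Γ.Desc l g)
    (h2 : ∀ σ1 σ2, σ = σ1 ++ σ2 → σ1 ≠ [] → ev U.π u * ev U.π σ1 ∈ Γ.Desc l g) :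
    pre Γ U l g = u ∧ sfx Γ U l g = σ := by
  have hT : Tm Γ U l g = σ.length := by
    refine le_antisymm (Tm_le (by rwa [B_of_split h])) ?_
    by_contra hlt
    push Not at hlt
    have e := h2 (σ.take (σ.length - Tm Γ U l g)) (σ.drop (σ.length - Tm Γ U l g))
      (List.take_append_drop _ _).symm
      (by rw [← List.length_pos_iff, List.length_take]; omega)
    rw [← ev_append, ← B_of_split (σ := σ.drop (σ.length - Tm Γ U l g))
      (by rw [List.append_assoc, List.take_append_drop, h]), List.length_drop,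
      show σ.length - (σ.length - Tm Γ U l g) = Tm Γ U l g by omega] at e
    exact Tm_spec l g e
  simp [pre, sfx, hT, h]

theorem Tm_mono {l l' : ℕ} (hl : l ≤ l') {g : G} (hg : g ∈ Γ.Dom l') :
    Tm Γ U l g ≤ Tm Γ U l' g :=
  Tm_le fun h => Tm_spec l' g (Geo.Desc_mono hl hg h)

theorem exists_step {l l' : ℕ} (hl : l ≤ l') {g : G} (hg : g ∈ Γ.Dom l') :
    ∃ τ, pre Γ U l g = pre Γ U l' g ++ τ ∧ sfx Γ U l' g = τ ++ sfx Γ U l g := by
  have h1 : pre Γ U l' g <+: pre Γ U l g :=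
    List.take_prefix_take_left (by have := Tm_mono (U := U) hl hg; omega)
  obtain ⟨τ, hτ⟩ := h1
  refine ⟨τ, hτ.symm, ?_⟩
  have := pre_suf (Γ := Γ) (U := U) l g
  rw [← hτ, ← pre_suf (Γ := Γ) l' g, List.append_assoc] at this
  exact (List.append_cancel_left this).symm

section cp
variable {l1 l2 : ℕ} {g1 g2 : G} (hS : St Γ U l1 g1 = St Γ U l2 g2)
include hS

theorem cp_w : U.w (ev U.π (pre Γ U l1 g1) * ev U.π (sfx Γ U l2 g2)) =
    pre Γ U l1 g1 ++ sfx Γ U l2 g2 := by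
  have h1 : sfx Γ U l2 g2 ∈ quot U.L (pre Γ U l2 g2) := by
    simp only [quot, Set.mem_ofPred_eq, pre_suf]; exact U.w_mem _
  rw [← show quot U.L (pre Γ U l1 g1) = quot U.L (pre Γ U l2 g2) from congrArg Prod.fst hS] at h1
  exact U.w_eq_of_mem h1 (ev_append _ _ _)

theorem cp_anc0 {γ : G} (h : Γ.Anc l1 γ g1) :
    Γ.Anc l2 (ev U.π (pre Γ U l2 g2) * ((ev U.π (pre Γ U l1 g1))⁻¹ * γ)) g2 := by
  have h1 : (ev U.π (pre Γ U l1 g1))⁻¹ * γ ∈ edge Γ U l1 g1 := by simpa [edge] using h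
  rw [show edge Γ U l1 g1 = edge Γ U l2 g2 from congrArg Prod.snd hS] at h1
  exact h1

theorem cp_anc {j : ℕ} {γ : G} (h : Γ.Anc (j + l1) γ g1) :
    Γ.Anc (j + l2) γ (ev U.π (pre Γ U l1 g1) * ev U.π (sfx Γ U l2 g2)) := by
  obtain ⟨z, hz, h1⟩ := h.split
  refine Geo.Anc.join h.1 hz ⟨h1.1, ?_⟩
  have h2 := (cp_anc0 hS h1).2
  have e : (ev U.π (pre Γ U l2 g2))⁻¹ * g2 = ev U.π (sfx Γ U l2 g2) := by
    rw [inv_mul_eq_iff_eq_mul, ev_pre_suf]
  rw [mul_inv_rev, mul_assoc, e] at h2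
  simpa [mul_assoc] using h2

theorem cp_dom {j : ℕ} (h : g1 ∈ Γ.Dom (j + l1)) :
    ev U.π (pre Γ U l1 g1) * ev U.π (sfx Γ U l2 g2) ∈ Γ.Dom (j + l2) := by
  obtain ⟨γ, h⟩ := h; exact ⟨γ, cp_anc hS h⟩

theorem cp_desc {j : ℕ} (h : g1 ∈ Γ.Dom (j + l1)) {y : G} :
    y ∈ Γ.Desc (j + l2) (ev U.π (pre Γ U l1 g1) * ev U.π (sfx Γ U l2 g2)) ↔
      y ∈ Γ.Desc (j + l1) g1 := by
  obtain ⟨γ, h⟩ := h
  rw [(cp_anc hS h).mem_Desc, h.mem_Desc]

theorem cp_cut {j : ℕ} (h : g1 ∈ Γ.Dom (j + l1)) {τ : List U.α}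
    (h1 : pre Γ U l1 g1 = pre Γ U (j + l1) g1 ++ τ)
    (h2 : sfx Γ U (j + l1) g1 = τ ++ sfx Γ U l1 g1) :
    pre Γ U (j + l2) (ev U.π (pre Γ U l1 g1) * ev U.π (sfx Γ U l2 g2)) = pre Γ U (j + l1) g1 ∧
    sfx Γ U (j + l2) (ev U.π (pre Γ U l1 g1) * ev U.π (sfx Γ U l2 g2)) = τ ++ sfx Γ U l2 g2 := by
  refine cut_char (by rw [cp_w hS, ← List.append_assoc, ← h1]) ?_ fun ρ1 ρ2 hρ hne => ?_
  · rw [cp_desc hS h]; exact Tm_spec _ _
  · rw [cp_desc hS h]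
    rcases List.append_eq_append_iff.1 hρ with ⟨a, e1, e2⟩ | ⟨c, e1, e2⟩
    · rcases eq_or_ne a [] with rfl | ha
      · rw [List.append_nil] at e1
        exact suf_inside (e1 ▸ h2) hne
      · refine Geo.Desc_mono (Nat.le_add_left _ _) h ?_
        obtain ⟨γ, hγ⟩ := Geo.Dom_mono (Nat.le_add_left l1 j) h
        have e3 := (cp_anc0 hS hγ).mem_Desc.1 (suf_inside e2 ha)
        rw [e1, ev_append, ← mul_assoc, ← ev_append, ← h1, hγ.mem_Desc]
        simpa [mul_assoc] using e3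
    · exact suf_inside (σ2 := c ++ sfx Γ U l1 g1) (by rw [h2, e1, List.append_assoc]) hne

theorem cp_pre {j : ℕ} (h : g1 ∈ Γ.Dom (j + l1)) :
    pre Γ U (j + l2) (ev U.π (pre Γ U l1 g1) * ev U.π (sfx Γ U l2 g2)) = pre Γ U (j + l1) g1 := by
  obtain ⟨τ, h1, h2⟩ := exists_step (U := U) (Nat.le_add_left l1 j) h
  exact (cp_cut hS h h1 h2).1

theorem cp_suf (h : g1 ∈ Γ.Dom l1) :
    sfx Γ U l2 (ev U.π (pre Γ U l1 g1) * ev U.π (sfx Γ U l2 g2)) = sfx Γ U l2 g2 := by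
  simpa using (cp_cut (j := 0) (τ := []) hS (by simpa using h) (by simp) (by simp)).2

theorem cp_St {j : ℕ} (hl1 : 0 < l1) (h : g1 ∈ Γ.Dom (j + l1)) (_hl2 : 0 < l2) :
    St Γ U (j + l2) (ev U.π (pre Γ U l1 g1) * ev U.π (sfx Γ U l2 g2)) = St Γ U (j + l1) g1 := by
  simp only [St, edge, cp_pre hS h, Prod.mk.injEq, true_and]
  ext x
  refine ⟨fun hx => ?_, fun hx => cp_anc hS hx⟩
  obtain ⟨γ, hγ⟩ := h
  obtain ⟨k, hk⟩ : ∃ k, j + l1 = k + 1 := ⟨j + l1 - 1, by omega⟩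
  have e := (cp_anc hS hγ).uniq hx
  rw [hk] at hγ e ⊢
  simpa using hγ.mul_A e

end cp

variable (Γ U) in
theorem St_finite : ∃ FS : Finset (Set (List U.α) × Set G), ∀ l, ∀ g ∈ Γ.Dom (l + 1),
    St Γ U (l + 1) g ∈ FS := by
  obtain ⟨F, hF, h⟩ := Γ.cross_set (ball_finite U.π 1)
  refine ⟨(U.finQ.prod (hF.image fun f => {x | f⁻¹ * x ∈ Γ.A})).toFinset, fun l g hg => ?_⟩
  rw [Set.Finite.mem_toFinset]
  refine ⟨⟨_, rfl⟩, ?_⟩
  have hT : 0 < Tm Γ U (l + 1) g := Nat.pos_of_ne_zero fun h0 => by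
    have := Tm_spec (Γ := Γ) (U := U) (l + 1) g
    rw [h0, U.B_zero] at this
    exact this (Geo.self_mem_Desc hg)
  obtain ⟨s, hs⟩ : ∃ s, Tm Γ U (l + 1) g = s + 1 := ⟨_, (Nat.succ_pred_eq_of_pos hT).symm⟩
  obtain ⟨γ, hγ⟩ := hg
  have h1 := Tm_spec (Γ := Γ) (U := U) (l + 1) g
  have h2 : U.B g s ∈ Γ.Desc (l + 1) g := Tm_min (by omega)
  rw [hγ.mem_Desc] at h1 h2
  rw [hs] at h1
  obtain ⟨f, hf, e⟩ := h _ (U.B_step g s) (γ⁻¹ * U.B g (s + 1)) (fun h' => h1 (h'.1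
    (by simpa [mul_assoc] using h2)))
  refine ⟨f, hf, ?_⟩
  ext x
  simp only [St, edge, Set.mem_ofPred_eq, ev_pre, hs]
  constructor
  · intro hx
    simpa [mul_assoc] using hγ.mul_A (Γ.A.mul_mem e hx)
  · intro hx
    simpa [mul_assoc] using Γ.A.mul_mem (Γ.A.inv_mem e) (hγ.uniq hx)

variable (Γ) in
/-- level of an edge datum -/
noncomputable def nu (e : Set G) : ℤ := Γ.n (Classical.epsilon fun x => x ∈ e)

theorem n_suf {l : ℕ} {g : G} (hg : g ∈ Γ.Dom l) :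
    Γ.n (ev U.π (sfx Γ U l g)) = nu Γ (edge Γ U l g) + l := by
  obtain ⟨γ, hγ⟩ := hg
  have h1 := Classical.epsilon_spec (p := fun x => x ∈ edge Γ U l g)
    ⟨(ev U.π (pre Γ U l g))⁻¹ * γ, by simpa [edge] using hγ⟩
  have h2 := Γ.n_Pos h1.2
  have e : (ev U.π (pre Γ U l g))⁻¹ * g = ev U.π (sfx Γ U l g) := by
    rw [inv_mul_eq_iff_eq_mul, ev_pre_suf]
  rw [mul_inv_rev, mul_assoc, e, Γ.n_mul, Γ.n_inv] at h2
  unfold nu; omega

theorem paste_eq (l : ℕ) (g x : G) :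
    g * ((ev U.π (sfx Γ U l g))⁻¹ * x) = ev U.π (pre Γ U l g) * x := by
  rw [← mul_assoc, mul_inv_eq_of_eq_mul (ev_pre_suf l g).symm]

end Pool.Agent.MP_5bc3cb_al

end

section

namespace Pool.Agent.MP_5bc3cb_al

theorem perron_inj {F : Type} [Fintype F] (P : F → F → ℝ) (hP : ∀ i j, 0 ≤ P i j)
    (hs : ∀ i, ∑ j, P i j ≤ 1) (lam : ℂ) (hl : ‖lam‖ = 1) (hne : ∀ k : ℕ, 0 < k → lam ^ k ≠ 1)
    (χ : F → ℂ) (h : ∀ i, lam * χ i = ∑ j, (P i j : ℂ) * χ j) : χ = 0 := by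
  classical
  by_contra hχ
  obtain ⟨i0, hi0⟩ := Function.ne_iff.1 hχ
  obtain ⟨i1, -, hmax⟩ := Finset.exists_max_image Finset.univ (fun i => ‖χ i‖) ⟨i0, by simp⟩
  set R := ‖χ i1‖ with hR
  have hR0 : 0 < R := (norm_pos_iff.2 hi0).trans_le (hmax i0 (Finset.mem_univ _))
  have step : ∀ i, ‖χ i‖ = R → ∃ j, χ j = lam * χ i := by
    intro i hi
    by_contra hc
    push Not at hc
    set v := lam * χ i with hv
    have hvn : ‖v‖ = R := by rw [hv, norm_mul, hl, one_mul, hi]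
    have hlt : ∀ j, ((starRingEnd ℂ) v * χ j).re < R ^ 2 := fun j => by
      have h1 : 0 < ‖χ j - v‖ ^ 2 := pow_pos (norm_pos_iff.2 (sub_ne_zero.2 (hc j))) 2
      have h2 := hmax j (Finset.mem_univ _)
      have h3 : ‖χ j‖ ^ 2 ≤ R ^ 2 := pow_le_pow_left₀ (norm_nonneg _) h2 2
      rw [← hvn] at h3 ⊢
      simp only [Complex.sq_norm, Complex.normSq_apply, Complex.sub_re, Complex.sub_im,
        Complex.mul_re, Complex.conj_re, Complex.conj_im] at h1 h3 ⊢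
      nlinarith
    have h1 : ∑ j, P i j * ((starRingEnd ℂ) v * χ j).re = R ^ 2 := by
      have : ((starRingEnd ℂ) v * v).re = R ^ 2 := by
        rw [← hvn, Complex.sq_norm, Complex.normSq_apply]; simp
      rw [← this]
      have e : (starRingEnd ℂ) v * v = ∑ j, (P i j : ℂ) * ((starRingEnd ℂ) v * χ j) := by
        have e0 : v = ∑ j, (P i j : ℂ) * χ j := h i
        rw [show (starRingEnd ℂ) v * v = (starRingEnd ℂ) v * ∑ j, (P i j : ℂ) * χ j by rw [← e0],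
          Finset.mul_sum]
        exact Finset.sum_congr rfl fun j _ => by ring
      rw [e, Complex.re_sum]
      simp
    have h2 : ∀ j, P i j = 0 := by
      by_contra h0
      push Not at h0
      obtain ⟨j0, hj0⟩ := h0
      have h3 : ∑ j, P i j * ((starRingEnd ℂ) v * χ j).re < ∑ j, P i j * R ^ 2 :=
        Finset.sum_lt_sum (fun j _ => mul_le_mul_of_nonneg_left (hlt j).le (hP i j))
          ⟨j0, Finset.mem_univ _, mul_lt_mul_of_pos_left (hlt j0) ((hP i j0).lt_of_ne' hj0)⟩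
      rw [← Finset.sum_mul, h1] at h3
      nlinarith [hs i, pow_pos hR0 2]
    simp only [h2, zero_mul, Finset.sum_const_zero] at h1
    exact (pow_pos hR0 2).ne h1
  have iter : ∀ k : ℕ, ∃ j, χ j = lam ^ k * χ i1 := by
    intro k
    induction k with
    | zero => exact ⟨i1, by simp⟩
    | succ k ih =>
      obtain ⟨j, hj⟩ := ih
      obtain ⟨j', hj'⟩ := step j (by rw [hj, norm_mul, norm_pow, hl, one_pow, one_mul])
      exact ⟨j', by rw [hj', hj, pow_succ', mul_assoc]⟩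
  choose f hf using iter
  obtain ⟨a, b, hab, he⟩ := Finite.exists_ne_map_eq_of_infinite f
  wlog hlt : a < b generalizing a b
  · exact this b a hab.symm he.symm (by omega)
  obtain ⟨k, rfl⟩ := Nat.exists_eq_add_of_lt hlt
  have h1 : lam ^ a * χ i1 = lam ^ (a + k + 1) * χ i1 := by rw [← hf, ← hf, he]
  have hl0 : lam ≠ 0 := fun h0 => by rw [h0] at hl; simp at hl
  have h2 := mul_right_cancel₀ (norm_pos_iff.1 hR0) h1
  rw [add_assoc, pow_add] at h2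
  exact hne (k + 1) (Nat.succ_pos k) (mul_left_cancel₀ (pow_ne_zero a hl0) (by rw [← h2, mul_one]))

theorem perron {F : Type} [Fintype F] (P : F → F → ℝ) (hP : ∀ i j, 0 ≤ P i j)
    (hs : ∀ i, ∑ j, P i j ≤ 1) (lam : ℂ) (hl : ‖lam‖ = 1) (hne : ∀ k : ℕ, 0 < k → lam ^ k ≠ 1)
    (μ : ℕ → F → ℝ) (hμ : ∀ l i, |μ l i| ≤ 1) (hstep : ∀ l j, μ (l + 1) j = ∑ i, μ l i * P i j)
    (φ : F → ℂ) (c : ℂ) (hc : ∀ l, ∑ i, (μ l i : ℂ) * φ i = lam ^ l * c) : c = 0 := by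
  classical
  let T : (F → ℂ) →ₗ[ℂ] (F → ℂ) :=
    { toFun := fun χ i => lam * χ i - ∑ j, (P i j : ℂ) * χ j
      map_add' := fun x y => by
        ext i; simp only [Pi.add_apply, mul_add, Finset.sum_add_distrib]; ring
      map_smul' := fun a x => by
        ext i
        simp only [Pi.smul_apply, smul_eq_mul, RingHom.id_apply, mul_sub, Finset.mul_sum]
        congr 1
        · ring
        · exact Finset.sum_congr rfl fun j _ => by ring }
  have hinj : Function.Injective T := (injective_iff_map_eq_zero T).2 fun χ h =>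
    perron_inj P hP hs lam hl hne χ fun i => sub_eq_zero.1 (congrFun h i)
  obtain ⟨χ, hχ⟩ := LinearMap.injective_iff_surjective.1 hinj φ
  let a : ℕ → ℂ := fun l => ∑ i, (μ l i : ℂ) * χ i
  have h1 : ∀ l, a (l + 1) = lam * a l - lam ^ l * c := by
    intro l
    rw [← hc l, ← hχ]
    simp only [a, T, LinearMap.coe_mk, AddHom.coe_mk, hstep, mul_sub, Finset.sum_sub_distrib,
      Finset.mul_sum]
    push_cast
    simp only [Finset.sum_mul]
    rw [Finset.sum_comm]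
    have e1 : ∑ i, lam * ((μ l i : ℂ) * χ i) = ∑ i, (μ l i : ℂ) * (lam * χ i) :=
      Finset.sum_congr rfl fun i _ => by ring
    rw [e1, sub_sub_cancel]
    exact Finset.sum_congr rfl fun i _ => Finset.sum_congr rfl fun j _ => by ring
  have h2 : ∀ l : ℕ, lam * a l = lam ^ l * (lam * a 0 - l * c) := by
    intro l
    induction l with
    | zero => simp
    | succ l ih => rw [h1, ih]; push_cast; ring
  have h3 : ∀ l, ‖a l‖ ≤ ∑ i, ‖χ i‖ := fun l =>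
    (norm_sum_le _ _).trans (Finset.sum_le_sum fun i _ => by
      rw [norm_mul, Complex.norm_real, Real.norm_eq_abs]
      exact mul_le_of_le_one_left (norm_nonneg _) (hμ l i))
  by_contra hc0
  have hc1 := norm_pos_iff.2 hc0
  obtain ⟨l, hl'⟩ := exists_nat_gt (2 * (∑ i, ‖χ i‖) / ‖c‖)
  rw [div_lt_iff₀ hc1] at hl'
  have h4 := congrArg norm (h2 l)
  rw [norm_mul, norm_mul, norm_pow, hl, one_pow, one_mul, one_mul] at h4
  have h5 := norm_sub_le (lam * a 0) (lam * a 0 - l * c)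
  rw [sub_sub_cancel, norm_mul, norm_mul, hl, one_mul, Complex.norm_natCast, ← h4] at h5
  linarith [h3 0, h3 l]

end Pool.Agent.MP_5bc3cb_al

end

section

namespace Pool.Agent.MP_5bc3cb_al
open Filter Pointwise

variable {G : Type} [Group G] (Γ : Geo G) (U : UA G)

/-- the single chain -/
noncomputable def sys1 : CutSys Γ (Set (List U.α) × Set G) (List U.α) ℕ where
  D l := Γ.Dom (1 + (l + 1))
  Q l := St Γ U (l + 1)
  σ l := sfx Γ U (l + 1)
  Z l g := (pre Γ U (l + 1) g).length - (pre Γ U (1 + (l + 1)) g).length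
  e := ev U.π
  D_sub _ _ h := Geo.Dom_sub_CA h
  cp l1 l2 g1 g2 h1 _ hS := by
    have h1' := Geo.Dom_mono (Nat.le_add_left (l1 + 1) 1) h1
    rw [paste_eq]
    refine ⟨cp_dom hS h1, ?_, cp_suf hS h1', ?_⟩
    · simpa [hS] using cp_St (j := 0) hS (Nat.succ_pos _) (by simpa using h1') (Nat.succ_pos _)
    · rw [cp_pre hS h1]
      congr 2
      simpa using cp_pre (j := 0) hS (by simpa using h1')

variable {Γ} (M : Mean Γ)

theorem suf_bdd (l : ℕ) : ∃ F : Finset (List U.α), ∀ᶠ g in M.ae, sfx Γ U (l + 1) g ∈ F := by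
  obtain ⟨FS, hFS⟩ := St_finite Γ U
  refine (sys1 Γ U).bdd M l (M.ae_Dom _) FS
    (fun g hg => hFS l g (Geo.Dom_mono (Nat.le_add_left _ 1) hg)) (fun g hg g' hg' h => ?_)
    fun δ hδ => ?_
  · change Γ.n (ev U.π (sfx Γ U (l + 1) g)) = Γ.n (ev U.π (sfx Γ U (l + 1) g'))
    rw [n_suf (Geo.Dom_mono (Nat.le_add_left _ 1) hg), n_suf (Geo.Dom_mono (Nat.le_add_left _ 1) hg'),
      show edge Γ U (l + 1) g = edge Γ U (l + 1) g' from congrArg Prod.snd h]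
  · obtain ⟨T, hT⟩ := tight M U (l + 1) hδ
    refine ⟨(List.finite_length_le U.α T).toFinset, le_trans (M.mono_ae ?_) hT⟩
    filter_upwards [M.ae_Dom (l + 1)] with g hg h
    refine ⟨hg, fun s hs => Tm_min ?_⟩
    change sfx Γ U (l + 1) g ∉ _ at h
    rw [Set.Finite.mem_toFinset, Set.mem_ofPred_eq, suf_length] at h
    omega

theorem Tm_bdd (l : ℕ) : ∃ b, ∀ᶠ g in M.ae, Tm Γ U (l + 1) g ≤ b := by
  obtain ⟨F, hF⟩ := suf_bdd U M l
  refine ⟨F.sup List.length, hF.mono fun g hg => ?_⟩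
  rw [← suf_length]; exact Finset.le_sup (f := List.length) hg

theorem step_bdd : ∃ b, ∀ l, ∀ᶠ g in M.ae, Tm Γ U (l + 2) g ≤ Tm Γ U (l + 1) g + b := by
  obtain ⟨FS, hFS⟩ := St_finite Γ U
  have key : ∀ q, ∃ b, ∀ l, M.m {g | (sys1 Γ U).Q l g = q ∧ (sys1 Γ U).Z l g ∈ Set.Ioi b} = 0 := by
    intro q
    by_cases h : ∀ l, M.m {g | (sys1 Γ U).Q l g = q} = 0
    · exact ⟨0, fun l => le_antisymm ((M.mono fun g hg => hg.1).trans (h l).le) (M.nonneg _)⟩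
    push Not at h
    obtain ⟨l0, h0⟩ := h
    obtain ⟨b, hb⟩ := Tm_bdd U M (l0 + 1)
    refine ⟨b, fun l => ?_⟩
    have h1 := (sys1 Γ U).homog M (fun l => M.ae_Dom _) (suf_bdd U M) l l0 q (Set.Ioi b)
    have h2 : M.m {g | (sys1 Γ U).Q l0 g = q ∧ (sys1 Γ U).Z l0 g ∈ Set.Ioi b} = 0 := by
      rw [← M.ae_not_mem]
      filter_upwards [hb] with g hg h
      have h3 : b < (pre Γ U (l0 + 1) g).length - (pre Γ U (1 + (l0 + 1)) g).length := h.2
      rw [pre_length, pre_length, add_comm 1] at h3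
      omega
    rw [h2, mul_zero] at h1
    exact (mul_eq_zero.1 h1).resolve_right h0
  choose b hb using key
  refine ⟨FS.sup b, fun l => ?_⟩
  have h1 : ∀ᶠ g in M.ae, ∀ q ∈ FS,
      g ∉ {g | (sys1 Γ U).Q l g = q ∧ (sys1 Γ U).Z l g ∈ Set.Ioi (b q)} :=
    (Filter.eventually_all_finset _).2 fun q _ => M.ae_not_mem.2 (hb q l)
  filter_upwards [h1, M.ae_Dom (l + 1)] with g h1 hg
  have h2 := hFS l g hg
  have h3 : ¬ b (St Γ U (l + 1) g) <
      (pre Γ U (l + 1) g).length - (pre Γ U (1 + (l + 1)) g).length := fun h => h1 _ h2 ⟨rfl, h⟩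
  have h4 : b (St Γ U (l + 1) g) ≤ FS.sup b := Finset.le_sup h2
  have h5 := Tm_le_len (Γ := Γ) (U := U) (l + 2) g
  rw [pre_length, pre_length, show 1 + (l + 1) = l + 2 by ring] at h3
  omega

theorem steps_bdd (K : ℕ) :
    ∃ b, ∀ l, ∀ᶠ g in M.ae, Tm Γ U (K + (l + 1)) g ≤ Tm Γ U (l + 1) g + b := by
  obtain ⟨b, hb⟩ := step_bdd U M
  induction K with
  | zero => exact ⟨0, fun l => by simp⟩
  | succ K ih =>
    obtain ⟨b', hb'⟩ := ih
    refine ⟨b' + b, fun l => ?_⟩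
    filter_upwards [hb' l, hb (K + l)] with g h1 h2
    rw [show K + 1 + (l + 1) = K + l + 2 by ring]
    rw [← add_assoc] at h1
    omega

theorem interlace {a : G} (ha : a ∈ Γ.H) :
    ∃ b, ∀ l, ∀ᶠ g in M.ae, Tm Γ U (l + 1) g ≤ Tm Γ U (l + 1) (g * a) + b := by
  obtain ⟨S, hS, h⟩ := U.bft a
  obtain ⟨K, hK⟩ := Γ.margin hS
  obtain ⟨b, hb⟩ := steps_bdd U M K
  refine ⟨b, fun l => ?_⟩
  filter_upwards [M.ae_mul_H (hb l) ha, M.ae_Dom (K + (l + 1))] with g h1 hg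
  refine le_trans (Tm_le fun h2 => Tm_spec (Γ := Γ) (U := U) (K + (l + 1)) (g * a) ?_) h1
  have := hK _ g hg _ h2 _ (h g (Tm Γ U (K + (l + 1)) (g * a)))
  rw [mul_inv_cancel_left] at this
  exact (Geo.Desc_mul_H (d := K + l) hg ha).2 this

variable (Γ) in
/-- pair state -/
noncomputable def PSt (a : G) (l : ℕ) (g : G) :
    (Set (List U.α) × Set G) × (Set (List U.α) × Set G) × G :=
  (St Γ U l g, St Γ U l (g * a), (ev U.π (pre Γ U l g))⁻¹ * ev U.π (pre Γ U l (g * a)))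

theorem PSt_finite {a : G} (ha : a ∈ Γ.H) :
    ∃ FQ : Finset _, ∀ l, ∀ᶠ g in M.ae, PSt Γ U a (l + 1) g ∈ FQ := by
  obtain ⟨FS, hFS⟩ := St_finite Γ U
  obtain ⟨S, hS, h⟩ := U.bft a
  obtain ⟨b, hb⟩ := interlace U M ha
  obtain ⟨b', hb'⟩ := interlace U M (Γ.H.inv_mem ha)
  refine ⟨FS ×ˢ FS ×ˢ (((ball_finite U.π (b + b')).union (ball_finite U.π (b + b')).inv).mul
    hS).toFinset, fun l => ?_⟩
  filter_upwards [hb l, M.ae_mul_H (hb' l) ha, M.ae_Dom (l + 1)] with g h1 h2 hg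
  rw [mul_inv_cancel_right] at h2
  simp only [PSt, Finset.mem_product, Set.Finite.mem_toFinset]
  refine ⟨hFS l g hg, hFS l _ (Geo.Dom_mul_H hg ha), _,
    U.B_seg g (i := Tm Γ U (l + 1) g) (j := Tm Γ U (l + 1) (g * a)) (by omega) (by omega),
    _, h g (Tm Γ U (l + 1) (g * a)), ?_⟩
  simp [ev_pre, mul_assoc]

theorem cp_pair {a : G} {l1 l2 : ℕ} {g1 g2 : G} (hQ : PSt Γ U a l1 g1 = PSt Γ U a l2 g2) :
    ev U.π (pre Γ U l1 g1) * ev U.π (sfx Γ U l2 g2) * a =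
      ev U.π (pre Γ U l1 (g1 * a)) * ev U.π (sfx Γ U l2 (g2 * a)) := by
  have h : (ev U.π (pre Γ U l1 g1))⁻¹ * ev U.π (pre Γ U l1 (g1 * a)) =
      (ev U.π (pre Γ U l2 g2))⁻¹ * ev U.π (pre Γ U l2 (g2 * a)) := congrArg (fun x => x.2.2) hQ
  rw [eq_mul_of_inv_mul_eq h, mul_assoc, mul_assoc, mul_assoc, ev_pre_suf]
  congr 1
  rw [eq_inv_mul_iff_mul_eq, ← mul_assoc, ev_pre_suf]

theorem cp_PSt {a : G} (ha : a ∈ Γ.H) {l1 l2 j : ℕ} {g1 g2 : G}
    (hQ : PSt Γ U a (l1 + 1) g1 = PSt Γ U a (l2 + 1) g2) (h1 : g1 ∈ Γ.Dom (j + (l1 + 1))) :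
    PSt Γ U a (j + (l2 + 1)) (ev U.π (pre Γ U (l1 + 1) g1) * ev U.π (sfx Γ U (l2 + 1) g2)) =
      PSt Γ U a (j + (l1 + 1)) g1 := by
  have e1 : St Γ U (l1 + 1) g1 = St Γ U (l2 + 1) g2 := congrArg (fun x => x.1) hQ
  have e2 : St Γ U (l1 + 1) (g1 * a) = St Γ U (l2 + 1) (g2 * a) := congrArg (fun x => x.2.1) hQ
  have h2 : g1 * a ∈ Γ.Dom (j + (l1 + 1)) := Geo.Dom_mul_H (d := j + l1) h1 ha
  simp only [PSt, cp_pair U hQ]
  rw [cp_St e1 (Nat.succ_pos _) h1 (Nat.succ_pos _), cp_St e2 (Nat.succ_pos _) h2 (Nat.succ_pos _),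
    cp_pre e1 h1, cp_pre e2 h2]

variable (Γ) in
/-- the pair chain -/
noncomputable def sys2 {a : G} (ha : a ∈ Γ.H) :
    CutSys Γ ((Set (List U.α) × Set G) × (Set (List U.α) × Set G) × G) (List U.α)
      ((Set (List U.α) × Set G) × (Set (List U.α) × Set G) × G) where
  D l := Γ.Dom (1 + (l + 1))
  Q l := PSt Γ U a (l + 1)
  σ l := sfx Γ U (l + 1)
  Z l := PSt Γ U a (1 + (l + 1))
  e := ev U.π
  D_sub _ _ h := Geo.Dom_sub_CA h
  cp l1 l2 g1 g2 h1 _ hQ := by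
    have h1' := Geo.Dom_mono (Nat.le_add_left (l1 + 1) 1) h1
    have hS : St Γ U (l1 + 1) g1 = St Γ U (l2 + 1) g2 := congrArg (fun x => x.1) hQ
    rw [paste_eq]
    refine ⟨cp_dom hS h1, ?_, cp_suf hS h1', cp_PSt U ha hQ h1⟩
    simpa [hQ] using cp_PSt (j := 0) U ha hQ (by simpa using h1')

end Pool.Agent.MP_5bc3cb_al

end

section

namespace Pool.Agent.MP_5bc3cb_al
open Filter Pointwise

variable {G : Type} [Group G] {Γ : Geo G}

theorem Mean.exp_real (M : Mean Γ) {β1 β2 β3 : Type} (X1 : G → β1) (X2 : G → β2) (X3 : G → β3)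
    (F1 : Finset β1) (F2 : Finset β2) (F3 : Finset β3) (h1 : ∀ᶠ g in M.ae, X1 g ∈ F1)
    (h2 : ∀ᶠ g in M.ae, X2 g ∈ F2) (h3 : ∀ᶠ g in M.ae, X3 g ∈ F3) (c : ℝ) (ψ1 : β1 → ℝ)
    (ψ2 : β2 → ℝ) (ψ3 : β3 → ℝ) (h : ∀ᶠ g in M.ae, c + ψ1 (X1 g) = ψ2 (X2 g) + ψ3 (X3 g)) :
    c + ∑ x ∈ F1, ψ1 x * M.m {g | X1 g = x} =
      ∑ x ∈ F2, ψ2 x * M.m {g | X2 g = x} + ∑ x ∈ F3, ψ3 x * M.m {g | X3 g = x} := by
  have := M.eq_ae (({()} : Finset Unit).disjSum F1) (F2.disjSum F3) (Sum.elim (fun _ => c) ψ1)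
    (Sum.elim (fun _ => Set.univ) fun x => {g | g ∈ Set.univ ∧ X1 g = x}) (Sum.elim ψ2 ψ3)
    (Sum.elim (fun x => {g | g ∈ Set.univ ∧ X2 g = x}) fun x => {g | g ∈ Set.univ ∧ X3 g = x}) (by
      filter_upwards [h1, h2, h3, h] with g h1 h2 h3 h
      simp only [Finset.sum_disjSum, Sum.elim_inl, Sum.elim_inr, Finset.sum_singleton,
        Mean.sum_chi _ _ _ _ h1, Mean.sum_chi _ _ _ _ h2, Mean.sum_chi _ _ _ _ h3,
        chi_of_mem (Set.mem_univ g), mul_one, h])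
  simpa [Finset.sum_disjSum, M.m_univ] using this

theorem Mean.exp_complex (M : Mean Γ) {β1 β2 β3 : Type} (X1 : G → β1) (X2 : G → β2) (X3 : G → β3)
    (F1 : Finset β1) (F2 : Finset β2) (F3 : Finset β3) (h1 : ∀ᶠ g in M.ae, X1 g ∈ F1)
    (h2 : ∀ᶠ g in M.ae, X2 g ∈ F2) (h3 : ∀ᶠ g in M.ae, X3 g ∈ F3) (c : ℂ) (ψ1 : β1 → ℂ)
    (ψ2 : β2 → ℂ) (ψ3 : β3 → ℂ) (h : ∀ᶠ g in M.ae, c + ψ1 (X1 g) = ψ2 (X2 g) + ψ3 (X3 g)) :
    c + ∑ x ∈ F1, ψ1 x * M.m {g | X1 g = x} =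
      ∑ x ∈ F2, ψ2 x * M.m {g | X2 g = x} + ∑ x ∈ F3, ψ3 x * M.m {g | X3 g = x} := by
  apply Complex.ext
  · simpa [Complex.re_sum] using M.exp_real X1 X2 X3 F1 F2 F3 h1 h2 h3 c.re (fun x => (ψ1 x).re)
      (fun x => (ψ2 x).re) (fun x => (ψ3 x).re) (h.mono fun g hg => by
        simpa using congrArg Complex.re hg)
  · simpa [Complex.im_sum] using M.exp_real X1 X2 X3 F1 F2 F3 h1 h2 h3 c.im (fun x => (ψ1 x).im)
      (fun x => (ψ2 x).im) (fun x => (ψ3 x).im) (h.mono fun g hg => by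
        simpa using congrArg Complex.im hg)

theorem drift (M : Mean Γ) (U : UA G) {a : G} (ha : a ∈ Γ.H) (l : ℕ) (FQ : Finset _)
    (hQ : ∀ᶠ g in M.ae, PSt Γ U a (l + 1) g ∈ FQ) :
    ∑ q ∈ FQ, (M.m {g | PSt Γ U a (l + 1) g = q} : ℂ) * (Γ.lam ^ (-nu Γ q.1.2) * Γ.p q.2.2) =
      Γ.lam ^ l * (Γ.lam * Γ.p a) := by
  obtain ⟨F, hF⟩ := suf_bdd U M l
  have key := M.exp_complex (fun g => sfx Γ U (l + 1) (g * a)) (sfx Γ U (l + 1))
    (PSt Γ U a (l + 1)) F F FQ (M.ae_mul_H hF ha) hF hQ (Γ.p a) (fun x => Γ.p (ev U.π x)⁻¹)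
    (fun x => Γ.p (ev U.π x)⁻¹)
    (fun q => Γ.lam ^ (-((l + 1 : ℕ) : ℤ)) * (Γ.lam ^ (-nu Γ q.1.2) * Γ.p q.2.2)) (by
      filter_upwards [M.ae_Dom (l + 1)] with g hg
      have e : a * (ev U.π (sfx Γ U (l + 1) (g * a)))⁻¹ = (ev U.π (sfx Γ U (l + 1) g))⁻¹ *
          ((ev U.π (pre Γ U (l + 1) g))⁻¹ * ev U.π (pre Γ U (l + 1) (g * a))) := by
        rw [← mul_assoc, ← mul_inv_rev, ev_pre_suf, mul_inv_eq_iff_eq_mul, mul_assoc, ev_pre_suf,
          inv_mul_cancel_left]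
      have e2 := congrArg Γ.p e
      rw [Γ.p_mul, Γ.p_mul, Γ.n_H a ha, zpow_zero, one_mul, Γ.n_inv, n_suf hg] at e2
      rw [e2, ← mul_assoc, ← zpow_add₀ Γ.lam_ne_zero]
      simp only [PSt, St]
      congr 3
      ring)
  have h1 : ∀ x, M.m {g | sfx Γ U (l + 1) (g * a) = x} = M.m {g | sfx Γ U (l + 1) g = x} :=
    fun x => M.H_eq {g | sfx Γ U (l + 1) g = x} ha
  simp only [h1] at key
  rw [add_comm, add_right_inj] at key
  rw [key, Finset.mul_sum, Finset.mul_sum]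
  refine Finset.sum_congr rfl fun q _ => ?_
  have := Γ.lam_ne_zero
  rw [zpow_neg Γ.lam ((l + 1 : ℕ) : ℤ), zpow_natCast]
  field_simp
  ring

theorem Geo.not_UA (Γ : Geo G) (U : UA G) : False := by
  classical
  obtain ⟨M⟩ := Γ.exists_mean
  have ha := Γ.c0_mem
  obtain ⟨FQ, hQ⟩ := PSt_finite U M ha
  let C := sys2 Γ U ha
  have hex : ∀ q, ∃ l0, ∀ l, M.m {g | C.Q l g = q} ≠ 0 → M.m {g | C.Q l0 g = q} ≠ 0 := by
    intro q
    by_cases h : ∃ l, M.m {g | C.Q l g = q} ≠ 0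
    · obtain ⟨l, hl⟩ := h; exact ⟨l, fun _ _ => hl⟩
    · exact ⟨0, fun l hl => absurd ⟨l, hl⟩ h⟩
  choose l0 hl0 using hex
  have hc := perron (F := FQ)
    (fun i j => M.m {g | C.Q (l0 i) g = i ∧ C.Z (l0 i) g ∈ ({j.1} : Set _)} /
      M.m {g | C.Q (l0 i) g = i})
    (fun i j => div_nonneg (M.nonneg _) (M.nonneg _)) (fun i => by
      rw [← Finset.sum_div]
      refine div_le_one_of_le₀ (M.disj_le _ _ _ (fun j _ g hg => hg.1) ?_) (M.nonneg _)
      exact fun j _ j' _ g h1 h2 => Subtype.ext ((Set.mem_singleton_iff.1 h1.2).symm.trans h2.2))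
    Γ.lam Γ.lam_norm Γ.lam_ne (fun l i => M.m {g | C.Q l g = i})
    (fun l i => by rw [abs_of_nonneg (M.nonneg _)]; exact M.le_one _) (fun l j => by
      rw [M.partition FQ (C.Q l) (hQ l), ← Finset.sum_coe_sort]
      refine Finset.sum_congr rfl fun i _ => ?_
      have e : {g | g ∈ {g | C.Q (l + 1) g = j} ∧ C.Q l g = i} =
          {g | C.Q l g = i ∧ C.Z l g ∈ ({j.1} : Set _)} := by
        ext g
        simp only [C, sys2, Set.mem_ofPred_eq, Set.mem_singleton_iff, add_comm 1]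
        exact and_comm
      rw [e]
      by_cases h0 : M.m {g | C.Q l g = i} = 0
      · rw [h0, zero_mul]
        exact le_antisymm ((M.mono fun g hg => hg.1).trans h0.le) (M.nonneg _)
      · rw [← mul_div_assoc, eq_div_iff (hl0 i l h0)]
        exact C.homog M (fun l => M.ae_Dom _) (suf_bdd U M) l (l0 i) i {j.1})
    (fun q => Γ.lam ^ (-nu Γ q.1.1.2) * Γ.p q.1.2.2) (Γ.lam * Γ.p Γ.c0) (fun l => by
      rw [← drift M U ha l FQ (hQ l), ← Finset.sum_coe_sort FQ]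
      rfl)
  have h1 := Γ.p_inj _ ha ((mul_eq_zero.1 hc).resolve_left Γ.lam_ne_zero)
  exact Γ.c0_not (h1 ▸ Γ.A.one_mem)

theorem Geo.not_automatic (Γ : Geo G) : ¬ IsAutomatic G := fun h =>
  (exists_UA h).elim fun U => Γ.not_UA U

end Pool.Agent.MP_5bc3cb_al

end
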