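import Pool.Agent.MP_5bc3cb_al.Defs
import Mathlib
import Pool.Agent.Mg.F5bc3cb.G4fa345

section

/-! From a combing of the vertex set to a combing of the metric Cayley graph. -/

namespace Pool.Agent.MP_5bc3cb_al

section
variable {G : Type} [Group G] {A : Set G}

/-- The distance of two vertices of the Cayley graph. -/
noncomputable def dv (hA : Subgroup.closure A = ⊤) (g h : G) : ℝ :=
  @dist (CayleyPt A) (cayleyMetric hA).toDist (CayleyPt.vert g) (CayleyPt.vert h)

lemma dist_le_route (hA : Subgroup.closure A = ⊤) {x y : CayleyPt A} {r : ℝ} (h : Route x y r) :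
    @dist (CayleyPt A) (cayleyMetric hA).toDist x y ≤ r :=
  csInf_le ⟨0, fun _ h => Route.nonneg h⟩ h

lemma dv_self (hA : Subgroup.closure A = ⊤) (g : G) : dv hA g g = 0 :=
  @dist_self _ (cayleyMetric hA).toPseudoMetricSpace _

lemma dv_comm (hA : Subgroup.closure A = ⊤) (g h : G) : dv hA g h = dv hA h g :=
  @dist_comm _ (cayleyMetric hA).toPseudoMetricSpace _ _

lemma dv_triangle (hA : Subgroup.closure A = ⊤) (g h k : G) :
    dv hA g k ≤ dv hA g h + dv hA h k :=
  @dist_triangle _ (cayleyMetric hA).toPseudoMetricSpace _ _ _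

lemma dv_edge (hA : Subgroup.closure A = ⊤) (g : G) {a : G} (ha : a ∈ A) :
    dv hA g (g * a) ≤ 1 :=
  dist_le_route hA (route_edge g ⟨a, ha⟩)

/-- A function that changes by at most `K` along edges is `K`-Lipschitz on vertices. -/
lemma lip_vert (hA : Subgroup.closure A = ⊤) (f : G → ℝ) (K : ℝ) (hK : 0 < K)
    (hf : ∀ g, ∀ a ∈ A, |f g - f (g * a)| ≤ K) (g h : G) : |f g - f h| ≤ K * dv hA g h := by
  let F : CayleyPt A → ℝ := fun z => match z with
    | .vert g => f g / K
    | .edge g a s => (f g + s * (f (g * a) - f g)) / K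
  have hF : ∀ g a (s : Set.Icc (0 : ℝ) 1), F (edgePt g a s) =
      (f g + s * (f (g * a) - f g)) / K := by
    intro g a s
    unfold edgePt
    split_ifs with h0 h1
    · simp [F, h0]
    · simp [F, h1]
    · rfl
  have hL : ∀ g a s s', |F (edgePt g a s) - F (edgePt g a s')| ≤ |(s : ℝ) - (s' : ℝ)| := by
    intro g a s s'
    rw [hF, hF, ← sub_div, add_sub_add_left_eq_sub, ← sub_mul, abs_div, abs_mul, abs_of_pos hK,
      div_le_iff₀ hK]
    refine mul_le_mul_of_nonneg_left ?_ (abs_nonneg _)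
    rw [abs_sub_comm]
    exact hf g a a.2
  have h1 : |F (.vert g) - F (.vert h)| ≤ dv hA g h :=
    le_csInf (route_exists hA _ _) fun r hr => Route.lip_le hL hr
  simp only [F] at h1
  rw [← sub_div, abs_div, abs_of_pos hK, div_le_iff₀ hK] at h1
  linarith

/-- The initial vertex of a point of the Cayley graph. -/
def basev : CayleyPt A → G
  | .vert g => g
  | .edge g _ _ => g

lemma dist_basev (hA : Subgroup.closure A = ⊤) (x : CayleyPt A) :
    @dist (CayleyPt A) (cayleyMetric hA).toDist x (.vert (basev x)) ≤ 1 := by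
  cases x with
  | vert g => exact (dv_self hA g).le.trans zero_le_one
  | edge g a s =>
    have h := Route.single g a ⟨s, s.2.1.le, s.2.2.le⟩ 0
    rw [edgePt_mid, edgePt_zero] at h
    refine (dist_le_route hA h).trans ?_
    simp only [Set.Icc.coe_zero, sub_zero]
    rw [abs_of_pos s.2.1]
    exact s.2.2.le

theorem combable_of_discrete (hA : Subgroup.closure A = ⊤) (s : G → ℝ → G) (b : G → ℝ)
    (k ε K : ℝ) (hk : 1 ≤ k) (hε : 0 ≤ ε) (hK : 1 ≤ K)
    (hb : ∀ g, 0 ≤ b g) (h0 : ∀ g, s g 0 = 1) (hend : ∀ g τ, b g ≤ τ → s g τ = g)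
    (hlip : ∀ g τ τ', 0 ≤ τ → 0 ≤ τ' → dv hA (s g τ) (s g τ') ≤ k * |τ - τ'| + ε)
    (hadj : ∀ g, ∀ a ∈ A, ∀ τ, 0 ≤ τ → dv hA (s g τ) (s (g * a) τ) ≤ K)
    (hbadj : ∀ g, ∀ a ∈ A, |b g - b (g * a)| ≤ K) :
    @Combable (CayleyPt A) (cayleyMetric hA) (CayleyPt.vert 1) := by
  let _ := cayleyMetric hA
  classical
  let P : CayleyPt A → ℝ → CayleyPt A := fun x τ =>
    if b (basev x) + 1 ≤ τ then x else .vert (s (basev x) τ)
  have hP : ∀ x τ, dist (P x τ) (.vert (s (basev x) τ)) ≤ 1 := by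
    intro x τ
    simp only [P]
    split_ifs with h
    · rw [hend _ _ (by linarith)]; exact dist_basev hA x
    · simp
  have hdv : ∀ g h : G, dist (CayleyPt.vert g : CayleyPt A) (.vert h) = dv hA g h :=
    fun _ _ => rfl
  have hPP : ∀ x y τ τ', dist (P x τ) (P y τ') ≤ dv hA (s (basev x) τ) (s (basev y) τ') + 2 := by
    intro x y τ τ'
    have h1 := hP x τ
    have h2 := hP y τ'
    have h3 := dist_triangle4 (P x τ) (.vert (s (basev x) τ)) (.vert (s (basev y) τ')) (P y τ')
    rw [dist_comm] at h2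
    rw [hdv] at h3
    linarith
  let σ : CayleyPt A → BrokenPath (CayleyPt A) (.vert 1) k (ε + 2) := fun x =>
    { b := b (basev x) + 1
      b_nonneg := by have := hb (basev x); linarith
      toFun := fun τ => P x τ
      start := by
        have := hb (basev x)
        simp only [P]
        rw [if_neg (by linarith), h0]
      bound := fun u v => by
        have h1 := hPP x x u v
        have h2 := hlip (basev x) u v u.2.1 v.2.1
        linarith }
  have hat : ∀ x (τ : NNReal), (σ x).valueAt τ = P x τ := by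
    intro x τ
    simp only [BrokenPath.valueAt, σ, P]
    by_cases h : b (basev x) + 1 ≤ τ
    · rw [min_eq_right h, if_pos le_rfl, if_pos h]
    · rw [min_eq_left (le_of_not_ge h)]
  have hbase : ∀ x y : CayleyPt A, dv hA (basev x) (basev y) ≤ dist x y + 2 := by
    intro x y
    have h1 := dist_basev hA x
    have h2 := dist_basev hA y
    have h3 := dist_triangle4 (CayleyPt.vert (basev x) : CayleyPt A) x y (.vert (basev y))
    rw [dist_comm] at h1
    rw [hdv] at h3
    linarith
  have hup : ∀ x y (τ : NNReal), dist ((σ x).valueAt τ) ((σ y).valueAt τ) ≤ K * (dist x y + 2) + 2 := by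
    intro x y τ
    rw [hat, hat]
    have h1 := hPP x y τ τ
    have h2 := lip_vert hA (fun g => dv hA (s (basev x) τ) (s g τ)) K (by linarith)
      (fun g a ha => by
        have h3 := hadj g a ha τ τ.2
        have h4 := dv_triangle hA (s (basev x) τ) (s g τ) (s (g * a) τ)
        have h5 := dv_triangle hA (s (basev x) τ) (s (g * a) τ) (s g τ)
        rw [dv_comm hA (s (g * a) τ)] at h5
        rw [abs_le]; constructor <;> linarith) (basev x) (basev y)
    simp only [dv_self, zero_sub, abs_neg] at h2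
    have h6 := le_abs_self (dv hA (s (basev x) τ) (s (basev y) τ))
    have h7 := mul_le_mul_of_nonneg_left (hbase x y) (by linarith : (0 : ℝ) ≤ K)
    linarith
  refine ⟨k, ε + 2, hk, by linarith, σ, fun x => by simp [σ, P], 2 * K, 4 * K + 2,
    by linarith, by linarith, fun x y => ⟨?_, ?_⟩⟩
  · have hbdd : BddAbove (Set.range fun τ : NNReal => dist ((σ x).valueAt τ) ((σ y).valueAt τ)) :=
      ⟨_, by rintro _ ⟨τ, rfl⟩; exact hup x y τ⟩
    have hx := hb (basev x)
    have hy := hb (basev y)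
    let T : NNReal := ⟨b (basev x) + b (basev y) + 1, by linarith⟩
    have hT : (T : ℝ) = b (basev x) + b (basev y) + 1 := rfl
    have h1 := le_ciSup hbdd T
    have h2 : (σ x).valueAt T = x := by
      rw [hat]; simp only [P]; rw [if_pos (by linarith)]
    have h3 : (σ y).valueAt T = y := by
      rw [hat]; simp only [P]; rw [if_pos (by linarith)]
    rw [h2, h3] at h1
    have h4 : (2 * K)⁻¹ * dist x y ≤ dist x y := by
      refine mul_le_of_le_one_left dist_nonneg (inv_le_one_of_one_le₀ (by linarith))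
    unfold BrokenPath.dP
    have h5 := abs_nonneg ((σ x).b - (σ y).b)
    linarith
  · have h1 : (⨆ τ : NNReal, dist ((σ x).valueAt τ) ((σ y).valueAt τ)) ≤ K * (dist x y + 2) + 2 :=
      ciSup_le (hup x y)
    have h2 := lip_vert hA b K (by linarith) hbadj (basev x) (basev y)
    have h7 := mul_le_mul_of_nonneg_left (hbase x y) (by linarith : (0 : ℝ) ≤ K)
    unfold BrokenPath.dP
    have h3 : (σ x).b - (σ y).b = b (basev x) - b (basev y) := by simp [σ]
    rw [h3]
    linarith

end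

end Pool.Agent.MP_5bc3cb_al

end

section

/-! The Leary-Minasyan group as an HNN extension of the Gaussian integers: basic structure. -/

namespace Pool.Agent.MP_5bc3cb_al

open HNNExtension HNNExtension.NormalWord

/-- The vertex group, the Gaussian integers written multiplicatively. -/
abbrev Lam := Multiplicative GaussianInt

/-- Multiplication by a Gaussian integer. -/
def mulBy (a : GaussianInt) : Lam →* Lam :=
  AddMonoidHom.toMultiplicative (AddMonoidHom.mulLeft a)

lemma mulBy_apply (a m : GaussianInt) :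
    mulBy a (Multiplicative.ofAdd m) = Multiplicative.ofAdd (a * m) := rfl

lemma mulBy_inj (a : GaussianInt) (ha : a ≠ 0) : Function.Injective (mulBy a) := by
  intro x y h
  have h1 : a * x.toAdd = a * y.toAdd := congrArg Multiplicative.toAdd h
  exact Multiplicative.toAdd.injective (mul_left_cancel₀ ha h1)

def piA : GaussianInt := ⟨2, -1⟩
def piB : GaussianInt := ⟨2, 1⟩

lemma piA_ne : piA ≠ 0 := by decide
lemma piB_ne : piB ≠ 0 := by decide

def subA : Subgroup Lam := (mulBy piA).range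
def subB : Subgroup Lam := (mulBy piB).range

noncomputable def phi : subA ≃* subB :=
  (MonoidHom.ofInjective (mulBy_inj piA piA_ne)).symm.trans
    (MonoidHom.ofInjective (mulBy_inj piB piB_ne))

/-- The Leary-Minasyan group. -/
abbrev LM := HNNExtension Lam subA subB phi

lemma phi_apply (m : GaussianInt) (h : Multiplicative.ofAdd (piA * m) ∈ subA) :
    (phi ⟨Multiplicative.ofAdd (piA * m), h⟩ : Lam) = Multiplicative.ofAdd (piB * m) := by
  have h1 : (⟨Multiplicative.ofAdd (piA * m), h⟩ : subA) =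
      MonoidHom.ofInjective (mulBy_inj piA piA_ne) (Multiplicative.ofAdd m) := rfl
  rw [h1]
  unfold phi
  erw [MulEquiv.trans_apply, MulEquiv.symm_apply_apply]
  rfl

/-- The embedding of the Gaussian integers. -/
noncomputable def o (m : GaussianInt) : LM := of (Multiplicative.ofAdd m)

/-- The stable letter. -/
noncomputable def tt : LM := t

lemma o_add (a b : GaussianInt) : o (a + b) = o a * o b := by
  unfold o; rw [ofAdd_add, map_mul]

lemma o_zero : o 0 = 1 := by unfold o; rw [ofAdd_zero, map_one]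

lemma o_neg (a : GaussianInt) : o (-a) = (o a)⁻¹ := by
  unfold o; rw [ofAdd_neg, map_inv]

lemma o_inj : Function.Injective o := by
  intro a b h
  exact Multiplicative.ofAdd.injective (HNNExtension.of_injective phi h)

lemma of_eq_o (g : Lam) : (of g : LM) = o g.toAdd := rfl

lemma tt_mul_o (m : GaussianInt) : tt * o (piA * m) = o (piB * m) * tt := by
  have h : Multiplicative.ofAdd (piA * m) ∈ subA := ⟨Multiplicative.ofAdd m, rfl⟩
  have h1 := t_mul_of (φ := phi) ⟨Multiplicative.ofAdd (piA * m), h⟩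
  rw [phi_apply] at h1
  exact h1

lemma o_mul_tt_inv (m : GaussianInt) : o (piA * m) * tt⁻¹ = tt⁻¹ * o (piB * m) := by
  have h := tt_mul_o m
  calc o (piA * m) * tt⁻¹ = tt⁻¹ * (tt * o (piA * m)) * tt⁻¹ := by group
    _ = tt⁻¹ * o (piB * m) := by rw [h]; group

lemma LM_induction {motive : LM → Prop} (x : LM) (ho : ∀ m, motive (o m)) (ht : motive tt)
    (mul : ∀ x y, motive x → motive y → motive (x * y))
    (inv : ∀ x, motive x → motive x⁻¹) : motive x :=
  HNNExtension.induction_on x (fun g => ho g.toAdd) ht mul inv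

/-! ### Exponent and planar cocycle -/

/-- The rotation number. -/
noncomputable def lam : ℂ := (3 + 4 * Complex.I) / 5

lemma piA_coe : ((piA : GaussianInt) : ℂ) = 2 - Complex.I := by
  simp [piA, GaussianInt.toComplex_def']; ring

lemma piB_coe : ((piB : GaussianInt) : ℂ) = 2 + Complex.I := by
  simp [piB, GaussianInt.toComplex_def']

lemma lam_mul_piA : lam * (piA : ℂ) = (piB : ℂ) := by
  rw [piA_coe, piB_coe, lam]
  have h : Complex.I * Complex.I = -1 := Complex.I_mul_I
  linear_combination (-4 / 5 : ℂ) * h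

lemma norm_lam : ‖lam‖ = 1 := by
  have h : Complex.normSq lam = 1 := by
    rw [lam]; simp [Complex.normSq_apply]; norm_num
  rw [Complex.norm_def, h]; simp

lemma lam_ne : lam ≠ 0 := by
  intro h; have := norm_lam; rw [h] at this; simp at this

/-- The exponent sum of the stable letter, multiplicatively. -/
noncomputable def nHom : LM →* Multiplicative ℤ :=
  HNNExtension.lift 1 (Multiplicative.ofAdd 1) (by intro a; simp)

/-- The exponent sum of the stable letter. -/
noncomputable def nn (g : LM) : ℤ := (nHom g).toAdd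

lemma nn_mul (g h : LM) : nn (g * h) = nn g + nn h := by simp [nn]
lemma nn_one : nn 1 = 0 := by simp [nn]
lemma nn_inv (g : LM) : nn g⁻¹ = - nn g := by simp [nn]
lemma nn_o (m : GaussianInt) : nn (o m) = 0 := by simp [nn, nHom, o]
lemma nn_tt : nn tt = 1 := by simp [nn, nHom, tt]

/-- Translations. -/
noncomputable def trHom : Lam →* Equiv.Perm ℂ where
  toFun m := Equiv.addLeft ((m.toAdd : GaussianInt) : ℂ)
  map_one' := by ext z; simp
  map_mul' a b := by ext z; simp

/-- The affine representation. -/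
noncomputable def rho : LM →* Equiv.Perm ℂ :=
  HNNExtension.lift trHom (Equiv.mulLeft₀ lam lam_ne) (by
    rintro ⟨a, m, rfl⟩
    have h := phi_apply m.toAdd ⟨m, rfl⟩
    have h2 : (phi ⟨mulBy piA m, m, rfl⟩ : Lam) = Multiplicative.ofAdd (piB * m.toAdd) := h
    rw [h2]
    ext z
    have h3 : (mulBy piA m).toAdd = piA * m.toAdd := rfl
    simp only [trHom, MonoidHom.coe_mk, OneHom.coe_mk, Equiv.Perm.coe_mul, Function.comp_apply,
      Equiv.coe_addLeft, Equiv.mulLeft₀_apply, toAdd_ofAdd, h3, map_mul]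
    rw [← lam_mul_piA]; ring)

lemma rho_o (m : GaussianInt) (z : ℂ) : rho (o m) z = (m : ℂ) + z := by
  simp [rho, o, trHom]

lemma rho_tt (z : ℂ) : rho tt z = lam * z := by
  simp [rho, tt]

/-- The planar cocycle. -/
noncomputable def pp (g : LM) : ℂ := rho g 0

lemma rho_apply (g : LM) : ∀ z : ℂ, rho g z = pp g + lam ^ nn g * z := by
  induction g using LM_induction with
  | ho m => intro z; simp [pp, rho_o, nn_o]
  | ht => intro z; simp [pp, rho_tt, nn_tt]
  | mul x y hx hy =>
    intro z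
    unfold pp
    rw [map_mul, Equiv.Perm.mul_apply, Equiv.Perm.mul_apply, hx, hx, hy, hy, nn_mul,
      zpow_add₀ lam_ne]
    ring
  | inv x hx =>
    intro z
    have h1 : ∀ w, rho x (rho x⁻¹ w) = w := by
      intro w; rw [← Equiv.Perm.mul_apply, ← map_mul]; simp
    have h2 := h1 z
    have h3 := h1 0
    rw [hx] at h2 h3
    have h4 : lam ^ nn x * lam ^ (- nn x) = 1 := by
      rw [← zpow_add₀ lam_ne]; simp
    rw [nn_inv]
    unfold pp at *
    have h5 : lam ^ nn x ≠ 0 := zpow_ne_zero _ lam_ne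
    apply mul_left_cancel₀ h5
    linear_combination h2 - h3 - z * h4

lemma pp_mul (g h : LM) : pp (g * h) = pp g + lam ^ nn g * pp h := by
  rw [← rho_apply]; unfold pp; rw [map_mul, Equiv.Perm.mul_apply]

lemma pp_one : pp 1 = 0 := by simp [pp]
lemma pp_o (m : GaussianInt) : pp (o m) = m := by simp [pp, rho_o]
lemma pp_tt : pp tt = 0 := by simp [pp, rho_tt]

lemma norm_lam_zpow (k : ℤ) : ‖lam ^ k‖ = 1 := by rw [norm_zpow, norm_lam]; simp

lemma pp_inv (g : LM) : pp g⁻¹ = - (lam ^ (- nn g) * pp g) := by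
  have h := pp_mul g⁻¹ g
  rw [inv_mul_cancel, pp_one, nn_inv] at h
  linear_combination -h

lemma pp_tt_inv : pp tt⁻¹ = 0 := by rw [pp_inv, pp_tt]; simp

lemma norm_pp_inv_mul (g h : LM) : ‖pp (g⁻¹ * h)‖ = ‖pp h - pp g‖ := by
  have : pp (g⁻¹ * h) = lam ^ (- nn g) * (pp h - pp g) := by
    rw [pp_mul, pp_inv, nn_inv]; ring
  rw [this, norm_mul, norm_lam_zpow, one_mul]

/-! ### Normal forms -/

/-- A fixed pair of transversals. -/
noncomputable def dd : TransversalPair Lam subA subB := Classical.choice inferInstance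

/-- The normal form of the inverse. -/
noncomputable def nf (x : LM) : NormalWord dd := x⁻¹ • (empty : NormalWord dd)

/-- The list of syllables (read from the right end of the element), a name for the vertex
`x Lam` of the Bass-Serre tree. -/
noncomputable def lst (x : LM) : List (ℤˣ × Lam) := (nf x).toList

/-- Evaluation of a list of syllables. -/
noncomputable def evl (l : List (ℤˣ × Lam)) : LM := ((l.map (fun x => (t : LM) ^ (x.1 : ℤ) * of x.2)).prod)⁻¹

lemma evl_nil : evl [] = 1 := by simp [evl]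

lemma evl_cons (a : ℤˣ × Lam) (l : List (ℤˣ × Lam)) :
    evl (a :: l) = evl l * o (- a.2.toAdd) * tt ^ (- (a.1 : ℤ)) := by
  simp only [evl, List.map_cons, List.prod_cons, mul_inv_rev, o_neg, zpow_neg, tt, mul_assoc]
  rfl

lemma nf_mul (x y : LM) : nf (x * y) = y⁻¹ • nf x := by
  unfold nf; rw [mul_inv_rev, mul_smul]

lemma nf_one : nf 1 = empty := by simp [nf]

lemma lst_one : lst 1 = [] := by rw [lst, nf_one]; rfl

lemma lst_mul_o (x : LM) (m : GaussianInt) : lst (x * o m) = lst x := by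
  unfold lst
  rw [nf_mul, ← o_neg]
  unfold o
  rw [of_smul_eq_smul]; rfl

lemma lst_o (m : GaussianInt) : lst (o m) = [] := by
  have := lst_mul_o 1 m
  rwa [one_mul, lst_one] at this

lemma eq_evl (x : LM) : x = evl (lst x) * o (- (nf x).head.toAdd) := by
  have h : (nf x).prod phi = x⁻¹ := by simp [nf]
  have h2 : x = ((nf x).prod phi)⁻¹ := by rw [h, inv_inv]
  rw [o_neg]
  conv_lhs => rw [h2]
  simp only [ReducedWord.prod, mul_inv_rev]
  rfl

lemma exists_evl (x : LM) : ∃ m, x = evl (lst x) * o m := ⟨_, eq_evl x⟩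

lemma exists_o_of_lst_eq {x y : LM} (h : lst x = lst y) : ∃ m, y = x * o m := by
  obtain ⟨a, ha⟩ := exists_evl x
  obtain ⟨b, hb⟩ := exists_evl y
  refine ⟨-a + b, ?_⟩
  rw [o_add, o_neg, hb, ← h]
  conv_rhs => rw [ha]
  group

lemma exists_o_of_lst_nil {x : LM} (h : lst x = []) : ∃ m, x = o m := by
  obtain ⟨m, hm⟩ := exists_o_of_lst_eq (lst_one.trans h.symm)
  exact ⟨m, by simpa using hm⟩

/-- Push or pop. -/
lemma lst_mul_tt_pow (x : LM) (u : ℤˣ) :
    (∃ g, lst x = (u, g) :: lst (x * tt ^ (u : ℤ)) ∧ Cancels (-u) (nf x)) ∨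
    (∃ g, lst (x * tt ^ (u : ℤ)) = (-u, g) :: lst x ∧ ¬ Cancels (-u) (nf x)) := by
  have h : nf (x * tt ^ (u : ℤ)) = unitsSMul phi (-u) (nf x) := by
    rw [nf_mul, ← t_pow_smul_eq_unitsSMul, ← zpow_neg]
    rfl
  unfold lst
  rw [h]
  generalize nf x = w
  by_cases hc : Cancels (-u) w
  · left
    unfold unitsSMul
    rw [dif_pos hc]
    induction w using consRecOn with
    | ofGroup g => simp [Cancels] at hc
    | cons g u' w h1 h2 _ =>
      have h3 := hc.2
      simp only [cons_toList, List.head?_cons, Option.map_some, neg_neg, Option.some.injEq] at h3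
      subst h3
      refine ⟨w.head, ?_, hc⟩
      simp [unitsSMulWithCancel]
  · right
    unfold unitsSMul
    rw [dif_neg hc]
    exact ⟨_, rfl, hc⟩

end Pool.Agent.MP_5bc3cb_al

end

section

/-! The Leary-Minasyan group satisfies the abstract interface. -/

namespace Pool.Agent.MP_5bc3cb_al

open HNNExtension HNNExtension.NormalWord

noncomputable def subH : Subgroup LM := (of : Lam →* LM).range
noncomputable def geoA : Subgroup LM := subB.map (of : Lam →* LM)
noncomputable def geoB : Subgroup LM := subA.map (of : Lam →* LM)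

lemma mem_subH {x : LM} : x ∈ subH ↔ ∃ m, x = o m := by
  constructor
  · rintro ⟨g, rfl⟩; exact ⟨g.toAdd, rfl⟩
  · rintro ⟨m, rfl⟩; exact ⟨_, rfl⟩

lemma mem_geoA {x : LM} : x ∈ geoA ↔ ∃ m, x = o (piB * m) := by
  constructor
  · rintro ⟨_, ⟨g, rfl⟩, rfl⟩; exact ⟨g.toAdd, rfl⟩
  · rintro ⟨m, rfl⟩; exact ⟨_, ⟨Multiplicative.ofAdd m, rfl⟩, rfl⟩

lemma mem_geoB {x : LM} : x ∈ geoB ↔ ∃ m, x = o (piA * m) := by
  constructor
  · rintro ⟨_, ⟨g, rfl⟩, rfl⟩; exact ⟨g.toAdd, rfl⟩
  · rintro ⟨m, rfl⟩; exact ⟨_, ⟨Multiplicative.ofAdd m, rfl⟩, rfl⟩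

lemma cover_piA (m : GaussianInt) : ∃ (i : Fin 5) (q : GaussianInt),
    m = ((i : ℕ) : GaussianInt) + piA * q := by
  obtain ⟨a, b⟩ := m
  have h5 : ((a + 2 * b) % 5).toNat < 5 := by omega
  refine ⟨⟨_, h5⟩, ⟨2 * ((a + 2 * b) / 5) - b, (a + 2 * b) / 5⟩, ?_⟩
  ext
  · simp [piA]; omega
  · simp [piA]

lemma cover_piB (m : GaussianInt) : ∃ (i : Fin 5) (q : GaussianInt),
    m = ((i : ℕ) : GaussianInt) + piB * q := by
  obtain ⟨a, b⟩ := m
  have h5 : ((a - 2 * b) % 5).toNat < 5 := by omega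
  refine ⟨⟨_, h5⟩, ⟨2 * ((a - 2 * b) / 5) + b, - ((a - 2 * b) / 5)⟩, ?_⟩
  ext
  · simp [piB]; omega
  · simp [piB]

lemma pow_mod_five (j : ℕ) : ((⟨3, 4⟩ : GaussianInt) ^ (j + 1)).re % 5 = 3 ∧
    ((⟨3, 4⟩ : GaussianInt) ^ (j + 1)).im % 5 = 4 := by
  induction j with
  | zero => simp
  | succ j ih =>
    rw [pow_succ]
    simp only [Zsqrtd.re_mul, Zsqrtd.im_mul]
    omega

lemma lam_pow_ne (j : ℕ) (hj : 0 < j) : lam ^ j ≠ 1 := by
  obtain ⟨j, rfl⟩ : ∃ k, j = k + 1 := ⟨j - 1, by omega⟩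
  intro h
  have h1 : (((⟨3, 4⟩ : GaussianInt) ^ (j + 1) : GaussianInt) : ℂ) = (5 : ℂ) ^ (j + 1) := by
    have h2 : ((⟨3, 4⟩ : GaussianInt) : ℂ) = 5 * lam := by
      rw [lam, GaussianInt.toComplex_def']; push_cast; ring
    rw [map_pow, h2, mul_pow, h, mul_one]
  have h3 := congrArg Complex.im h1
  have h4 : ((5 : ℂ) ^ (j + 1)).im = 0 := by
    have : ((5 : ℂ) ^ (j + 1)) = (((5 : ℝ) ^ (j + 1) : ℝ) : ℂ) := by push_cast; rfl
    rw [this, Complex.ofReal_im]
  rw [h4, ← GaussianInt.intCast_im] at h3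
  have h5 : ((⟨3, 4⟩ : GaussianInt) ^ (j + 1)).im = 0 := by exact_mod_cast h3
  have := (pow_mod_five j).2
  omega

lemma summable_int_exp (ε : ℝ) (hε : 0 < ε) :
    Summable (fun n : ℤ => Real.exp (-ε * |(n : ℝ)|)) := by
  have h : Summable (fun n : ℕ => Real.exp (-ε * n)) := by
    have h1 : Real.exp (-ε) < 1 := Real.exp_lt_one_iff.2 (by linarith)
    refine (summable_geometric_of_lt_one (Real.exp_pos _).le h1).congr fun n => ?_
    rw [← Real.exp_nat_mul]; ring_nf
  refine Summable.of_nat_of_neg ?_ ?_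
  · simpa using h
  · simpa using h

lemma summable_gauss_exp (ε : ℝ) (hε : 0 < ε) :
    Summable (fun m : GaussianInt => Real.exp (-ε * ‖(m : ℂ)‖)) := by
  have h := summable_int_exp (ε / 2) (by linarith)
  have h2 := summable_mul_of_summable_norm (f := fun n : ℤ => Real.exp (-(ε / 2) * |(n : ℝ)|))
    (g := fun n : ℤ => Real.exp (-(ε / 2) * |(n : ℝ)|))
    (by simpa [Real.norm_eq_abs, abs_of_pos (Real.exp_pos _)] using h)
    (by simpa [Real.norm_eq_abs, abs_of_pos (Real.exp_pos _)] using h)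
  have hinj : Function.Injective (fun m : GaussianInt => (m.re, m.im)) := by
    intro a b hab
    simp only [Prod.mk.injEq] at hab
    exact Zsqrtd.ext hab.1 hab.2
  refine Summable.of_nonneg_of_le (fun _ => (Real.exp_pos _).le) (fun m => ?_)
    (h2.comp_injective hinj)
  simp only [Function.comp]
  rw [← Real.exp_add]
  apply Real.exp_le_exp.2
  have h3 := Complex.abs_re_le_norm (m : ℂ)
  have h4 := Complex.abs_im_le_norm (m : ℂ)
  rw [← GaussianInt.intCast_re] at h3
  rw [← GaussianInt.intCast_im] at h4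
  nlinarith

lemma summable_subH (ε : ℝ) (hε : 0 < ε) :
    Summable (fun h : subH => Real.exp (-ε * ‖pp h‖)) := by
  let f : GaussianInt → subH := fun m => ⟨o m, mem_subH.2 ⟨m, rfl⟩⟩
  have hf : Function.Bijective f := by
    constructor
    · intro a b hab; exact o_inj (congrArg Subtype.val hab)
    · rintro ⟨x, hx⟩
      obtain ⟨m, rfl⟩ := mem_subH.1 hx
      exact ⟨m, rfl⟩
  rw [← (Equiv.ofBijective f hf).summable_iff]
  refine (summable_gauss_exp ε hε).congr fun m => ?_
  simp [f, pp_o]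

lemma lst_mul_tt (x : LM) :
    (∃ g, lst x = (1, g) :: lst (x * tt)) ∨ (∃ g, lst (x * tt) = (-1, g) :: lst x) := by
  have := lst_mul_tt_pow x 1
  simp only [Units.val_one, zpow_one] at this
  rcases this with ⟨g, h, -⟩ | ⟨g, h, -⟩
  · exact Or.inl ⟨g, h⟩
  · exact Or.inr ⟨g, h⟩

lemma lst_tt : ∃ g, lst tt = [(-1, g)] := by
  rcases lst_mul_tt 1 with ⟨g, h⟩ | ⟨g, h⟩
  · rw [lst_one] at h; simp at h
  · rw [lst_one, one_mul] at h; exact ⟨g, h⟩

lemma britton {a b : GaussianInt} (h : o a * tt = tt * o b) : ∃ m, a = piB * m := by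
  let w1 : ReducedWord Lam subA subB := ⟨Multiplicative.ofAdd a, [(1, 1)], List.isChain_singleton _⟩
  let w2 : ReducedWord Lam subA subB := ⟨1, [(1, Multiplicative.ofAdd b)], List.isChain_singleton _⟩
  have h1 : w1.prod phi = w2.prod phi := by
    simp only [w1, w2, ReducedWord.prod, List.map_cons, List.map_nil, List.prod_cons,
      List.prod_nil, Units.val_one, zpow_one, map_one, mul_one, one_mul]
    exact h
  have h2 := (ReducedWord.map_fst_eq_and_of_prod_eq phi h1).2 1 (by simp [w1])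
  simp only [w1, w2, mul_one, toSubgroup_neg_one, inv_mem_iff] at h2
  obtain ⟨m, hm⟩ := h2
  exact ⟨m.toAdd, (congrArg Multiplicative.toAdd hm).symm⟩

/-- The half-space behind the edge from the base vertex to its translate by the stable letter. -/
def halfSp : Set LM := {x | (lst x).getLast? = (lst tt).getLast?}

lemma LM_right_induction (Q : LM → Prop) (h1 : Q 1) (ho : ∀ x m, Q x → Q (x * o m))
    (ht : ∀ x, Q x → Q (x * tt)) (hti : ∀ x, Q x → Q (x * tt⁻¹)) (g : LM) : Q g := by
  have key : ∀ g : LM, (∀ x, Q x → Q (x * g)) ∧ (∀ x, Q x → Q (x * g⁻¹)) := by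
    intro g
    induction g using LM_induction with
    | ho m => exact ⟨fun x => ho x m, fun x hx => by rw [← o_neg]; exact ho x _ hx⟩
    | ht => exact ⟨ht, hti⟩
    | mul a b ha hb =>
      refine ⟨fun x hx => ?_, fun x hx => ?_⟩
      · rw [← mul_assoc]; exact hb.1 _ (ha.1 _ hx)
      · rw [mul_inv_rev, ← mul_assoc]; exact ha.2 _ (hb.2 _ hx)
    | inv a ha => exact ⟨ha.2, by simpa using ha.1⟩
  simpa using (key g).1 1 h1

/-- The Leary-Minasyan group as an instance of the interface. -/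
noncomputable def lmGeo : Geo LM where
  H := subH
  A := geoA
  B := geoB
  t := tt
  n := nn
  p := pp
  lam := lam
  Hs := halfSp
  d := 5
  rA := fun i => o ((i : ℕ) : GaussianInt)
  rB := fun i => o ((i : ℕ) : GaussianInt)
  c0 := o 1
  A_le := fun x hx => by obtain ⟨m, rfl⟩ := mem_geoA.1 hx; exact mem_subH.2 ⟨_, rfl⟩
  B_le := fun x hx => by obtain ⟨m, rfl⟩ := mem_geoB.1 hx; exact mem_subH.2 ⟨_, rfl⟩
  comm := fun x hx y hy => by
    obtain ⟨a, rfl⟩ := mem_subH.1 hx
    obtain ⟨b, rfl⟩ := mem_subH.1 hy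
    rw [← o_add, ← o_add, add_comm]
  A_t := fun x hx => by
    obtain ⟨m, rfl⟩ := mem_geoA.1 hx
    refine mem_geoB.2 ⟨m, ?_⟩
    rw [mul_assoc, ← tt_mul_o]; group
  B_t := fun x hx => by
    obtain ⟨m, rfl⟩ := mem_geoB.1 hx
    refine mem_geoA.2 ⟨m, ?_⟩
    rw [tt_mul_o]; group
  rA_mem := fun i => mem_subH.2 ⟨_, rfl⟩
  rA_cover := fun x hx => by
    obtain ⟨m, rfl⟩ := mem_subH.1 hx
    obtain ⟨i, q, rfl⟩ := cover_piB m
    exact ⟨i, mem_geoA.2 ⟨q, by rw [o_add]; group⟩⟩
  rB_mem := fun i => mem_subH.2 ⟨_, rfl⟩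
  rB_cover := fun x hx => by
    obtain ⟨m, rfl⟩ := mem_subH.1 hx
    obtain ⟨i, q, rfl⟩ := cover_piA m
    exact ⟨i, mem_geoB.2 ⟨q, by rw [o_add]; group⟩⟩
  rB_inj := fun i j h => by
    obtain ⟨m, hm⟩ := mem_geoB.1 h
    rw [← o_neg, ← o_add] at hm
    have h1 := o_inj hm
    have h2 := congrArg Zsqrtd.re h1
    have h3 := congrArg Zsqrtd.im h1
    simp [piA] at h2 h3
    omega
  c0_mem := mem_subH.2 ⟨_, rfl⟩
  c0_not := fun h => by
    obtain ⟨m, hm⟩ := mem_geoA.1 h
    have h1 := o_inj hm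
    have h2 := congrArg Zsqrtd.re h1
    have h3 := congrArg Zsqrtd.im h1
    simp [piB] at h2 h3
    omega
  n_mul := nn_mul
  n_H := fun x hx => by obtain ⟨m, rfl⟩ := mem_subH.1 hx; exact nn_o m
  n_t := nn_tt
  p_mul := pp_mul
  lam_norm := norm_lam
  lam_ne := lam_pow_ne
  p_inj := fun x hx h => by
    obtain ⟨m, rfl⟩ := mem_subH.1 hx
    rw [pp_o] at h
    have : m = 0 := GaussianInt.toComplex_eq_zero.1 h
    rw [this, o_zero]
  p_sum := summable_subH
  Hs_H := fun x hx h hh => by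
    obtain ⟨m, rfl⟩ := mem_subH.1 hh
    simpa [halfSp, lst_mul_o] using hx
  Hs_t := fun x hx => by
    obtain ⟨g0, h0⟩ := lst_tt
    simp only [halfSp, Set.mem_ofPred_eq, h0, List.getLast?_singleton] at hx ⊢
    rcases lst_mul_tt x with ⟨g, h⟩ | ⟨g, h⟩
    · rw [h] at hx
      cases hl : lst (x * tt) with
      | nil => rw [hl] at hx; simp at hx
      | cons e l => rw [hl] at hx; simpa [List.getLast?_cons_cons] using hx
    · rw [h]
      cases hl : lst x with
      | nil => rw [hl] at hx; simp at hx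
      | cons e l => rw [hl] at hx; simpa [List.getLast?_cons_cons] using hx
  one_not := by
    obtain ⟨g0, h0⟩ := lst_tt
    simp [halfSp, h0, lst_one]
  At_mem := fun x hx => by
    obtain ⟨m, rfl⟩ := mem_geoA.1 hx
    simp only [halfSp, Set.mem_ofPred_eq]
    rw [← tt_mul_o, lst_mul_o]
  cross := fun x hx hxt => by
    obtain ⟨g0, h0⟩ := lst_tt
    simp only [halfSp, Set.mem_ofPred_eq, h0, List.getLast?_singleton] at hx hxt
    rcases lst_mul_tt x with ⟨g, h⟩ | ⟨g, h⟩
    · exfalso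
      apply hx
      rw [h]
      cases hl : lst (x * tt) with
      | nil => rw [hl] at hxt; simp at hxt
      | cons e l => rw [hl] at hxt; simpa [List.getLast?_cons_cons] using hxt
    · cases hl : lst x with
      | nil =>
        obtain ⟨a, rfl⟩ := exists_o_of_lst_nil hl
        rw [h, hl] at hxt
        simp only [List.getLast?_singleton, Option.some.injEq] at hxt
        have h2 : lst tt = lst (o a * tt) := by rw [h, hl, h0, hxt]
        obtain ⟨b, hb⟩ := exists_o_of_lst_eq h2
        obtain ⟨m, rfl⟩ := britton hb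
        exact mem_geoA.2 ⟨m, rfl⟩
      | cons e l =>
        exfalso
        apply hx
        rw [h, hl] at hxt
        rw [hl]
        simpa [List.getLast?_cons_cons] using hxt
  ind := fun Q h1 hH ht hti g =>
    LM_right_induction Q h1 (fun x m hx => hH x _ (mem_subH.2 ⟨m, rfl⟩) hx) ht hti g

end Pool.Agent.MP_5bc3cb_al

end

section

/-! The Leary-Minasyan group is combable. -/

namespace Pool.Agent.MP_5bc3cb_al

/-- The Gaussian integer `i`. -/
def gI : GaussianInt := ⟨0, 1⟩

/-- The generating set. -/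
def gens : Set LM := {o 1, o gI, tt}

lemma o_zsmul (n : ℤ) (m : GaussianInt) : o (n • m) = o m ^ n := by
  unfold o; rw [ofAdd_zsmul, map_zpow]

lemma o_eq (m : GaussianInt) : o m = o 1 ^ m.re * o gI ^ m.im := by
  rw [← o_zsmul, ← o_zsmul, ← o_add]
  congr 1
  ext <;> simp [gI]

lemma gens_closure : Subgroup.closure gens = ⊤ := by
  rw [eq_top_iff]
  intro x _
  induction x using LM_induction with
  | ho m =>
    rw [o_eq]
    exact Subgroup.mul_mem _
      (Subgroup.zpow_mem _ (Subgroup.subset_closure (by simp [gens])) _)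
      (Subgroup.zpow_mem _ (Subgroup.subset_closure (by simp [gens])) _)
  | ht => exact Subgroup.subset_closure (by simp [gens])
  | mul a b ha hb => exact Subgroup.mul_mem _ (ha trivial) (hb trivial)
  | inv a ha => exact Subgroup.inv_mem _ (ha trivial)

/-- `x` has word length at most `r`. -/
def Wd (x : LM) (r : ℝ) : Prop := ∀ g, dv gens_closure g (g * x) ≤ r

lemma Wd.mono {x : LM} {r r' : ℝ} (h : Wd x r) (hr : r ≤ r') : Wd x r' :=
  fun g => (h g).trans hr

lemma Wd.one : Wd 1 0 := fun g => by rw [mul_one, dv_self]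

lemma Wd.mul {x y : LM} {r r' : ℝ} (h : Wd x r) (h' : Wd y r') : Wd (x * y) (r + r') := by
  intro g
  have h1 := dv_triangle gens_closure g (g * x) (g * (x * y))
  have h2 := h' (g * x)
  rw [mul_assoc] at h2
  linarith [h g]

lemma Wd.inv {x : LM} {r : ℝ} (h : Wd x r) : Wd x⁻¹ r := by
  intro g
  have h1 := h (g * x⁻¹)
  rwa [inv_mul_cancel_right, dv_comm] at h1

lemma Wd.gen {a : LM} (ha : a ∈ gens) : Wd a 1 := fun g => dv_edge _ g ha

lemma Wd.pow {x : LM} (h : Wd x 1) (n : ℕ) : Wd (x ^ n) n := by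
  induction n with
  | zero => simpa using Wd.one
  | succ n ih => rw [pow_succ]; push_cast; exact ih.mul h

lemma Wd.zpow {x : LM} (h : Wd x 1) (n : ℤ) : Wd (x ^ n) |(n : ℝ)| := by
  obtain ⟨k, rfl | rfl⟩ := Int.eq_nat_or_neg n
  · simpa using h.pow k
  · simpa using (h.pow k).inv

lemma Wd_o (m : GaussianInt) : Wd (o m) (2 * ‖(m : ℂ)‖) := by
  have h := ((Wd.gen (a := o 1) (by simp [gens])).zpow m.re).mul
    ((Wd.gen (a := o gI) (by simp [gens])).zpow m.im)
  rw [← o_eq] at h
  refine h.mono ?_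
  have h3 := Complex.abs_re_le_norm (m : ℂ)
  have h4 := Complex.abs_im_le_norm (m : ℂ)
  rw [← GaussianInt.intCast_re] at h3
  rw [← GaussianInt.intCast_im] at h4
  linarith

lemma norm_pp_mul (x y : LM) : ‖pp (x * y)‖ ≤ ‖pp x‖ + ‖pp y‖ := by
  rw [pp_mul]
  refine (norm_add_le _ _).trans ?_
  rw [norm_mul, norm_lam_zpow, one_mul]

/-- `x` lies within `n` steps in the tree, quantitatively. -/
def Tr (n : ℕ) (x : LM) : Prop :=
  ∃ y m, x = y * o m ∧ Wd y (9 * n) ∧ ‖pp y‖ ≤ 9 * n

lemma Tr.zero (m : GaussianInt) : Tr 0 (o m) :=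
  ⟨1, m, by simp, by simpa using Wd.one, by simp [pp_one]⟩

lemma Tr.mul_o {n : ℕ} {x : LM} (h : Tr n x) (m : GaussianInt) : Tr n (x * o m) := by
  obtain ⟨y, a, rfl, h1, h2⟩ := h
  exact ⟨y, a + m, by rw [o_add, mul_assoc], h1, h2⟩

lemma norm_fin5 (i : Fin 5) : ‖((((i : ℕ) : GaussianInt)) : ℂ)‖ ≤ 4 := by
  rw [map_natCast, Complex.norm_natCast]
  have : (i : ℕ) ≤ 4 := by omega
  exact_mod_cast this

lemma Tr.step {n : ℕ} {y : LM} (h1 : Wd y (9 * n)) (h2 : ‖pp y‖ ≤ 9 * n) (i : Fin 5) {w : LM}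
    (hw : Wd w 1) (hp : pp w = 0) (m : GaussianInt) :
    Tr (n + 1) (y * o ((i : ℕ) : GaussianInt) * w * o m) := by
  have h3 := norm_fin5 i
  refine ⟨_, m, rfl, ((h1.mul (Wd_o _)).mul hw).mono (by push_cast; linarith), ?_⟩
  have h4 := norm_pp_mul (y * o ((i : ℕ) : GaussianInt)) w
  have h5 := norm_pp_mul y (o ((i : ℕ) : GaussianInt))
  rw [pp_o] at h5
  rw [hp, norm_zero] at h4
  push_cast; linarith

lemma Tr.mul_tt {n : ℕ} {x : LM} (h : Tr n x) : Tr (n + 1) (x * tt) := by
  obtain ⟨y, a, rfl, h1, h2⟩ := h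
  obtain ⟨i, q, rfl⟩ := cover_piB a
  have := Tr.step h1 h2 i (Wd.gen (a := tt) (by simp [gens])) pp_tt (piA * q)
  convert this using 1
  rw [o_add]; simp only [mul_assoc]; rw [tt_mul_o]

lemma Tr.mul_tt_inv {n : ℕ} {x : LM} (h : Tr n x) : Tr (n + 1) (x * tt⁻¹) := by
  obtain ⟨y, a, rfl, h1, h2⟩ := h
  obtain ⟨i, q, rfl⟩ := cover_piA a
  have := Tr.step h1 h2 i (Wd.gen (a := tt) (by simp [gens])).inv pp_tt_inv (piB * q)
  convert this using 1
  rw [o_add]; simp only [mul_assoc]; rw [o_mul_tt_inv]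

lemma Tr.mul_evl {x : LM} (h : Tr 0 x) (l a : List (ℤˣ × Lam)) :
    Tr a.length (x * ((evl l)⁻¹ * evl (a ++ l))) := by
  induction a with
  | nil => simpa using h
  | cons e a ih =>
    rw [List.cons_append, evl_cons, List.length_cons]
    have h1 := ih.mul_o (- e.2.toAdd)
    rcases Int.units_eq_one_or e.1 with he | he
    · have := h1.mul_tt_inv
      convert this using 1
      rw [he]; simp [mul_assoc]
    · have := h1.mul_tt
      convert this using 1
      rw [he]; simp [mul_assoc]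

lemma Tr.wd {n : ℕ} {x : LM} (h : Tr n x) : Wd x (27 * n + 2 * ‖pp x‖) := by
  obtain ⟨y, m, rfl, h1, h2⟩ := h
  refine (h1.mul (Wd_o m)).mono ?_
  have h3 := norm_pp_inv_mul y (y * o m)
  rw [inv_mul_cancel_left, pp_o] at h3
  have h4 := norm_sub_le (pp (y * o m)) (pp y)
  linarith

lemma dv_evl (l a : List (ℤˣ × Lam)) (m m' : GaussianInt) :
    dv gens_closure (evl l * o m) (evl (a ++ l) * o m') ≤
      27 * a.length + 2 * ‖pp (evl (a ++ l) * o m') - pp (evl l * o m)‖ := by
  have h1 := (((Tr.zero (-m)).mul_evl l a).mul_o m').wd (evl l * o m)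
  have h2 : o (-m) * ((evl l)⁻¹ * evl (a ++ l)) * o m' = (evl l * o m)⁻¹ * (evl (a ++ l) * o m') := by
    rw [o_neg]; group
  rw [h2, mul_inv_cancel_left, norm_pp_inv_mul] at h1
  exact h1

/-- The nearest Gaussian integer. -/
noncomputable def rnd (z : ℂ) : GaussianInt := ⟨round z.re, round z.im⟩

lemma rnd_coe (m : GaussianInt) : rnd m = m := by
  unfold rnd
  rw [← GaussianInt.intCast_re, ← GaussianInt.intCast_im, round_intCast, round_intCast]

lemma norm_rnd_sub (z : ℂ) : ‖(rnd z : ℂ) - z‖ ≤ 1 := by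
  refine (Complex.norm_le_abs_re_add_abs_im _).trans ?_
  rw [Complex.sub_re, Complex.sub_im, ← GaussianInt.intCast_re, ← GaussianInt.intCast_im]
  have h1 := abs_sub_round z.re
  have h2 := abs_sub_round z.im
  rw [abs_sub_comm] at h1 h2
  simp only [rnd]
  linarith

/-- The element above the vertex `l` nearest to the planar position `z`. -/
noncomputable def approx (l : List (ℤˣ × Lam)) (z : ℂ) : LM :=
  evl l * o (rnd (lam ^ (- nn (evl l)) * (z - pp (evl l))))

lemma lam_zpow_mul_neg (k : ℤ) : lam ^ k * lam ^ (-k) = 1 := by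
  rw [← zpow_add₀ lam_ne]; simp

lemma norm_pp_approx (l : List (ℤˣ × Lam)) (z : ℂ) : ‖pp (approx l z) - z‖ ≤ 1 := by
  unfold approx
  set w := lam ^ (- nn (evl l)) * (z - pp (evl l)) with hw
  have h : pp (evl l * o (rnd w)) - z = lam ^ nn (evl l) * ((rnd w : ℂ) - w) := by
    rw [pp_mul, pp_o, hw]
    linear_combination (z - pp (evl l)) * lam_zpow_mul_neg (nn (evl l))
  rw [h, norm_mul, norm_lam_zpow, one_mul]
  exact norm_rnd_sub w

lemma approx_self (g : LM) : approx (lst g) (pp g) = g := by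
  obtain ⟨m, hm⟩ := exists_evl g
  unfold approx
  have h : lam ^ (- nn (evl (lst g))) * (pp g - pp (evl (lst g))) = m := by
    conv_lhs => rw [show pp g = pp (evl (lst g) * o m) from congrArg pp hm]
    rw [pp_mul, pp_o]
    linear_combination (m : ℂ) * lam_zpow_mul_neg (nn (evl (lst g)))
  rw [h, rnd_coe, ← hm]

lemma approx_nil : approx [] 0 = 1 := by
  have := approx_self 1
  rwa [lst_one, pp_one] at this

lemma dv_approx (l a : List (ℤˣ × Lam)) (z z' : ℂ) :
    dv gens_closure (approx l z) (approx (a ++ l) z') ≤ 27 * a.length + 2 * ‖z' - z‖ + 4 := by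
  have h1 : dv gens_closure (approx l z) (approx (a ++ l) z') ≤
      27 * a.length + 2 * ‖pp (approx (a ++ l) z') - pp (approx l z)‖ := dv_evl l a _ _
  have h2 := norm_pp_approx l z
  have h3 := norm_pp_approx (a ++ l) z'
  have h4 : pp (approx (a ++ l) z') - pp (approx l z) =
      (pp (approx (a ++ l) z') - z') + (z' - z) - (pp (approx l z) - z) := by ring
  have h5 := norm_sub_le ((pp (approx (a ++ l) z') - z') + (z' - z)) (pp (approx l z) - z)
  have h6 := norm_add_le (pp (approx (a ++ l) z') - z') (z' - z)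
  rw [← h4] at h5
  linarith

/-- Clamping a real number to `[-τ, τ]`. -/
noncomputable def cl (τ x : ℝ) : ℝ := max (-τ) (min τ x)

lemma abs_cl_sub (τ τ' x x' : ℝ) : |cl τ x - cl τ' x'| ≤ |τ - τ'| + |x - x'| := by
  unfold cl
  refine (abs_max_sub_max_le_max _ _ _ _).trans (max_le ?_ ?_)
  · rw [neg_sub_neg, abs_sub_comm]; linarith [abs_nonneg (x - x')]
  · refine (abs_min_sub_min_le_max _ _ _ _).trans (max_le ?_ ?_)
    · linarith [abs_nonneg (x - x')]
    · linarith [abs_nonneg (τ - τ')]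

lemma cl_of_le {τ x : ℝ} (h : |x| ≤ τ) : cl τ x = x := by
  unfold cl
  rw [abs_le] at h
  rw [min_eq_right h.2, max_eq_right h.1]

lemma cl_zero (x : ℝ) : cl 0 x = 0 := by
  unfold cl
  rw [neg_zero, max_eq_left (min_le_left _ _)]

/-- Clamping a complex number coordinatewise. -/
noncomputable def clC (τ : ℝ) (z : ℂ) : ℂ := ⟨cl τ z.re, cl τ z.im⟩

lemma norm_clC_sub (τ τ' : ℝ) (z z' : ℂ) :
    ‖clC τ z - clC τ' z'‖ ≤ 2 * |τ - τ'| + 2 * ‖z - z'‖ := by
  refine (Complex.norm_le_abs_re_add_abs_im _).trans ?_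
  have h1 := abs_cl_sub τ τ' z.re z'.re
  have h2 := abs_cl_sub τ τ' z.im z'.im
  have h3 := Complex.abs_re_le_norm (z - z')
  have h4 := Complex.abs_im_le_norm (z - z')
  simp only [Complex.sub_re, Complex.sub_im, clC] at *
  linarith

lemma clC_of_le {τ : ℝ} {z : ℂ} (h : ‖z‖ ≤ τ) : clC τ z = z := by
  unfold clC
  rw [cl_of_le ((Complex.abs_re_le_norm z).trans h), cl_of_le ((Complex.abs_im_le_norm z).trans h)]

lemma clC_zero (z : ℂ) : clC 0 z = 0 := by
  unfold clC; rw [cl_zero, cl_zero]; rfl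

/-- The last `j` entries of a list. -/
def suf {α : Type} (l : List α) (j : ℕ) : List α := l.drop (l.length - j)

lemma suf_zero {α : Type} (l : List α) : suf l 0 = [] := by simp [suf]

lemma suf_of_le {α : Type} (l : List α) {j : ℕ} (h : l.length ≤ j) : suf l j = l := by
  simp [suf, Nat.sub_eq_zero_of_le h]

lemma suf_mono {α : Type} (l : List α) {j j' : ℕ} (h : j ≤ j') :
    ∃ a, suf l j' = a ++ suf l j ∧ a.length ≤ j' - j := by
  refine ⟨(suf l j').take ((l.length - j) - (l.length - j')), ?_, ?_⟩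
  · have h1 : suf l j = (suf l j').drop ((l.length - j) - (l.length - j')) := by
      unfold suf
      rw [List.drop_drop]
      congr 1; omega
    rw [h1, List.take_append_drop]
  · rw [List.length_take]; omega

lemma suf_cons {α : Type} (e : α) (l : List α) (j : ℕ) :
    ∃ a, suf (e :: l) j = a ++ suf l j ∧ a.length ≤ 1 := by
  by_cases h : j ≤ l.length
  · refine ⟨[], ?_, by simp⟩
    unfold suf
    rw [List.length_cons, show l.length + 1 - j = (l.length - j) + 1 by omega, List.drop_succ_cons]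
    rfl
  · refine ⟨[e], ?_, by simp⟩
    rw [suf_of_le _ (by simp; omega), suf_of_le _ (by omega)]
    rfl

/-- The combing of the vertex set. -/
noncomputable def comb (g : LM) (τ : ℝ) : LM := approx (suf (lst g) ⌊τ⌋₊) (clC τ (pp g))

/-- The length of the combing line. -/
noncomputable def combLen (g : LM) : ℝ := (lst g).length + ‖pp g‖

lemma lst_adj (g : LM) {a : LM} (ha : a ∈ gens) :
    lst (g * a) = lst g ∨ (∃ e, lst (g * a) = e :: lst g) ∨ (∃ e, lst g = e :: lst (g * a)) := by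
  simp only [gens, Set.mem_insert_iff, Set.mem_singleton_iff] at ha
  rcases ha with rfl | rfl | rfl
  · exact Or.inl (lst_mul_o _ _)
  · exact Or.inl (lst_mul_o _ _)
  · rcases lst_mul_tt g with ⟨e, h⟩ | ⟨e, h⟩
    · exact Or.inr (Or.inr ⟨_, h⟩)
    · exact Or.inr (Or.inl ⟨_, h⟩)

lemma pp_adj (g : LM) {a : LM} (ha : a ∈ gens) : ‖pp (g * a) - pp g‖ ≤ 1 := by
  rw [← norm_pp_inv_mul, inv_mul_cancel_left]
  simp only [gens, Set.mem_insert_iff, Set.mem_singleton_iff] at ha
  rcases ha with rfl | rfl | rfl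
  · rw [pp_o]; simp
  · rw [pp_o]; simp [gI, GaussianInt.toComplex_def']
  · rw [pp_tt]; simp

lemma comb_lip_le (g : LM) {τ τ' : ℝ} (h0 : 0 ≤ τ) (h : τ ≤ τ') :
    dv gens_closure (comb g τ) (comb g τ') ≤ 31 * |τ - τ'| + 31 := by
  obtain ⟨a, ha, hl⟩ := suf_mono (lst g) (Nat.floor_le_floor h)
  unfold comb
  rw [ha]
  have h1 := dv_approx (suf (lst g) ⌊τ⌋₊) a (clC τ (pp g)) (clC τ' (pp g))
  have h2 := norm_clC_sub τ' τ (pp g) (pp g)
  rw [sub_self, norm_zero, abs_sub_comm] at h2
  have h3 : (a.length : ℝ) ≤ |τ - τ'| + 1 := by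
    have h4 : (a.length : ℝ) ≤ (⌊τ'⌋₊ : ℝ) - ⌊τ⌋₊ := by
      rw [← Nat.cast_sub (Nat.floor_le_floor h)]; exact_mod_cast hl
    have h5 := Nat.floor_le (h0.trans h)
    have h6 := Nat.lt_floor_add_one τ
    rw [abs_sub_comm, abs_of_nonneg (sub_nonneg.2 h)]
    linarith
  linarith

theorem LM_combable : GroupCombable LM := by
  refine ⟨gens, gens_closure, by simp [gens], ?_⟩
  refine combable_of_discrete gens_closure comb combLen 31 31 35 (by norm_num) (by norm_num)
    (by norm_num) (fun g => by unfold combLen; positivity) (fun g => ?_) (fun g τ h => ?_)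
    (fun g τ τ' h h' => ?_) (fun g a ha τ _ => ?_) (fun g a ha => ?_)
  · simp [comb, suf_zero, clC_zero, approx_nil]
  · unfold combLen at h
    have h1 : (0 : ℝ) ≤ (lst g).length := by positivity
    have h2 := norm_nonneg (pp g)
    unfold comb
    rw [suf_of_le _ (Nat.le_floor (by linarith)), clC_of_le (by linarith), approx_self]
  · rcases le_total τ τ' with hh | hh
    · exact comb_lip_le g h hh
    · rw [dv_comm, abs_sub_comm]; exact comb_lip_le g h' hh
  · have h1 := pp_adj g ha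
    have h2 := norm_clC_sub τ τ (pp (g * a)) (pp g)
    have h3 := norm_clC_sub τ τ (pp g) (pp (g * a))
    rw [norm_sub_rev (pp g)] at h3
    rw [sub_self, abs_zero] at h2 h3
    unfold comb
    rcases lst_adj g ha with h | ⟨e, h⟩ | ⟨e, h⟩
    · rw [h]
      have h4 := dv_approx (suf (lst g) ⌊τ⌋₊) [] (clC τ (pp g)) (clC τ (pp (g * a)))
      simp only [List.nil_append, List.length_nil, Nat.cast_zero] at h4
      linarith
    · obtain ⟨c, hc, hl⟩ := suf_cons e (lst g) ⌊τ⌋₊
      rw [h, hc]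
      have h4 := dv_approx (suf (lst g) ⌊τ⌋₊) c (clC τ (pp g)) (clC τ (pp (g * a)))
      have h5 : (c.length : ℝ) ≤ 1 := by exact_mod_cast hl
      linarith
    · obtain ⟨c, hc, hl⟩ := suf_cons e (lst (g * a)) ⌊τ⌋₊
      rw [h, hc, dv_comm]
      have h4 := dv_approx (suf (lst (g * a)) ⌊τ⌋₊) c (clC τ (pp (g * a))) (clC τ (pp g))
      have h5 : (c.length : ℝ) ≤ 1 := by exact_mod_cast hl
      linarith
  · have h1 := pp_adj g ha
    have h2 := abs_norm_sub_norm_le (pp (g * a)) (pp g)
    rw [abs_le] at h2 ⊢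
    unfold combLen
    rcases lst_adj g ha with h | ⟨e, h⟩ | ⟨e, h⟩
    · rw [h]; constructor <;> linarith
    · rw [h, List.length_cons]; push_cast; constructor <;> linarith
    · rw [h, List.length_cons]; push_cast; constructor <;> linarith

theorem exists_geo_combable :
    ∃ (G : Type) (_ : Group G), Nonempty (Geo G) ∧ GroupCombable G :=
  ⟨LM, inferInstance, ⟨lmGeo⟩, LM_combable⟩

end Pool.Agent.MP_5bc3cb_al

end
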